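import Mathlib

open Finset

namespace Pool.Agent.Helper112.CB

/-- rounding offset: `1/2` for one of the three classes modulo 3 -/
noncomputable def rho (i : ℤ) : ℝ := if i % 3 = 2 then 1 / 2 else 0

noncomputable def tau1 (h : ℕ) : ℝ := 1 / (4000000 * 12 ^ h)

/-- upper bound for three times the step of the positions in a class of modulus `γ` -/
noncomputable def Amax (h : ℕ) (η : ℝ) (γ : ℕ) : ℝ := 6 * h * η * 3 ^ (h - 1) * γ

/-- lower bound for three times the step of the positions in a class of modulus `γ` -/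
noncomputable def Amin (h : ℕ) (η : ℝ) (γ : ℕ) : ℝ := 3 * h * η * γ / 4 ^ (h - 1)

/-- the ratio of the steps in direction `y` is not too close to a rational number with
a small denominator -/
def Good (h : ℕ) (η : ℝ) (β γ : ℕ) (y : ℝ) : Prop :=
  ∀ i : ℕ, 1 ≤ i → (i : ℝ) ≤ 1 + 200 * Amax h η γ → ∀ j : ℤ,
    2 * tau1 h / Amin h η γ < |(i : ℝ) * ((β : ℝ) / γ * Real.exp (-((h : ℝ) - 1) * y)) - j|

/-- size of the boxes of indices -/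
noncomputable def Lbox (h : ℕ) (η : ℝ) (β γ : ℕ) : ℝ := 100 * β * Amax h η γ / tau1 h

/-- The labels in the cells of `F ⊆ [0,Z)` can be served by indices `≡ ρ mod q`:
`x n` is the rounded position of the index `n` (in units of the modulus) and `lab n` its label. -/
def Serve (h : ℕ) (P η : ℝ) (q Z : ℕ) (F : Finset ℕ) : Prop :=
  ∃ Zs : ℕ, 1 ≤ Zs ∧ Z ∣ Zs ∧ ∃ M₀ : ℕ, ∀ M : ℕ, M₀ ≤ M → ∀ s : ℕ, Zs ∣ s →
    P * M / (2 * η) ≤ s → (s : ℝ) ≤ P * M / η →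
    ∀ θ : ℝ, η ≤ θ * M ^ (h - 1) → θ * M ^ (h - 1) ≤ 2 * η → ∀ ρ : ℕ, ρ < q →
    ∃ x lab : ℕ → ℤ,
      (∀ n : ℕ, M ≤ 4 * n → n ≤ 3 * M →
        |(x n : ℝ) - θ * n ^ h| ≤ 2 ∧ |(lab n : ℝ)| ≤ 100 * h * s) ∧
      ∀ l ∈ F, ∀ r : ℕ, l * (s / Z) ≤ r → r < (l + 1) * (s / Z) →
        ∀ T : ℤ, θ * M ^ h / 2 ≤ T → (T : ℝ) ≤ 2 ^ h * (θ * M ^ h) →
        ∃ m n : ℕ, M ≤ 4 * m ∧ m ≤ 3 * M ∧ M ≤ 4 * n ∧ n ≤ 3 * M ∧ m % q = ρ ∧ n % q = ρ ∧
          x m + x n = T ∧ lab m + lab n = r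

end Pool.Agent.Helper112.CB
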