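import Pool.Agent.Helper112.Cb.Defs

open Finset

namespace Pool.Agent.Helper112.CB.Kbc

lemma card_le_of_diam (S : Finset ℕ) (x : ℝ) (hx : 0 ≤ x)
    (h : ∀ a ∈ S, ∀ b ∈ S, a ≤ b → (b : ℝ) - a ≤ x) : (S.card : ℝ) ≤ x + 1 := by
  rcases S.eq_empty_or_nonempty with h0 | h0
  · rw [h0]; simp; linarith
  · have hsub : S ⊆ Icc (S.min' h0) (S.min' h0 + ⌊x⌋₊) := by
      intro b hb
      rw [mem_Icc]
      have h1 := S.min'_le b hb
      refine ⟨h1, ?_⟩
      have h2 := h _ (S.min'_mem h0) b hb h1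
      have h3 : ((b - S.min' h0 : ℕ) : ℝ) ≤ x := by
        rw [Nat.cast_sub h1]; exact h2
      have h4 := Nat.le_floor h3
      omega
    have h1 := Finset.card_le_card hsub
    rw [Nat.card_Icc] at h1
    have h2 : S.card ≤ ⌊x⌋₊ + 1 := by omega
    have h3 : (S.card : ℝ) ≤ (⌊x⌋₊ : ℝ) + 1 := by exact_mod_cast h2
    have h4 := Nat.floor_le hx
    linarith

lemma exp_diff {s s' : ℝ} (h1 : s ≤ s') (h2 : s' ≤ 1 / 5) :
    (4 / 5) * (s' - s) ≤ Real.exp (-s) - Real.exp (-s') := by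
  have e1 : Real.exp (-s) = Real.exp (-s') * Real.exp (s' - s) := by
    rw [← Real.exp_add]; congr 1; ring
  have e2 : (4 : ℝ) / 5 ≤ Real.exp (-s') := by
    have := Real.add_one_le_exp (-s')
    linarith
  have e3 := Real.add_one_le_exp (s' - s)
  rw [e1]
  have e4 : 0 ≤ s' - s := by linarith
  nlinarith

set_option maxHeartbeats 4000000 in
/- TARGET -/
theorem bad_cells (h : ℕ) (hh : 2 ≤ h) : ∃ C : ℝ, 0 < C ∧ ∀ (β γ : ℕ) (η : ℝ), 1 ≤ β → β ≤ γ →
    1 ≤ η → ∀ D : ℕ, C * β * γ * η ^ 2 ≤ D →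
    ∃ bad : Finset ℕ, bad ⊆ range (2 * D) ∧ 16 * bad.card ≤ D ∧
      ∀ l < 2 * D, l ∉ bad → ∀ y : ℝ, (l : ℝ) / (10 * h * D) ≤ y →
        y ≤ ((l : ℝ) + 1) / (10 * h * D) → Good h η β γ y := by
  classical
  have hhR : (2 : ℝ) ≤ h := by exact_mod_cast hh
  obtain ⟨p, hp⟩ : ∃ p : ℝ, p = 3 ^ (h - 1) := ⟨_, rfl⟩
  obtain ⟨r, hr⟩ : ∃ r : ℝ, r = 4 ^ (h - 1) := ⟨_, rfl⟩
  have hp1 : 1 ≤ p := by rw [hp]; exact one_le_pow₀ (by norm_num)
  have hr1 : 1 ≤ r := by rw [hr]; exact one_le_pow₀ (by norm_num)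
  have h12 : (12 : ℝ) ^ h = 12 * p * r := by
    obtain ⟨k, rfl⟩ : ∃ k, h = k + 1 := ⟨h - 1, by omega⟩
    rw [hp, hr, Nat.add_sub_cancel, pow_succ, show (12 : ℝ) = 3 * 4 by norm_num, mul_pow]
    ring
  refine ⟨128 * (1206 * h * p) ^ 2, by positivity, ?_⟩
  intro β γ η hβ hβγ hη D hD
  have hb : (1 : ℝ) ≤ β := by exact_mod_cast hβ
  have hbg : (β : ℝ) ≤ γ := by exact_mod_cast hβγ
  have hg : (1 : ℝ) ≤ γ := hb.trans hbg
  have hη2 : 1 ≤ η ^ 2 := one_le_pow₀ hη
  have hD0 : (0 : ℝ) < D := by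
    refine lt_of_lt_of_le ?_ hD
    positivity
  obtain ⟨A, hA⟩ : ∃ A, A = Amax h η γ := ⟨_, rfl⟩
  have hA' : A = 6 * h * η * p * γ := by rw [hA, Amax, hp]
  obtain ⟨e, he⟩ : ∃ e, e = 2 * tau1 h / Amin h η γ := ⟨_, rfl⟩
  have he' : e = 1 / (72000000 * p * h * η * γ) := by
    rw [he, tau1, Amin, ← hr, h12]
    field_simp
    norm_num
  have he0 : 0 < e := by rw [he']; positivity
  have heA : e * A = 1 / 12000000 := by
    rw [he', hA']
    field_simp
    norm_num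
  have hA1 : 1 ≤ A := by
    rw [hA']
    have h1 : 1 ≤ 6 * (h : ℝ) := by linarith
    have h2 : 1 ≤ 6 * (h : ℝ) * η := one_le_mul_of_one_le_of_one_le h1 hη
    have h3 : 1 ≤ 6 * (h : ℝ) * η * p := one_le_mul_of_one_le_of_one_le h2 hp1
    exact one_le_mul_of_one_le_of_one_le h3 hg
  have heg : e * γ ≤ 1 / 72000000 := by
    rw [he']
    have h1 : 1 / (72000000 * p * h * η * γ) * γ = 1 / (72000000 * p * h * η) := by
      field_simp
    rw [h1]
    apply one_div_le_one_div_of_le (by norm_num)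
    have h2 : 1 ≤ p * h := one_le_mul_of_one_le_of_one_le hp1 (by linarith)
    have h3 : 1 ≤ p * h * η := one_le_mul_of_one_le_of_one_le h2 hη
    linarith
  obtain ⟨Q, hQ⟩ : ∃ Q : ℕ, Q = ⌊1 + 200 * A⌋₊ := ⟨_, rfl⟩
  have hQle : (Q : ℝ) ≤ 201 * A := by
    have := Nat.floor_le (show 0 ≤ 1 + 200 * A by linarith)
    rw [hQ]; linarith
  -- the cells meeting the set for (i, j)
  let cells : ℕ → ℕ → Finset ℕ := fun i j => (range (2 * D)).filter (fun l =>
    ∃ y : ℝ, (l : ℝ) / (10 * h * D) ≤ y ∧ y ≤ ((l : ℝ) + 1) / (10 * h * D) ∧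
      |(i : ℝ) * ((β : ℝ) / γ * Real.exp (-((h : ℝ) - 1) * y)) - j| ≤ e)
  let bad : Finset ℕ := (Icc 1 Q).biUnion (fun i => (Icc 1 ⌊2 * i * (β : ℝ) / γ⌋₊).biUnion
    (fun j => cells i j))
  have hhD : (0 : ℝ) < 10 * h * D := by positivity
  have hyrange : ∀ l : ℕ, l < 2 * D → ∀ y : ℝ, (l : ℝ) / (10 * h * D) ≤ y →
      y ≤ ((l : ℝ) + 1) / (10 * h * D) → 0 ≤ ((h : ℝ) - 1) * y ∧ ((h : ℝ) - 1) * y ≤ 1 / 5 := by
    intro l hl y h1 h2
    have h3 : 0 ≤ y := le_trans (by positivity) h1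
    have h4 : (l : ℝ) + 1 ≤ 2 * D := by exact_mod_cast hl
    have h5 : y ≤ 1 / (5 * h) := by
      refine h2.trans ?_
      rw [div_le_div_iff₀ hhD (by positivity)]
      nlinarith
    constructor
    · apply mul_nonneg _ h3; linarith
    · have h6 : ((h : ℝ) - 1) * y ≤ h * (1 / (5 * h)) := by
        apply mul_le_mul _ h5 h3 (by positivity); linarith
      have h7 : (h : ℝ) * (1 / (5 * h)) = 1 / 5 := by field_simp
      linarith
  -- size of cells
  have hcell : ∀ i : ℕ, 1 ≤ i → ∀ j : ℕ, ((cells i j).card : ℝ) ≤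
      (1 + 25 * e * h * D * γ / (i * β * (h - 1))) + 1 := by
    intro i hi j
    have hiR : (1 : ℝ) ≤ i := by exact_mod_cast hi
    have hh1 : (0 : ℝ) < h - 1 := by linarith
    apply card_le_of_diam
    · positivity
    intro l1 hl1 l2 hl2 h12'
    simp only [cells, mem_filter, mem_range] at hl1 hl2
    obtain ⟨hl1D, y1, a1, a2, a3⟩ := hl1
    obtain ⟨hl2D, y2, b1, b2, b3⟩ := hl2
    have r1 := hyrange l1 hl1D y1 a1 a2
    have r2 := hyrange l2 hl2D y2 b1 b2
    have hdiff : ((l2 : ℝ) - l1 - 1) / (10 * h * D) ≤ y2 - y1 := by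
      have : ((l2 : ℝ) - l1 - 1) / (10 * h * D) = (l2 : ℝ) / (10 * h * D) -
        ((l1 : ℝ) + 1) / (10 * h * D) := by ring
      rw [this]; linarith
    have key : (i : ℝ) * ((β : ℝ) / γ) * ((4 / 5) * ((h - 1) * (y2 - y1))) ≤ 2 * e := by
      rcases le_total y1 y2 with hy | hy
      · have h1 : ((h : ℝ) - 1) * y1 ≤ (h - 1) * y2 := mul_le_mul_of_nonneg_left hy hh1.le
        have h2 := exp_diff h1 r2.2
        have h3 := (abs_le.1 a3).2
        have h4 := (abs_le.1 b3).1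
        have e1 : -((h : ℝ) - 1) * y1 = -((h - 1) * y1) := by ring
        have e2 : -((h : ℝ) - 1) * y2 = -((h - 1) * y2) := by ring
        rw [e1] at h3
        rw [e2] at h4
        have h5 : (i : ℝ) * ((β : ℝ) / γ) * (Real.exp (-((h - 1) * y1)) - Real.exp (-((h - 1) * y2)))
            ≤ 2 * e := by
          have : (i : ℝ) * ((β : ℝ) / γ) * (Real.exp (-((h - 1) * y1)) - Real.exp (-((h - 1) * y2))) =
            ((i : ℝ) * ((β : ℝ) / γ * Real.exp (-((h - 1) * y1))) - j) -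
            ((i : ℝ) * ((β : ℝ) / γ * Real.exp (-((h - 1) * y2))) - j) := by ring
          rw [this]; linarith
        refine le_trans (mul_le_mul_of_nonneg_left ?_ (by positivity)) h5
        have e3 : ((h : ℝ) - 1) * (y2 - y1) = (h - 1) * y2 - (h - 1) * y1 := by ring
        rw [e3]; exact h2
      · have h1 : (i : ℝ) * ((β : ℝ) / γ) * ((4 / 5) * ((h - 1) * (y2 - y1))) ≤ 0 := by
          apply mul_nonpos_of_nonneg_of_nonpos (by positivity)
          have : ((h : ℝ) - 1) * (y2 - y1) ≤ 0 :=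
            mul_nonpos_of_nonneg_of_nonpos hh1.le (by linarith)
          linarith
        linarith
    have key2 : (i : ℝ) * ((β : ℝ) / γ) * ((4 / 5) * ((h - 1) * (((l2 : ℝ) - l1 - 1) / (10 * h * D))))
        ≤ 2 * e := by
      refine le_trans ?_ key
      apply mul_le_mul_of_nonneg_left _ (by positivity)
      apply mul_le_mul_of_nonneg_left _ (by norm_num)
      exact mul_le_mul_of_nonneg_left hdiff hh1.le
    have key3 : ((l2 : ℝ) - l1 - 1) ≤ 25 * e * h * D * γ / (i * β * (h - 1)) := by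
      rw [le_div_iff₀ (by positivity)]
      have e3 : (i : ℝ) * ((β : ℝ) / γ) * ((4 / 5) * ((h - 1) * (((l2 : ℝ) - l1 - 1) / (10 * h * D)))) =
        (((l2 : ℝ) - l1 - 1) * (i * β * (h - 1))) * (4 / (50 * h * D * γ)) := by
        field_simp
        try ring
      rw [e3] at key2
      have e4 : 2 * e = (25 * e * h * D * γ) * (4 / (50 * h * D * γ)) := by
        field_simp
        try ring
      rw [e4] at key2
      exact le_of_mul_le_mul_right key2 (by positivity)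
    linarith
  refine ⟨bad, ?_, ?_, ?_⟩
  · intro l hl
    simp only [bad, mem_biUnion, cells, mem_filter] at hl
    obtain ⟨_, _, _, _, hl, _⟩ := hl
    exact hl
  · have h1 : (bad.card : ℝ) ≤ ∑ i ∈ Icc 1 Q, (4 * (Q : ℝ) * β / γ + 100 * e * D) := by
      have h2 : (bad.card : ℝ) ≤ ∑ i ∈ Icc 1 Q,
          (((Icc 1 ⌊2 * i * (β : ℝ) / γ⌋₊).biUnion (fun j => cells i j)).card : ℝ) := by
        have h0 : bad.card ≤ ∑ i ∈ Icc 1 Q,
          ((Icc 1 ⌊2 * i * (β : ℝ) / γ⌋₊).biUnion (fun j => cells i j)).card := card_biUnion_le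
        rw [← Nat.cast_sum]
        exact Nat.cast_le.2 h0
      refine h2.trans (Finset.sum_le_sum ?_)
      intro i hi
      rw [mem_Icc] at hi
      have hiR : (1 : ℝ) ≤ i := by exact_mod_cast hi.1
      have hiQ : (i : ℝ) ≤ Q := by exact_mod_cast hi.2
      have hh1 : (0 : ℝ) < h - 1 := by linarith
      have h3 : (((Icc 1 ⌊2 * i * (β : ℝ) / γ⌋₊).biUnion (fun j => cells i j)).card : ℝ) ≤
          ∑ j ∈ Icc 1 ⌊2 * i * (β : ℝ) / γ⌋₊, ((cells i j).card : ℝ) := by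
        have h0 : ((Icc 1 ⌊2 * i * (β : ℝ) / γ⌋₊).biUnion (fun j => cells i j)).card ≤
          ∑ j ∈ Icc 1 ⌊2 * i * (β : ℝ) / γ⌋₊, (cells i j).card := card_biUnion_le
        rw [← Nat.cast_sum]
        exact Nat.cast_le.2 h0
      refine h3.trans ((Finset.sum_le_sum (fun j _ => hcell i hi.1 j)).trans ?_)
      rw [Finset.sum_const, Nat.card_Icc, nsmul_eq_mul, Nat.add_sub_cancel]
      have h4 : ((⌊2 * i * (β : ℝ) / γ⌋₊ : ℕ) : ℝ) ≤ 2 * i * (β : ℝ) / γ :=
        Nat.floor_le (by positivity)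
      calc ((⌊2 * i * (β : ℝ) / γ⌋₊ : ℕ) : ℝ) * (1 + 25 * e * h * D * γ / (i * β * (h - 1)) + 1) ≤
          (2 * i * (β : ℝ) / γ) * (1 + 25 * e * h * D * γ / (i * β * (h - 1)) + 1) := by
            apply mul_le_mul_of_nonneg_right h4
            positivity
        _ = 4 * i * (β : ℝ) / γ + 50 * e * D * (h / (h - 1)) := by
            field_simp
            ring
        _ ≤ 4 * (Q : ℝ) * β / γ + 100 * e * D := by
            have h5 : 4 * (i : ℝ) * β / γ ≤ 4 * (Q : ℝ) * β / γ := by gcongr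
            have h6 : (h : ℝ) / (h - 1) ≤ 2 := by
              rw [div_le_iff₀ hh1]; linarith
            have h7 : 50 * e * D * ((h : ℝ) / (h - 1)) ≤ 50 * e * D * 2 :=
              mul_le_mul_of_nonneg_left h6 (by positivity)
            linarith
    rw [Finset.sum_const, Nat.card_Icc, nsmul_eq_mul, Nat.add_sub_cancel] at h1
    have h2 : (Q : ℝ) * (4 * (Q : ℝ) * β / γ) ≤ D / 32 := by
      have h3 : (Q : ℝ) ≤ 1206 * h * p * η * γ := by
        refine hQle.trans ?_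
        rw [hA']; apply le_of_eq; ring
      have h4 : (Q : ℝ) ^ 2 ≤ (1206 * h * p * η * γ) ^ 2 :=
        pow_le_pow_left₀ (by positivity) h3 2
      have h5 : (Q : ℝ) * (4 * (Q : ℝ) * β / γ) = 4 * (β / γ) * (Q : ℝ) ^ 2 := by ring
      rw [h5]
      have h6 : 4 * ((β : ℝ) / γ) * (Q : ℝ) ^ 2 ≤ 4 * (β / γ) * (1206 * h * p * η * γ) ^ 2 :=
        mul_le_mul_of_nonneg_left h4 (by positivity)
      have h7 : 4 * ((β : ℝ) / γ) * (1206 * h * p * η * γ) ^ 2 =
        (128 * (1206 * h * p) ^ 2 * β * γ * η ^ 2) / 32 := by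
        field_simp
        ring
      rw [h7] at h6
      linarith
    have h3 : (Q : ℝ) * (100 * e * D) ≤ D / 100 := by
      have h4 : (Q : ℝ) * e ≤ 201 / 12000000 := by
        calc (Q : ℝ) * e ≤ (201 * A) * e := mul_le_mul_of_nonneg_right hQle he0.le
          _ = 201 * (e * A) := by ring
          _ = 201 / 12000000 := by rw [heA]; norm_num
      have h5 : (Q : ℝ) * (100 * e * D) = 100 * (Q * e) * D := by ring
      rw [h5]
      nlinarith
    have h4 : (16 : ℝ) * bad.card ≤ D := by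
      have : (bad.card : ℝ) ≤ D / 32 + D / 100 := by
        refine h1.trans ?_
        rw [mul_add]
        exact add_le_add h2 h3
      linarith
    exact_mod_cast h4
  · intro l hl hlb y hy1 hy2 i hi1 hi2 j
    rw [← hA] at hi2
    rw [← he]
    by_contra hcon
    push Not at hcon
    have hr := hyrange l hl y hy1 hy2
    have hiR : (1 : ℝ) ≤ i := by exact_mod_cast hi1
    obtain ⟨E, hE⟩ : ∃ E, E = Real.exp (-((h : ℝ) - 1) * y) := ⟨_, rfl⟩
    have hE1 : 4 / 5 ≤ E := by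
      rw [hE]
      have := Real.add_one_le_exp (-((h : ℝ) - 1) * y)
      have e2 : -((h : ℝ) - 1) * y = -((h - 1) * y) := by ring
      rw [e2] at this ⊢
      linarith [hr.2]
    have hE2 : E ≤ 1 := by
      rw [hE]
      apply Real.exp_le_one_iff.2
      have e2 : -((h : ℝ) - 1) * y = -((h - 1) * y) := by ring
      rw [e2]; linarith [hr.1]
    have hcon' := hcon
    rw [← hE] at hcon'
    have hac := abs_le.1 hcon'
    have hbg0 : 0 < (β : ℝ) / γ := by positivity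
    have heb : e < (4 / 5) * ((β : ℝ) / γ) := by
      have h1 : e * γ < (4 / 5) * β := by linarith
      rw [mul_div_assoc', lt_div_iff₀ (by linarith)]
      exact h1
    -- j ≥ 1
    have hj1 : 1 ≤ j := by
      by_contra hj
      push Not at hj
      have hj0 : (j : ℝ) ≤ 0 := by exact_mod_cast (show j ≤ 0 by omega)
      have h1 : (4 / 5) * ((β : ℝ) / γ) ≤ i * (β / γ * E) := by
        have h2 : (4 / 5) * ((β : ℝ) / γ) ≤ β / γ * E := by
          rw [mul_comm]; exact mul_le_mul_of_nonneg_left hE1 hbg0.le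
        have h3 : (β : ℝ) / γ * E ≤ i * (β / γ * E) :=
          le_mul_of_one_le_left (mul_nonneg hbg0.le (by linarith)) hiR
        exact h2.trans h3
      linarith [hac.2]
    obtain ⟨k, hk⟩ : ∃ k : ℕ, (k : ℤ) = j := ⟨j.toNat, Int.toNat_of_nonneg (by omega)⟩
    have hkj : (j : ℝ) = (k : ℝ) := by rw [← hk]; simp
    have hk1 : 1 ≤ k := by omega
    have hk2 : (k : ℝ) ≤ 2 * i * (β : ℝ) / γ := by
      rw [← hkj]
      have h1 : (i : ℝ) * (β / γ * E) ≤ i * (β / γ) := by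
        have h2 : (β : ℝ) / γ * E ≤ β / γ := mul_le_of_le_one_right hbg0.le hE2
        exact mul_le_mul_of_nonneg_left h2 (by linarith)
      have h2 : (β : ℝ) / γ ≤ i * (β / γ) := le_mul_of_one_le_left hbg0.le hiR
      have h3 : 2 * (i : ℝ) * β / γ = 2 * (i * (β / γ)) := by ring
      rw [h3]
      linarith [hac.1]
    apply hlb
    simp only [bad, mem_biUnion]
    refine ⟨i, mem_Icc.2 ⟨hi1, ?_⟩, k, mem_Icc.2 ⟨hk1, Nat.le_floor hk2⟩, ?_⟩
    · rw [hQ]; exact Nat.le_floor hi2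
    · simp only [cells, mem_filter, mem_range]
      refine ⟨hl, y, hy1, hy2, ?_⟩
      rw [← hkj]
      exact hcon

end Pool.Agent.Helper112.CB.Kbc

namespace Pool.Agent.Helper112.CB

theorem bad_cells (h : ℕ) (hh : 2 ≤ h) : ∃ C : ℝ, 0 < C ∧ ∀ (β γ : ℕ) (η : ℝ), 1 ≤ β → β ≤ γ →
    1 ≤ η → ∀ D : ℕ, C * β * γ * η ^ 2 ≤ D →
    ∃ bad : Finset ℕ, bad ⊆ range (2 * D) ∧ 16 * bad.card ≤ D ∧
      ∀ l < 2 * D, l ∉ bad → ∀ y : ℝ, (l : ℝ) / (10 * h * D) ≤ y →
        y ≤ ((l : ℝ) + 1) / (10 * h * D) → Good h η β γ y := by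
  first
    | exact Kbc.bad_cells
    | (apply Kbc.bad_cells <;> assumption)

end Pool.Agent.Helper112.CB
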