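import Pool.Agent.Helper112.Cb.Defs

open Finset

namespace Pool.Agent.Helper112.CB.Kgo

theorem gold_lower (a b : ℤ) (hb : 1 ≤ b) :
    1 / (3 * (b:ℝ)) ≤ |(a:ℝ) - b * ((√5 - 1) / 2)| := by
  have hbR : (1:ℝ) ≤ b := by exact_mod_cast hb
  have hs : √5 * √5 = (5:ℝ) := Real.mul_self_sqrt (by norm_num)
  have hs1 : √5 < 2.24 := by
    rw [Real.sqrt_lt' (by norm_num)]; norm_num
  have hs0 : 0 < √5 := Real.sqrt_pos.2 (by norm_num)
  have hprod : ((a:ℝ) - b * ((√5 - 1) / 2)) * ((a:ℝ) + b * ((√5 + 1) / 2)) =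
      ((a^2 + a*b - b^2 : ℤ) : ℝ) := by
    push_cast
    have : ((a:ℝ) - b * ((√5 - 1) / 2)) * ((a:ℝ) + b * ((√5 + 1) / 2)) =
      a^2 + a * b - b^2 * ((√5 * √5 - 1) / 4) := by ring
    rw [this, hs]; ring
  have hne : (a^2 + a*b - b^2 : ℤ) ≠ 0 := by
    intro h0
    have h1 : (2*a+b)^2 = 5 * b^2 := by nlinarith
    have h2 : ((2*a+b : ℤ) : ℝ)^2 = 5 * (b:ℝ)^2 := by exact_mod_cast h1
    have hirr : Irrational (√((5:ℕ):ℝ)) := Nat.Prime.irrational_sqrt (by norm_num)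
    apply hirr
    refine ⟨(|2*a+b| : ℤ) / (b : ℤ), ?_⟩
    push_cast
    symm
    rw [Real.sqrt_eq_iff_mul_self_eq (by norm_num) (by positivity)]
    push_cast at h2
    have hb0 : (b:ℝ) ≠ 0 := by positivity
    field_simp
    rw [sq_abs]
    linarith
  have habs : 1 ≤ |((a:ℝ) - b * ((√5 - 1) / 2))| * |((a:ℝ) + b * ((√5 + 1) / 2))| := by
    rw [← abs_mul, hprod]
    exact_mod_cast Int.one_le_abs hne
  by_contra hcon
  push Not at hcon
  have h1 : |((a:ℝ) + b * ((√5 + 1) / 2))| ≤ |((a:ℝ) - b * ((√5 - 1) / 2))| + b * √5 := by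
    have e1 : ((a:ℝ) + b * ((√5 + 1) / 2)) = ((a:ℝ) - b * ((√5 - 1) / 2)) + b * √5 := by ring
    rw [e1]
    refine (abs_add_le _ _).trans ?_
    rw [abs_of_nonneg (by positivity : 0 ≤ (b:ℝ) * √5)]
  have h2 : |((a:ℝ) - b * ((√5 - 1) / 2))| < 1/3 := by
    refine hcon.trans_le ?_
    rw [div_le_div_iff₀ (by positivity) (by norm_num)]
    linarith
  have h3 : |((a:ℝ) + b * ((√5 + 1) / 2))| ≤ 2.6 * b := by nlinarith
  have h4 : |((a:ℝ) - b * ((√5 - 1) / 2))| * |((a:ℝ) + b * ((√5 + 1) / 2))| ≤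
      1 / (3 * (b:ℝ)) * (2.6 * b) := by
    apply mul_le_mul hcon.le h3 (abs_nonneg _) (by positivity)
  have h5 : 1 / (3 * (b:ℝ)) * (2.6 * b) = 2.6 / 3 := by
    field_simp
  rw [h5] at h4
  norm_num at h4
  linarith

/- TARGET -/
theorem golden (h : ℕ) (hh : 2 ≤ h) : ∃ c : ℝ, 0 < c ∧ c ≤ 1 ∧ ∀ (β γ : ℕ) (η : ℝ), 1 ≤ β →
    40 * β ≤ γ → 1 ≤ η →
    ∃ y₀ : ℝ, 0 ≤ y₀ ∧ y₀ + c / (β * γ * η ^ 2) ≤ 1 / (5 * h) ∧
      ∀ y : ℝ, y₀ ≤ y → y ≤ y₀ + c / (β * γ * η ^ 2) → Good h η β γ y := by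
  have hhR : (2:ℝ) ≤ h := by exact_mod_cast hh
  obtain ⟨T, hT⟩ : ∃ T : ℝ, T = 3 ^ (h - 1) := ⟨_, rfl⟩
  have hT1 : 1 ≤ T := by rw [hT]; exact one_le_pow₀ (by norm_num)
  obtain ⟨K, hK⟩ : ∃ K : ℝ, K = 1201 * h * T := ⟨_, rfl⟩
  have hK1 : 1 ≤ K := by rw [hK]; nlinarith
  have hc0 : 0 < 1 / (12 * h * K^2) := by positivity
  have hcle : 1 / (12 * h * K^2) ≤ 1 / (10 * h) := by
    apply one_div_le_one_div_of_le (by positivity)
    nlinarith [mul_le_mul hK1 hK1 zero_le_one (by linarith : 0 ≤ K)]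
  have hc1 : 1 / (12 * h * K^2) ≤ 1 := by
    refine hcle.trans ?_
    rw [div_le_one (by positivity)]
    linarith
  obtain ⟨c, hc⟩ : ∃ c : ℝ, c = 1 / (12 * h * K^2) := ⟨_, rfl⟩
  refine ⟨c, hc ▸ hc0, hc ▸ hc1, ?_⟩
  rw [← hc] at hc0 hcle hc1
  intro β γ η hβ hγ hη
  have hβR : (1:ℝ) ≤ β := by exact_mod_cast hβ
  have hγR : 40 * (β:ℝ) ≤ γ := by exact_mod_cast hγ
  have hγ1 : (1:ℝ) ≤ γ := by linarith
  obtain ⟨g, hg⟩ : ∃ g : ℝ, g = (√5 - 1) / 2 := ⟨_, rfl⟩
  have hs1 : √5 < 3 := by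
    rw [Real.sqrt_lt' (by norm_num)]; norm_num
  have hs2 : 1 < √5 := by
    rw [Real.lt_sqrt (by norm_num)]; norm_num
  have hg0 : 0 < g := by rw [hg]; linarith
  have hg1 : g < 1 := by rw [hg]; linarith
  obtain ⟨H, hH⟩ : ∃ H : ℝ, H = (h:ℝ) - 1 := ⟨_, rfl⟩
  have hH1 : 1 ≤ H := by rw [hH]; linarith
  have hHh : H ≤ h := by rw [hH]; linarith
  have hH2 : (h:ℝ) ≤ 2 * H := by rw [hH]; linarith
  obtain ⟨N, hN⟩ : ∃ N : ℤ, N = ⌈(γ:ℝ)/β - g⌉ := ⟨_, rfl⟩
  have hN1 : (γ:ℝ)/β - g ≤ N := by rw [hN]; exact Int.le_ceil _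
  have hN2 : (N:ℝ) < (γ:ℝ)/β - g + 1 := by rw [hN]; exact Int.ceil_lt_add_one _
  have hγβ : 40 ≤ (γ:ℝ)/β := by
    rw [le_div_iff₀ (by positivity)]; exact hγR
  have hNg : 40 ≤ (N:ℝ) + g := by linarith
  have hNg0 : 0 < (N:ℝ) + g := by linarith
  have hratio : 1 ≤ ((N:ℝ) + g) * (β / γ) := by
    have : (γ:ℝ)/β * (β/γ) = 1 := by field_simp
    rw [← this]
    apply mul_le_mul_of_nonneg_right (by linarith) (by positivity)
  have hratio2 : ((N:ℝ) + g) * (β / γ) ≤ Real.exp (H / (10 * h)) := by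
    have e1 : H / (10 * h) + 1 ≤ Real.exp (H / (10 * h)) := Real.add_one_le_exp _
    have e2 : (1:ℝ)/20 ≤ H / (10 * h) := by
      rw [div_le_div_iff₀ (by norm_num) (by positivity)]
      linarith
    have e3 : ((N:ℝ) + g) * (β / γ) ≤ ((γ:ℝ)/β + 1) * (β/γ) := by
      apply mul_le_mul_of_nonneg_right (by linarith) (by positivity)
    have e4 : ((γ:ℝ)/β + 1) * (β/γ) = 1 + β / γ := by field_simp
    have e5 : (β:ℝ)/γ ≤ 1/40 := by
      rw [div_le_div_iff₀ (by positivity) (by norm_num)]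
      linarith
    linarith
  obtain ⟨y0, hy0⟩ : ∃ y0 : ℝ, y0 = Real.log (((N:ℝ) + g) * (β / γ)) / H := ⟨_, rfl⟩
  have hy00 : 0 ≤ y0 := by
    rw [hy0]; exact div_nonneg (Real.log_nonneg hratio) (by linarith)
  have hy01 : y0 ≤ 1 / (10 * h) := by
    rw [hy0, div_le_iff₀ (by linarith)]
    have := Real.log_le_log (by linarith) hratio2
    rw [Real.log_exp] at this
    refine this.trans (le_of_eq ?_)
    ring
  have hexp : Real.exp (-H * y0) = 1 / (((N:ℝ) + g) * (β / γ)) := by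
    have : -H * y0 = - Real.log (((N:ℝ) + g) * (β / γ)) := by
      rw [hy0]; field_simp
    rw [this, Real.exp_neg, Real.exp_log (by linarith), one_div]
  obtain ⟨t0, ht0⟩ : ∃ t0 : ℝ, t0 = 1 / ((N:ℝ) + g) := ⟨_, rfl⟩
  have ht0e : (β:ℝ) / γ * Real.exp (-H * y0) = t0 := by
    rw [hexp, ht0]; field_simp
  have ht0pos : 0 < t0 := by rw [ht0]; positivity
  have hδ : c / (β * γ * η ^ 2) ≤ c := by
    apply div_le_self hc0.le
    have h1 : 1 ≤ (β:ℝ) * γ := one_le_mul_of_one_le_of_one_le hβR hγ1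
    have h2 : 1 ≤ η^2 := one_le_pow₀ hη
    exact one_le_mul_of_one_le_of_one_le h1 h2
  have hδ0 : 0 < c / (β * γ * η ^ 2) := by positivity
  have hsum : 1 / (10 * (h:ℝ)) + 1 / (10 * h) = 1 / (5 * h) := by field_simp; norm_num
  refine ⟨y0, hy00, by linarith, ?_⟩
  intro y hy1 hy2
  -- (3)
  have h3 : ∀ i : ℕ, 1 ≤ i → ∀ j : ℤ, 1 ≤ j → 1 / (6 * (i:ℝ)) ≤ |(i:ℝ) * t0 - j| := by
    intro i hi j hj
    have hiR : (1:ℝ) ≤ i := by exact_mod_cast hi
    have hjR : (1:ℝ) ≤ j := by exact_mod_cast hj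
    have e1 : (i:ℝ) * t0 - j = (((i:ℤ) - j * N : ℤ) - j * g) / (N + g) := by
      rw [ht0]; push_cast; field_simp; ring
    have e2 := gold_lower ((i:ℤ) - j * N) j hj
    rw [← hg] at e2
    have e3 : 1 / (3 * (j:ℝ)) / (N + g) ≤ |(i:ℝ) * t0 - j| := by
      rw [e1, abs_div, abs_of_pos hNg0]
      exact div_le_div_of_nonneg_right e2 hNg0.le
    rcases le_total |(i:ℝ) * t0 - j| (1/2) with hle | hle
    · refine le_trans ?_ e3
      rw [div_div]
      apply one_div_le_one_div_of_le (by positivity)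
      have e4 := (abs_le.1 hle).1
      have e5 : (j:ℝ) / 2 ≤ i * t0 := by linarith
      rw [ht0, mul_one_div, le_div_iff₀ hNg0] at e5
      linarith
    · refine le_trans ?_ hle
      rw [div_le_div_iff₀ (by positivity) (by norm_num)]
      linarith
  -- (4)
  obtain ⟨t, ht⟩ : ∃ t : ℝ, t = (β:ℝ) / γ * Real.exp (-((h:ℝ) - 1) * y) := ⟨_, rfl⟩
  have ht' : t = t0 * Real.exp (-H * (y - y0)) := by
    rw [ht, ← ht0e, ← hH, mul_assoc, ← Real.exp_add]
    congr 2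
    ring
  have htle : t ≤ t0 := by
    rw [ht']
    have : Real.exp (-H * (y - y0)) ≤ 1 := by
      rw [Real.exp_le_one_iff]
      have : 0 ≤ H * (y - y0) := mul_nonneg (by linarith) (by linarith)
      linarith
    exact mul_le_of_le_one_right ht0pos.le this
  have ht0β : t0 ≤ β / γ := by
    rw [← ht0e]
    have : Real.exp (-H * y0) ≤ 1 := by
      rw [Real.exp_le_one_iff]
      have : 0 ≤ H * y0 := mul_nonneg (by linarith) hy00
      linarith
    have h2 : 0 < (β:ℝ) / γ := by positivity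
    exact mul_le_of_le_one_right h2.le this
  have hdiff : t0 - t ≤ H * c / (γ^2 * η^2) := by
    have e1 : 1 - H * (y - y0) ≤ Real.exp (-H * (y - y0)) := by
      have := Real.add_one_le_exp (-H * (y - y0))
      linarith
    have e2 : t0 - t ≤ t0 * (H * (y - y0)) := by
      rw [ht']
      have := mul_le_mul_of_nonneg_left e1 ht0pos.le
      linarith
    refine e2.trans ?_
    have e3 : H * (y - y0) ≤ H * (c / (β * γ * η ^ 2)) := by
      apply mul_le_mul_of_nonneg_left (by linarith) (by linarith)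
    calc t0 * (H * (y - y0)) ≤ (β/γ) * (H * (c / (β * γ * η ^ 2))) := by
          apply mul_le_mul ht0β e3 (by apply mul_nonneg <;> linarith) (by positivity)
      _ = H * c / (γ^2 * η^2) := by
          field_simp
  have htlow : 0.8 / (γ:ℝ) ≤ t := by
    have e1 : -(1/5) ≤ -H * y := by
      have e2 : y ≤ 1 / (5 * h) := by linarith
      have e3 : H * y ≤ h * (1 / (5 * h)) := by
        apply mul_le_mul hHh e2 (by linarith) (by linarith)
      have e4 : (h:ℝ) * (1 / (5 * h)) = 1/5 := by field_simp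
      linarith
    have e5 : 0.8 ≤ Real.exp (-H * y) := by
      have := Real.add_one_le_exp (-H * y)
      have h08 : (0.8:ℝ) = 1 - 1/5 := by norm_num
      rw [h08]
      linarith
    rw [ht, ← hH]
    have e6 : 1 / (γ:ℝ) ≤ β / γ := div_le_div_of_nonneg_right hβR (by positivity)
    calc 0.8 / (γ:ℝ) = 1 / γ * 0.8 := by ring
      _ ≤ β / γ * Real.exp (-H * y) := by
          apply mul_le_mul e6 e5 (by norm_num) (by positivity)
  have hηγ : 0 < η * γ := by positivity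
  -- constants
  have hconst : 2 * tau1 h / Amin h η γ = 1 / (72000000 * T * h * (η * γ)) := by
    unfold tau1 Amin
    rw [hT]
    obtain ⟨m, rfl⟩ : ∃ m, h = m + 1 := ⟨h - 1, by omega⟩
    simp only [Nat.add_sub_cancel]
    have e12 : (12:ℝ)^(m+1) = 12 * (4^m * 3^m) := by
      rw [pow_succ, ← mul_pow]; norm_num; ring
    rw [e12]
    field_simp
    norm_num
  have hA : Amax h η γ = 6 * h * T * (η * γ) := by
    unfold Amax
    rw [hT]; ring
  intro i hi1 hi2 j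
  rw [← ht, hconst]
  have hiR : (1:ℝ) ≤ i := by exact_mod_cast hi1
  rw [hA] at hi2
  have hηγ1 : 1 ≤ η * γ := one_le_mul_of_one_le_of_one_le hη hγ1
  have hQ : (i:ℝ) ≤ K * (η * γ) := by
    rw [hK]
    have e1 : 1 ≤ h * T * (η * γ) :=
      one_le_mul_of_one_le_of_one_le (one_le_mul_of_one_le_of_one_le (by linarith) hT1) hηγ1
    linarith
  rcases le_or_gt 1 j with hj | hj
  · have e1 := h3 i hi1 j hj
    have e2 : |(i:ℝ) * t0 - j| ≤ |(i:ℝ) * t - j| + i * (t0 - t) := by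
      have e3 : (i:ℝ) * t0 - j = ((i:ℝ) * t - j) + i * (t0 - t) := by ring
      rw [e3]
      refine (abs_add_le _ _).trans ?_
      rw [abs_of_nonneg (a := (i:ℝ) * (t0 - t)) (by apply mul_nonneg <;> linarith)]
    have e4 : (i:ℝ) * (t0 - t) ≤ 1 / (12 * K * (η * γ)) := by
      calc (i:ℝ) * (t0 - t) ≤ (K * (η * γ)) * (H * c / (γ^2 * η^2)) := by
            apply mul_le_mul hQ hdiff (by linarith) (by positivity)
        _ ≤ (K * (η * γ)) * (h * c / (γ^2 * η^2)) := by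
            apply mul_le_mul_of_nonneg_left _ (by positivity)
            apply div_le_div_of_nonneg_right _ (by positivity)
            apply mul_le_mul_of_nonneg_right hHh hc0.le
        _ = 1 / (12 * K * (η * γ)) := by
            rw [hc]; field_simp
    have e5 : 1 / (6 * (K * (η * γ))) ≤ 1 / (6 * (i:ℝ)) := by
      apply one_div_le_one_div_of_le (by positivity)
      linarith
    have e6 : 1 / (6 * (K * (η * γ))) = 1 / (12 * K * (η * γ)) + 1 / (12 * K * (η * γ)) := by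
      field_simp; norm_num
    have e7 : 1 / (72000000 * T * h * (η * γ)) < 1 / (12 * K * (η * γ)) := by
      apply one_div_lt_one_div_of_lt (by positivity)
      rw [hK]
      have e8 : 0 < h * T * (η * γ) := by positivity
      linarith
    linarith
  · have hj0 : (j:ℝ) ≤ 0 := by exact_mod_cast (by omega : j ≤ 0)
    have htp : 0 < t := lt_of_lt_of_le (by positivity) htlow
    have e1 : t ≤ |(i:ℝ) * t - j| := by
      refine le_trans ?_ (le_abs_self _)
      have : t ≤ i * t := le_mul_of_one_le_left htp.le hiR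
      linarith
    refine lt_of_lt_of_le ?_ (htlow.trans e1)
    have e2 : 1 / (72000000 * T * h * (η * γ)) ≤ 1 / (72000000 * γ) := by
      apply one_div_le_one_div_of_le (by positivity)
      have e3 : 1 ≤ T * h := one_le_mul_of_one_le_of_one_le hT1 (by linarith)
      have e4 : (γ:ℝ) ≤ η * γ := le_mul_of_one_le_left (by linarith) hη
      have e5 : η * γ ≤ (T * h) * (η * γ) := le_mul_of_one_le_left (by linarith) e3
      linarith
    refine lt_of_le_of_lt e2 ?_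
    rw [div_lt_div_iff₀ (by positivity) (by positivity)]
    linarith

end Pool.Agent.Helper112.CB.Kgo

namespace Pool.Agent.Helper112.CB

theorem golden (h : ℕ) (hh : 2 ≤ h) : ∃ c : ℝ, 0 < c ∧ c ≤ 1 ∧ ∀ (β γ : ℕ) (η : ℝ), 1 ≤ β →
    40 * β ≤ γ → 1 ≤ η →
    ∃ y₀ : ℝ, 0 ≤ y₀ ∧ y₀ + c / (β * γ * η ^ 2) ≤ 1 / (5 * h) ∧
      ∀ y : ℝ, y₀ ≤ y → y ≤ y₀ + c / (β * γ * η ^ 2) → Good h η β γ y := by
  first
    | exact Kgo.golden
    | (apply Kgo.golden <;> assumption)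

end Pool.Agent.Helper112.CB
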