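import Pool.Agent.Helper112.Cb.Defs

open Finset

namespace Pool.Agent.Helper112.CB.Kce

/- TARGET -/
set_option maxHeartbeats 1000000 in
theorem center (h : ℕ) (hh : 2 ≤ h) (Ω M R : ℝ) (d : ℤ) (hΩ : 100 * h ≤ Ω) (hM : 0 < M)
    (hd0 : 0 ≤ (d : ℝ) / Ω) (hd1 : (d : ℝ) / Ω ≤ 1 / (5 * h)) (hR : M ^ h / 2 ≤ R)
    (hR' : R ≤ 2 ^ h * M ^ h) :
    ∃ (v : ℕ) (m n : ℝ), v < 2 ∧ 2 / 5 * M ≤ m ∧ m ≤ 5 / 2 * M ∧ 2 / 5 * M ≤ n ∧ n ≤ 5 / 2 * M ∧
      m ^ h + n ^ h = R ∧
      1 / 10 ≤ Int.fract (Ω * Real.log (m / M)) ∧ Int.fract (Ω * Real.log (m / M)) ≤ 9 / 10 ∧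
      1 / 10 ≤ Int.fract (Ω * Real.log (n / M)) ∧ Int.fract (Ω * Real.log (n / M)) ≤ 9 / 10 ∧
      ⌊Ω * Real.log (n / M)⌋ - ⌊Ω * Real.log (m / M)⌋ = d - v ∧
      |Real.log n - Real.log m - d / Ω| ≤ 2 / Ω := by
  have hh0 : h ≠ 0 := by omega
  have hH : (2 : ℝ) ≤ (h : ℝ) := by exact_mod_cast hh
  have hHpos : (0 : ℝ) < (h : ℝ) := by linarith
  have hΩ200 : 200 ≤ Ω := by linarith
  have hΩpos : 0 < Ω := by linarith
  have hMh : 0 < M ^ h := pow_pos hM h
  have hRpos : 0 < R := by linarith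
  set y : ℝ := (d : ℝ) / Ω with hy
  have hΩy : Ω * y = d := by rw [hy]; field_simp
  have hhy0 : 0 ≤ (h : ℝ) * y := by positivity
  have hhy1 : (h : ℝ) * y ≤ 1 / 5 := by
    calc (h : ℝ) * y ≤ h * (1 / (5 * h)) := mul_le_mul_of_nonneg_left hd1 hHpos.le
      _ = 1 / 5 := by field_simp
  set E : ℝ := Real.exp ((h : ℝ) * y) with hE
  have hE1 : 1 ≤ E := Real.one_le_exp hhy0
  have hE2 : E ≤ 1.2215 := by
    have h1 : Real.exp (1 / 5) ≤ 1.2215 := by
      by_contra hcon
      push Not at hcon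
      have h2 : (1.2215 : ℝ) ^ 5 < Real.exp (1 / 5) ^ 5 :=
        pow_lt_pow_left₀ hcon (by norm_num) (by norm_num)
      rw [← Real.exp_nat_mul] at h2
      have h3 : ((5 : ℕ) : ℝ) * (1 / 5) = 1 := by norm_num
      rw [h3] at h2
      have h4 := Real.exp_one_lt_d9
      norm_num at h2
      linarith
    exact (Real.exp_le_exp.mpr hhy1).trans h1
  set Ei : ℝ := Real.exp (-((h : ℝ) * y)) with hEi
  have hEEi : E * Ei = 1 := by rw [hE, hEi, ← Real.exp_add, add_neg_cancel, Real.exp_zero]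
  have hEi1 : Ei ≤ 1 := by rw [hEi]; exact Real.exp_le_one_iff.mpr (by linarith)
  have hEi2 : 4 / 5 ≤ Ei := by
    have h1 := Real.add_one_le_exp (-((h : ℝ) * y))
    rw [hEi]; linarith
  -- the symmetric solution
  set ms : ℝ := (R / (1 + E)) ^ ((h : ℝ)⁻¹) with hms
  have hq : 0 < R / (1 + E) := div_pos hRpos (by linarith)
  have hmspow : ms ^ h = R / (1 + E) := Real.rpow_inv_natCast_pow hq.le hh0
  have hmspos : 0 < ms := Real.rpow_pos_of_pos hq _
  set ns : ℝ := ms * Real.exp y with hns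
  have hnspos : 0 < ns := mul_pos hmspos (Real.exp_pos _)
  have hnspow : ns ^ h = ms ^ h * E := by
    rw [hns, mul_pow, ← Real.exp_nat_mul]
  have hsum : ms ^ h + ns ^ h = R := by
    rw [hnspow, hmspow]; field_simp
  have hy0 : 0 ≤ y := hd0
  have hmn : ms ≤ ns := by
    have := Real.one_le_exp hy0
    rw [hns]; exact le_mul_of_one_le_right hmspos.le this
  have hns2 : ns ≤ 2 * M := by
    have e2 : (2 * M) ^ h = 2 ^ h * M ^ h := mul_pow _ _ _
    rw [← pow_le_pow_iff_left₀ hnspos.le (by positivity) hh0, e2]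
    have : 0 < ms ^ h := pow_pos hmspos h
    linarith
  have hms2 : 47 / 100 * M ≤ ms := by
    rw [← pow_le_pow_iff_left₀ (by positivity) hmspos.le hh0, mul_pow, hmspow,
      le_div_iff₀ (by linarith)]
    have h1 : (47 / 100 : ℝ) ^ h ≤ (47 / 100) ^ 2 :=
      pow_le_pow_of_le_one (by norm_num) (by norm_num) hh
    have h2 : 0 < (47 / 100 : ℝ) ^ h := by positivity
    have h3 : (47 / 100 : ℝ) ^ h * (1 + E) ≤ 1 / 2 := by
      have : (47 / 100 : ℝ) ^ h * (1 + E) ≤ (47 / 100) ^ 2 * (1 + 1.2215) :=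
        mul_le_mul h1 (by linarith) (by linarith) (by norm_num)
      norm_num at this ⊢
      linarith
    calc (47 / 100 : ℝ) ^ h * M ^ h * (1 + E) = ((47 / 100 : ℝ) ^ h * (1 + E)) * M ^ h := by ring
      _ ≤ 1 / 2 * M ^ h := mul_le_mul_of_nonneg_right h3 hMh.le
      _ ≤ R := by linarith
  set u : ℝ := Ω * Real.log (ms / M) with hu
  have hlogns : Real.log ns = Real.log ms + y := by
    rw [hns, Real.log_mul hmspos.ne' (Real.exp_pos _).ne', Real.log_exp]
  have hlm : ∀ z : ℝ, 0 < z → Real.log (z / M) = Real.log z - Real.log M := fun z hz =>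
    Real.log_div hz.ne' hM.ne'
  have hun : Ω * Real.log (ns / M) = u + d := by
    rw [hu, hlm _ hnspos, hlm _ hmspos, hlogns, ← hΩy]; ring
  by_cases hcase : 1 / 10 ≤ Int.fract u ∧ Int.fract u ≤ 9 / 10
  · refine ⟨0, ms, ns, by norm_num, by linarith, by linarith, by linarith, by linarith, hsum,
      hcase.1, hcase.2, ?_, ?_, ?_, ?_⟩
    · rw [hun, Int.fract_add_intCast]; exact hcase.1
    · rw [hun, Int.fract_add_intCast]; exact hcase.2
    · rw [hun, Int.floor_add_intCast, ← hu]; push_cast; ring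
    · rw [hlogns]
      have : Real.log ms + y - Real.log ms - y = 0 := by ring
      rw [this, abs_zero]; positivity
  · -- second case
    set x : ℝ := (h : ℝ) / (2 * Ω) with hx
    have hx0 : 0 < x := by positivity
    have hx1 : x ≤ 1 / 200 := by
      rw [hx, div_le_iff₀ (by positivity)]; linarith
    have hex1 : x ≤ Real.exp x - 1 := by have := Real.add_one_le_exp x; linarith
    have hex2 : Real.exp x - 1 ≤ x * (1 + x) := by
      have h1 := Real.abs_exp_sub_one_sub_id_le (x := x) (by rw [abs_of_pos hx0]; linarith)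
      have h2 := (abs_le.mp h1).2
      have h3 : x * (1 + x) = x + x ^ 2 := by ring
      linarith
    set g : ℝ := Ei * (Real.exp x - 1) with hg
    have hg0 : 4 / 5 * x ≤ g := by
      rw [hg]; exact mul_le_mul hEi2 hex1 hx0.le (by linarith)
    have hg1 : g ≤ x * (1 + x) := by
      calc g ≤ 1 * (Real.exp x - 1) := mul_le_mul_of_nonneg_right hEi1 (by linarith)
        _ ≤ x * (1 + x) := by linarith
    have hgpos : 0 < g := by linarith [mul_pos (show (0:ℝ) < 4 / 5 by norm_num) hx0]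
    have hg2 : g ≤ 201 / 40000 := by
      calc g ≤ x * (1 + x) := hg1
        _ ≤ (1 / 200) * (1 + 1 / 200) :=
            mul_le_mul hx1 (by linarith) (by linarith) (by norm_num)
        _ = 201 / 40000 := by norm_num
    have h1g : 0 < 1 - g := by linarith
    set l : ℝ := Real.log (1 - g) with hl
    have hl1 : l ≤ -g := by
      have := Real.log_le_sub_one_of_pos h1g
      linarith
    have hl2 : -(g / (1 - g)) ≤ l := by
      have h1 := Real.one_sub_inv_le_log_of_pos h1g
      have h2 : 1 - (1 - g)⁻¹ = -(g / (1 - g)) := by field_simp; ring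
      linarith
    set e : ℝ := -(Ω / h * l) with he
    have hK : Ω / h = 1 / (2 * x) := by rw [hx]; field_simp
    have he1 : 2 / 5 ≤ e := by
      rw [he, hK]
      have : 1 / (2 * x) * l ≤ 1 / (2 * x) * (-(4 / 5 * x)) :=
        mul_le_mul_of_nonneg_left (by linarith) (by positivity)
      have h2 : 1 / (2 * x) * (-(4 / 5 * x)) = -(2 / 5) := by field_simp; norm_num
      linarith
    have he2 : e ≤ 506 / 1000 := by
      rw [he, hK]
      have h1 : 1 / (2 * x) * (-(g / (1 - g))) ≤ 1 / (2 * x) * l :=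
        mul_le_mul_of_nonneg_left hl2 (by positivity)
      have h2 : g / (1 - g) ≤ 1012 / 1000 * x := by
        rw [div_le_iff₀ h1g]
        calc g ≤ x * (1 + x) := hg1
          _ ≤ x * (201 / 200) := mul_le_mul_of_nonneg_left (by linarith) hx0.le
          _ ≤ 1012 / 1000 * x * (39799 / 40000) := by linarith
          _ ≤ 1012 / 1000 * x * (1 - g) := mul_le_mul_of_nonneg_left (by linarith) (by positivity)
      have h3 : 1 / (2 * x) * (-(1012 / 1000 * x)) ≤ 1 / (2 * x) * (-(g / (1 - g))) :=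
        mul_le_mul_of_nonneg_left (by linarith) (by positivity)
      have h4 : 1 / (2 * x) * (-(1012 / 1000 * x)) = -(506 / 1000) := by field_simp; norm_num
      linarith
    set m : ℝ := ms * Real.exp (1 / (2 * Ω)) with hm
    set n : ℝ := ns * (1 - g) ^ ((h : ℝ)⁻¹) with hn
    have hmpos : 0 < m := mul_pos hmspos (Real.exp_pos _)
    have hnpos : 0 < n := mul_pos hnspos (Real.rpow_pos_of_pos h1g _)
    have hmpow : m ^ h = ms ^ h * Real.exp x := by
      rw [hm, mul_pow, ← Real.exp_nat_mul]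
      congr 2
      rw [hx]; field_simp
    have hnpow : n ^ h = ns ^ h * (1 - g) := by
      rw [hn, mul_pow, Real.rpow_inv_natCast_pow h1g.le hh0]
    have hsum2 : m ^ h + n ^ h = R := by
      rw [hmpow, hnpow, ← hsum, hnspow]
      have : E * g = Real.exp x - 1 := by rw [hg, ← mul_assoc, hEEi, one_mul]
      linear_combination (-(ms ^ h)) * this
    have hlogm : Real.log m = Real.log ms + 1 / (2 * Ω) := by
      rw [hm, Real.log_mul hmspos.ne' (Real.exp_pos _).ne', Real.log_exp]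
    have hlogn : Real.log n = Real.log ms + y + (h : ℝ)⁻¹ * l := by
      rw [hn, Real.log_mul hnspos.ne' (Real.rpow_pos_of_pos h1g _).ne', hlogns,
        Real.log_rpow h1g]
    have hum : Ω * Real.log (m / M) = u + 1 / 2 := by
      rw [hu, hlm _ hmpos, hlm _ hmspos, hlogm]
      field_simp
      ring
    have hun2 : Ω * Real.log (n / M) = u + d - e := by
      rw [hu, hlm _ hnpos, hlm _ hmspos, hlogn, he, ← hΩy]
      field_simp
      ring
    have hm1 : ms ≤ m := by
      have := Real.one_le_exp (show 0 ≤ 1 / (2 * Ω) by positivity)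
      rw [hm]; exact le_mul_of_one_le_right hmspos.le this
    have hm2 : m ≤ 5 / 2 * M := by
      have h1 : 1 / (2 * Ω) ≤ 1 / 400 := by
        apply one_div_le_one_div_of_le (by norm_num); linarith
      have h0 : (0 : ℝ) < 1 / (2 * Ω) := by positivity
      have h2 := Real.abs_exp_sub_one_sub_id_le (x := 1 / (2 * Ω)) (by
        rw [abs_of_pos h0]; linarith)
      have h3 := (abs_le.mp h2).2
      have h5 : (1 / (2 * Ω)) ^ 2 ≤ (1 / 400) ^ 2 := pow_le_pow_left₀ h0.le h1 2
      have h4 : Real.exp (1 / (2 * Ω)) ≤ 5 / 4 := by linarith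
      calc m ≤ (2 * M) * (5 / 4) := by
            rw [hm]; exact mul_le_mul (hmn.trans hns2) h4 (Real.exp_pos _).le (by positivity)
        _ = 5 / 2 * M := by ring
    have hn1 : n ≤ ns := by
      have : (1 - g) ^ ((h : ℝ)⁻¹) ≤ 1 :=
        Real.rpow_le_one h1g.le (by linarith) (by positivity)
      rw [hn]; exact mul_le_of_le_one_right hnspos.le this
    have hn2 : 2 / 5 * M ≤ n := by
      have h1 : 1 - g ≤ (1 - g) ^ ((h : ℝ)⁻¹) := by
        have h2 := Real.rpow_le_rpow_of_exponent_ge h1g (by linarith : 1 - g ≤ 1)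
          (show (h : ℝ)⁻¹ ≤ 1 by
            rw [inv_le_one₀ hHpos]; linarith)
        rwa [Real.rpow_one] at h2
      calc 2 / 5 * M ≤ (47 / 100 * M) * (1 - 201 / 40000) := by
            linarith
        _ ≤ ns * (1 - g) := by
            apply mul_le_mul (hms2.trans hmn) (by linarith) (by norm_num) hnspos.le
        _ ≤ n := by rw [hn]; exact mul_le_mul_of_nonneg_left h1 hnspos.le
    have habs : |Real.log n - Real.log m - y| ≤ 2 / Ω := by
      have h1 : Real.log n - Real.log m - y = -((e + 1 / 2) / Ω) := by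
        rw [hlogn, hlogm, he]; field_simp; ring
      rw [h1, abs_neg, abs_of_nonneg (div_nonneg (by linarith) hΩpos.le)]
      apply div_le_div_of_nonneg_right (by linarith) hΩpos.le
    have hfr := Int.floor_add_fract u
    have hf0 := Int.fract_nonneg u
    have hf1 := Int.fract_lt_one u
    set f := Int.fract u with hf
    set k := ⌊u⌋ with hk
    have hcase2 : f < 1 / 10 ∨ 9 / 10 < f := by
      by_contra hcon
      push Not at hcon
      exact hcase hcon
    have fl : ∀ (w : ℝ) (a : ℤ) (b : ℝ), w = a + b → 0 ≤ b → b < 1 →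
        ⌊w⌋ = a ∧ Int.fract w = b := by
      intro w a b hw hb0 hb1
      have h1 : ⌊w⌋ = a := by
        rw [Int.floor_eq_iff]
        constructor <;> linarith
      refine ⟨h1, ?_⟩
      rw [Int.fract, h1]; linarith
    rcases hcase2 with hlt | hgt
    · obtain ⟨a1, a2⟩ := fl (u + 1 / 2) k (f + 1 / 2) (by linarith) (by linarith) (by linarith)
      obtain ⟨b1, b2⟩ := fl (u + d - e) (k + d - 1) (1 + f - e) (by push_cast; linarith)
        (by linarith) (by linarith)
      refine ⟨1, m, n, by norm_num, by linarith, hm2, hn2, by linarith, hsum2, ?_, ?_, ?_, ?_,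
        ?_, habs⟩
      · rw [hum, a2]; linarith
      · rw [hum, a2]; linarith
      · rw [hun2, b2]; linarith
      · rw [hun2, b2]; linarith
      · rw [hum, hun2, a1, b1]; push_cast; ring
    · obtain ⟨a1, a2⟩ := fl (u + 1 / 2) (k + 1) (f - 1 / 2) (by push_cast; linarith)
        (by linarith) (by linarith)
      obtain ⟨b1, b2⟩ := fl (u + d - e) (k + d) (f - e) (by push_cast; linarith)
        (by linarith) (by linarith)
      refine ⟨1, m, n, by norm_num, by linarith, hm2, hn2, by linarith, hsum2, ?_, ?_, ?_, ?_,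
        ?_, habs⟩
      · rw [hum, a2]; linarith
      · rw [hum, a2]; linarith
      · rw [hun2, b2]; linarith
      · rw [hun2, b2]; linarith
      · rw [hum, hun2, a1, b1]; push_cast; ring

end Pool.Agent.Helper112.CB.Kce

namespace Pool.Agent.Helper112.CB

theorem center (h : ℕ) (hh : 2 ≤ h) (Ω M R : ℝ) (d : ℤ) (hΩ : 100 * h ≤ Ω) (hM : 0 < M)
    (hd0 : 0 ≤ (d : ℝ) / Ω) (hd1 : (d : ℝ) / Ω ≤ 1 / (5 * h)) (hR : M ^ h / 2 ≤ R)
    (hR' : R ≤ 2 ^ h * M ^ h) :
    ∃ (v : ℕ) (m n : ℝ), v < 2 ∧ 2 / 5 * M ≤ m ∧ m ≤ 5 / 2 * M ∧ 2 / 5 * M ≤ n ∧ n ≤ 5 / 2 * M ∧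
      m ^ h + n ^ h = R ∧
      1 / 10 ≤ Int.fract (Ω * Real.log (m / M)) ∧ Int.fract (Ω * Real.log (m / M)) ≤ 9 / 10 ∧
      1 / 10 ≤ Int.fract (Ω * Real.log (n / M)) ∧ Int.fract (Ω * Real.log (n / M)) ≤ 9 / 10 ∧
      ⌊Ω * Real.log (n / M)⌋ - ⌊Ω * Real.log (m / M)⌋ = d - v ∧
      |Real.log n - Real.log m - d / Ω| ≤ 2 / Ω := by
  first
    | exact Kce.center
    | (apply Kce.center <;> assumption)

end Pool.Agent.Helper112.CB
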