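import Pool.Agent.Helper112.Cb.Defs

open Finset

namespace Pool.Agent.Helper112.CB.Kfl

/- TARGET -/
theorem floor_local (Ω M mc m : ℝ) (hΩ : 1 ≤ Ω) (hM : 0 < M) (hmc : 0 < mc)
    (hm : |m - mc| ≤ 9 / 100 * mc / Ω) (h1 : 1 / 10 ≤ Int.fract (Ω * Real.log (mc / M)))
    (h2 : Int.fract (Ω * Real.log (mc / M)) ≤ 9 / 10) :
    0 < m ∧ ⌊Ω * Real.log (m / M)⌋ = ⌊Ω * Real.log (mc / M)⌋ := by
  have hΩ0 : 0 < Ω := by linarith
  have hle : 9 / 100 * mc / Ω ≤ 9 / 100 * mc := div_le_self (by positivity) hΩ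
  obtain ⟨ha, hb⟩ := abs_le.1 hm
  have hm91 : 91 / 100 * mc ≤ m := by linarith
  have hm0 : 0 < m := by nlinarith
  refine ⟨hm0, ?_⟩
  have e1 : Real.log (m / M) = Real.log m - Real.log M := Real.log_div hm0.ne' hM.ne'
  have e2 : Real.log (mc / M) = Real.log mc - Real.log M := Real.log_div hmc.ne' hM.ne'
  have h3 : Ω * (Real.log m - Real.log mc) < 1 / 10 := by
    have h4 : Real.log (m / mc) ≤ m / mc - 1 := Real.log_le_sub_one_of_pos (by positivity)
    rw [Real.log_div hm0.ne' hmc.ne'] at h4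
    have h5 : Ω * (m / mc - 1) ≤ 9 / 100 := by
      have h6 : m / mc - 1 = (m - mc) / mc := by field_simp
      rw [h6]
      have h7 : (m - mc) / mc ≤ (9 / 100 * mc / Ω) / mc := div_le_div_of_nonneg_right hb hmc.le
      calc Ω * ((m - mc) / mc) ≤ Ω * ((9 / 100 * mc / Ω) / mc) := by gcongr
        _ = 9 / 100 := by field_simp
    calc Ω * (Real.log m - Real.log mc) ≤ Ω * (m / mc - 1) := by gcongr
      _ ≤ 9 / 100 := h5
      _ < 1 / 10 := by norm_num
  have h3' : Ω * (Real.log mc - Real.log m) < 1 / 10 := by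
    have h4 : Real.log (mc / m) ≤ mc / m - 1 := Real.log_le_sub_one_of_pos (by positivity)
    rw [Real.log_div hmc.ne' hm0.ne'] at h4
    have h5 : Ω * (mc / m - 1) ≤ 9 / 91 := by
      have h6 : mc / m - 1 = (mc - m) / m := by field_simp
      rw [h6]
      have h7 : (mc - m) / m ≤ (9 / 100 * mc / Ω) / m := by
        apply div_le_div_of_nonneg_right _ hm0.le
        linarith
      calc Ω * ((mc - m) / m) ≤ Ω * ((9 / 100 * mc / Ω) / m) := by gcongr
        _ = 9 / 100 * mc / m := by field_simp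
        _ ≤ 9 / 91 := by
          rw [div_le_iff₀ hm0]
          linarith
    calc Ω * (Real.log mc - Real.log m) ≤ Ω * (mc / m - 1) := by gcongr
      _ ≤ 9 / 91 := h5
      _ < 1 / 10 := by norm_num
  have h8 : Ω * Real.log (m / M) - Ω * Real.log (mc / M) = Ω * (Real.log m - Real.log mc) := by
    rw [e1, e2]
    ring
  have h9 : Ω * Real.log (m / M) - Ω * Real.log (mc / M) = -(Ω * (Real.log mc - Real.log m)) := by
    rw [e1, e2]
    ring
  rw [Int.floor_eq_iff]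
  have h10 := Int.floor_add_fract (Ω * Real.log (mc / M))
  constructor <;> linarith

theorem pow_lin_aux (W x y z : ℝ) (hx : 0 ≤ x) (hxW : x ≤ W) (hy : 0 ≤ y)
    (hyW : y ≤ W) (hz : 0 ≤ z) (hzW : z ≤ W) (n : ℕ) : ∀ k m : ℕ, k + m = n + 1 →
    |x ^ k * y ^ m - z ^ (n + 1)| ≤ (n + 1) * W ^ n * (|x - z| + |y - z|) := by
  have hW : 0 ≤ W := hx.trans hxW
  induction n with
  | zero =>
    intro k m hkm
    have hx' := abs_nonneg (x - z)
    have hy' := abs_nonneg (y - z)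
    rcases Nat.eq_zero_or_pos k with hk | hk
    · have hm : m = 1 := by omega
      subst hk hm
      simp
    · have hk1 : k = 1 := by omega
      have hm : m = 0 := by omega
      subst hk1 hm
      simp
  | succ n ih =>
    intro k m hkm
    have hzn : z ^ (n + 1) ≤ W ^ (n + 1) := pow_le_pow_left₀ hz hzW _
    have hzn0 : 0 ≤ z ^ (n + 1) := pow_nonneg hz _
    rcases Nat.eq_zero_or_pos k with hk | hk
    · obtain ⟨m', rfl⟩ : ∃ m', m = m' + 1 := ⟨m - 1, by omega⟩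
      have h1 := ih k m' (by omega)
      have h2 : x ^ k * y ^ (m' + 1) - z ^ (n + 1 + 1) =
          y * (x ^ k * y ^ m' - z ^ (n + 1)) + (y - z) * z ^ (n + 1) := by ring
      rw [h2]
      refine (abs_add_le _ _).trans ?_
      rw [abs_mul, abs_mul, abs_of_nonneg hy, abs_of_nonneg hzn0]
      have h3 : y * |x ^ k * y ^ m' - z ^ (n + 1)| ≤
          W * ((n + 1) * W ^ n * (|x - z| + |y - z|)) := by
        apply mul_le_mul hyW h1 (abs_nonneg _) hW
      have h4 : |y - z| * z ^ (n + 1) ≤ (|x - z| + |y - z|) * W ^ (n + 1) := by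
        apply mul_le_mul _ hzn hzn0 (by positivity)
        linarith [abs_nonneg (x - z)]
      push_cast
      calc _ ≤ W * ((n + 1) * W ^ n * (|x - z| + |y - z|)) +
            (|x - z| + |y - z|) * W ^ (n + 1) := add_le_add h3 h4
        _ = _ := by ring
    · obtain ⟨k', rfl⟩ : ∃ k', k = k' + 1 := ⟨k - 1, by omega⟩
      have h1 := ih k' m (by omega)
      have h2 : x ^ (k' + 1) * y ^ m - z ^ (n + 1 + 1) =
          x * (x ^ k' * y ^ m - z ^ (n + 1)) + (x - z) * z ^ (n + 1) := by ring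
      rw [h2]
      refine (abs_add_le _ _).trans ?_
      rw [abs_mul, abs_mul, abs_of_nonneg hx, abs_of_nonneg hzn0]
      have h3 : x * |x ^ k' * y ^ m - z ^ (n + 1)| ≤
          W * ((n + 1) * W ^ n * (|x - z| + |y - z|)) := by
        apply mul_le_mul hxW h1 (abs_nonneg _) hW
      have h4 : |x - z| * z ^ (n + 1) ≤ (|x - z| + |y - z|) * W ^ (n + 1) := by
        apply mul_le_mul _ hzn hzn0 (by positivity)
        linarith [abs_nonneg (y - z)]
      push_cast
      calc _ ≤ W * ((n + 1) * W ^ n * (|x - z| + |y - z|)) +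
            (|x - z| + |y - z|) * W ^ (n + 1) := add_le_add h3 h4
        _ = _ := by ring

/- TARGET -/
theorem pow_lin (h : ℕ) (hh : 2 ≤ h) (W x y z : ℝ) (hx : 0 ≤ x) (hxW : x ≤ W) (hy : 0 ≤ y)
    (hyW : y ≤ W) (hz : 0 ≤ z) (hzW : z ≤ W) :
    |x ^ h - y ^ h - h * z ^ (h - 1) * (x - y)| ≤
      h ^ 2 * W ^ (h - 2) * |x - y| * (|x - z| + |y - z|) := by
  obtain ⟨n, rfl⟩ : ∃ n, h = n + 2 := ⟨h - 2, by omega⟩
  have hW : 0 ≤ W := hx.trans hxW
  have e1 : n + 2 - 1 = n + 1 := by omega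
  have e2 : n + 2 - 2 = n := by omega
  rw [e1, e2]
  have h1 : x ^ (n + 2) - y ^ (n + 2) - ((n + 2 : ℕ) : ℝ) * z ^ (n + 1) * (x - y) =
      (∑ i ∈ range (n + 2), (x ^ i * y ^ (n + 2 - 1 - i) - z ^ (n + 1))) * (x - y) := by
    rw [← geom_sum₂_mul x y (n + 2), Finset.sum_sub_distrib, Finset.sum_const, card_range,
      nsmul_eq_mul]
    ring
  rw [h1, abs_mul]
  have h2 : |∑ i ∈ range (n + 2), (x ^ i * y ^ (n + 2 - 1 - i) - z ^ (n + 1))| ≤
      (n + 2) * ((n + 1) * W ^ n * (|x - z| + |y - z|)) := by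
    refine (Finset.abs_sum_le_sum_abs _ _).trans ?_
    have h3 : ∀ i ∈ range (n + 2), |x ^ i * y ^ (n + 2 - 1 - i) - z ^ (n + 1)| ≤
        (n + 1) * W ^ n * (|x - z| + |y - z|) := by
      intro i hi
      rw [mem_range] at hi
      exact pow_lin_aux W x y z hx hxW hy hyW hz hzW n i (n + 2 - 1 - i) (by omega)
    refine (Finset.sum_le_card_nsmul _ _ _ h3).trans (le_of_eq ?_)
    rw [card_range, nsmul_eq_mul]
    push_cast
    ring
  have h4 : 0 ≤ W ^ n * (|x - z| + |y - z|) * |x - y| := by positivity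
  have h5 : 0 ≤ (n : ℝ) := Nat.cast_nonneg n
  calc _ ≤ ((n + 2) * ((n + 1) * W ^ n * (|x - z| + |y - z|))) * |x - y| := by
        exact mul_le_mul_of_nonneg_right h2 (abs_nonneg _)
    _ = ((n + 2) * (n + 1)) * (W ^ n * (|x - z| + |y - z|) * |x - y|) := by ring
    _ ≤ ((n + 2) * (n + 2)) * (W ^ n * (|x - z| + |y - z|) * |x - y|) := by
        apply mul_le_mul_of_nonneg_right _ h4
        nlinarith
    _ = _ := by
        push_cast
        ring

end Pool.Agent.Helper112.CB.Kfl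

namespace Pool.Agent.Helper112.CB

theorem floor_local (Ω M mc m : ℝ) (hΩ : 1 ≤ Ω) (hM : 0 < M) (hmc : 0 < mc)
    (hm : |m - mc| ≤ 9 / 100 * mc / Ω) (h1 : 1 / 10 ≤ Int.fract (Ω * Real.log (mc / M)))
    (h2 : Int.fract (Ω * Real.log (mc / M)) ≤ 9 / 10) :
    0 < m ∧ ⌊Ω * Real.log (m / M)⌋ = ⌊Ω * Real.log (mc / M)⌋ := by
  first
    | exact Kfl.floor_local
    | (apply Kfl.floor_local <;> assumption)

theorem pow_lin (h : ℕ) (hh : 2 ≤ h) (W x y z : ℝ) (hx : 0 ≤ x) (hxW : x ≤ W) (hy : 0 ≤ y)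
    (hyW : y ≤ W) (hz : 0 ≤ z) (hzW : z ≤ W) :
    |x ^ h - y ^ h - h * z ^ (h - 1) * (x - y)| ≤
      h ^ 2 * W ^ (h - 2) * |x - y| * (|x - z| + |y - z|) := by
  first
    | exact Kfl.pow_lin
    | (apply Kfl.pow_lin <;> assumption)

end Pool.Agent.Helper112.CB
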