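import Pool.Agent.Helper112.Cb.Defs

open Finset

namespace Pool.Agent.Helper112.CB.Kdn

theorem dirichlet_density (a a' τ₁ : ℝ) (Q : ℕ) (ha : 0 < a) (ha' : 0 < a') (hτ : 0 < τ₁)
    (hτ' : τ₁ ≤ 1 / 400) (hQ : 200 * a' ≤ Q)
    (hG : ∀ i : ℕ, 1 ≤ i → i ≤ Q → ∀ j : ℤ, τ₁ < |a * i - a' * j|) (σ : ℝ) :
    ∃ (i : ℕ) (j : ℤ), (i : ℝ) ≤ a' / τ₁ + 1 ∧ |a * i - a' * j - σ| ≤ 1 / 200 := by
  have hdiv : 0 < a' / τ₁ := div_pos ha' hτ
  have hnpos : 0 < ⌈a' / τ₁⌉₊ := Nat.ceil_pos.mpr hdiv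
  obtain ⟨r, hr1, hr2⟩ := Real.exists_rat_abs_sub_le_and_den_le (a / a') hnpos
  set n : ℕ := ⌈a' / τ₁⌉₊ with hn
  have hnlb : a' / τ₁ ≤ (n : ℝ) := Nat.le_ceil _
  have hnub : (n : ℝ) < a' / τ₁ + 1 := Nat.ceil_lt_add_one hdiv.le
  have hd0 : 0 < r.den := r.pos
  have hdR : (0 : ℝ) < (r.den : ℝ) := by exact_mod_cast hd0
  have hn1 : (0 : ℝ) < (n : ℝ) + 1 := by positivity
  have hτn : a' / ((n : ℝ) + 1) ≤ τ₁ := by
    rw [div_le_iff₀ hn1]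
    have h1 : a' ≤ n * τ₁ := by
      rwa [div_le_iff₀ hτ] at hnlb
    nlinarith
  have hrnum : (r : ℝ) = (r.num : ℝ) / (r.den : ℝ) := by
    exact_mod_cast (Rat.num_div_den r).symm
  -- a - a' * r
  have hkey : |a - a' * (r : ℝ)| ≤ τ₁ / r.den := by
    have e : a - a' * (r : ℝ) = a' * (a / a' - r) := by
      field_simp
    rw [e, abs_mul, abs_of_pos ha']
    calc a' * |a / a' - (r : ℝ)| ≤ a' * (1 / (((n : ℝ) + 1) * r.den)) :=
          mul_le_mul_of_nonneg_left hr1 ha'.le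
      _ = (a' / ((n : ℝ) + 1)) / r.den := by field_simp
      _ ≤ τ₁ / r.den := div_le_div_of_nonneg_right hτn hdR.le
  have hdQ : ¬ r.den ≤ Q := by
    intro hle
    have h1 := hG r.den hd0 hle r.num
    have e : a * (r.den : ℝ) - a' * (r.num : ℝ) = (r.den : ℝ) * (a - a' * (r : ℝ)) := by
      rw [hrnum]; field_simp
    rw [e, abs_mul, abs_of_pos hdR] at h1
    have h2 : (r.den : ℝ) * |a - a' * (r : ℝ)| ≤ τ₁ := by
      calc (r.den : ℝ) * |a - a' * (r : ℝ)| ≤ (r.den : ℝ) * (τ₁ / r.den) :=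
            mul_le_mul_of_nonneg_left hkey hdR.le
        _ = τ₁ := by field_simp
    linarith
  have hdbig : 200 * a' ≤ (r.den : ℝ) := by
    have : (Q : ℝ) ≤ (r.den : ℝ) := by
      exact_mod_cast (not_le.mp hdQ).le
    linarith
  -- choose k
  obtain ⟨k, hk⟩ : ∃ k : ℤ, |(r.den : ℝ) * σ / a' - k| ≤ 1 / 2 := ⟨round _, abs_sub_round _⟩
  -- choose i
  have hcop : IsCoprime r.num (r.den : ℤ) := by
    have := r.reduced
    rw [Int.isCoprime_iff_gcd_eq_one]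
    simpa [Int.gcd, Nat.Coprime] using this
  obtain ⟨u, v, huv⟩ := hcop
  have hdZ : (0 : ℤ) < (r.den : ℤ) := by exact_mod_cast hd0
  have hi0 : 0 ≤ (k * u) % (r.den : ℤ) := Int.emod_nonneg _ hdZ.ne'
  have hilt : (k * u) % (r.den : ℤ) < r.den := Int.emod_lt_of_pos _ hdZ
  have hdec : (k * u) % (r.den : ℤ) = k * u - r.den * ((k * u) / r.den) := by
    have := Int.emod_add_mul_ediv (k * u) (r.den : ℤ)
    linarith
  set l : ℤ := - k * v - ((k * u) / r.den) * r.num with hl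
  have hil : ((k * u) % (r.den : ℤ)) * r.num = k + r.den * l := by
    rw [hdec, hl]
    have : u * r.num = 1 - v * r.den := by linarith
    linear_combination k * this
  refine ⟨((k * u) % (r.den : ℤ)).toNat, l, ?_, ?_⟩
  · have h1 : ((((k * u) % (r.den : ℤ)).toNat : ℕ) : ℝ) ≤ (r.den : ℝ) := by
      have : ((k * u) % (r.den : ℤ)).toNat ≤ r.den := by
        have := hilt.le
        omega
      exact_mod_cast this
    have h2 : (r.den : ℝ) ≤ (n : ℝ) := by exact_mod_cast hr2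
    linarith
  · have hicast : ((((k * u) % (r.den : ℤ)).toNat : ℕ) : ℝ) = (((k * u) % (r.den : ℤ) : ℤ) : ℝ) := by
      have : ((((k * u) % (r.den : ℤ)).toNat : ℕ) : ℤ) = (k * u) % (r.den : ℤ) :=
        Int.toNat_of_nonneg hi0
      exact_mod_cast congrArg (Int.cast : ℤ → ℝ) this
    rw [hicast]
    set I : ℤ := (k * u) % (r.den : ℤ) with hI
    have hIl : (I : ℝ) * (r.num : ℝ) = k + r.den * l := by exact_mod_cast hil
    have hI0 : (0 : ℝ) ≤ (I : ℝ) := by exact_mod_cast hi0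
    have hI1 : (I : ℝ) ≤ (r.den : ℝ) := by exact_mod_cast hilt.le
    have e : a * (I : ℝ) - a' * (l : ℝ) - σ
        = (I : ℝ) * (a - a' * (r : ℝ)) - (a' / r.den) * ((r.den : ℝ) * σ / a' - k) := by
      rw [hrnum]
      have h3 : (l : ℝ) = ((I : ℝ) * (r.num : ℝ) - k) / r.den := by
        rw [hIl]; field_simp; ring
      rw [h3]
      field_simp
      ring
    rw [e]
    have h4 : |(I : ℝ) * (a - a' * (r : ℝ))| ≤ τ₁ := by
      rw [abs_mul, abs_of_nonneg hI0]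
      calc (I : ℝ) * |a - a' * (r : ℝ)| ≤ (r.den : ℝ) * (τ₁ / r.den) :=
            mul_le_mul hI1 hkey (abs_nonneg _) hdR.le
        _ = τ₁ := by field_simp
    have h5 : |(a' / r.den) * ((r.den : ℝ) * σ / a' - k)| ≤ 1 / 400 := by
      rw [abs_mul, abs_of_pos (div_pos ha' hdR)]
      have h6 : a' / (r.den : ℝ) ≤ 1 / 200 := by
        rw [div_le_iff₀ hdR]; linarith
      calc a' / (r.den : ℝ) * |(r.den : ℝ) * σ / a' - k| ≤ (1 / 200) * (1 / 2) :=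
            mul_le_mul h6 hk (abs_nonneg _) (by norm_num)
        _ = 1 / 400 := by norm_num
    have h7 := abs_sub ((I : ℝ) * (a - a' * (r : ℝ))) ((a' / r.den) * ((r.den : ℝ) * σ / a' - k))
    linarith

theorem density_mod3 (a a' τ₁ : ℝ) (Q : ℕ) (ha : 0 < a) (ha' : 0 < a') (hτ : 0 < τ₁)
    (hτ' : τ₁ ≤ 1 / 400) (hQ : 600 * a' ≤ Q)
    (hG : ∀ i : ℕ, 1 ≤ i → i ≤ Q → ∀ j : ℤ, τ₁ < |3 * a * i - 3 * a' * j|)
    (c c' : ℤ) (σ : ℝ) :
    ∃ i j : ℤ, (3 : ℤ) ∣ i - c ∧ (3 : ℤ) ∣ j - c' ∧ |a * i + a' * j - σ| ≤ 1 / 200 ∧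
      |(i : ℝ)| ≤ 9 * a' / τ₁ + 6 ∧ |(j : ℝ)| ≤ (a * (9 * a' / τ₁ + 6) + |σ| + 1) / a' := by
  obtain ⟨i', j', hi', hj'⟩ := dirichlet_density (3 * a) (3 * a') τ₁ Q (by positivity)
    (by positivity) hτ hτ' (by linarith) hG (σ - a * ((c % 3 : ℤ) : ℝ) - a' * ((c' % 3 : ℤ) : ℝ))
  have hc0 : 0 ≤ c % 3 := Int.emod_nonneg _ (by norm_num)
  have hc1 : c % 3 < 3 := Int.emod_lt_of_pos _ (by norm_num)
  have hmain : |a * ((3 * (i' : ℤ) + c % 3 : ℤ) : ℝ) + a' * ((-3 * j' + c' % 3 : ℤ) : ℝ) - σ|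
      ≤ 1 / 200 := by
    have e : a * ((3 * (i' : ℤ) + c % 3 : ℤ) : ℝ) + a' * ((-3 * j' + c' % 3 : ℤ) : ℝ) - σ
        = 3 * a * (i' : ℝ) - 3 * a' * (j' : ℝ)
          - (σ - a * ((c % 3 : ℤ) : ℝ) - a' * ((c' % 3 : ℤ) : ℝ)) := by
      push_cast
      ring
    rw [e]
    exact hj'
  have hi : |((3 * (i' : ℤ) + c % 3 : ℤ) : ℝ)| ≤ 9 * a' / τ₁ + 6 := by
    have h0 : (0 : ℝ) ≤ ((3 * (i' : ℤ) + c % 3 : ℤ) : ℝ) := by
      have : 0 ≤ 3 * (i' : ℤ) + c % 3 := by positivity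
      exact_mod_cast this
    rw [abs_of_nonneg h0]
    have h1 : ((c % 3 : ℤ) : ℝ) ≤ 3 := by exact_mod_cast hc1.le
    have h2 : 9 * a' / τ₁ = 3 * (3 * a' / τ₁) := by ring
    push_cast
    push_cast at h1
    rw [h2]
    linarith
  refine ⟨3 * (i' : ℤ) + c % 3, -3 * j' + c' % 3, ?_, ?_, hmain, hi, ?_⟩
  · omega
  · omega
  · rw [le_div_iff₀ ha']
    set I : ℝ := ((3 * (i' : ℤ) + c % 3 : ℤ) : ℝ) with hI
    set J : ℝ := ((-3 * j' + c' % 3 : ℤ) : ℝ) with hJ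
    have h1 : a' * J = (a * I + a' * J - σ) + σ - a * I := by ring
    have h2 : |a' * J| ≤ |a * I + a' * J - σ| + |σ| + |a * I| := by
      rw [h1]
      calc |(a * I + a' * J - σ) + σ - a * I| ≤ |(a * I + a' * J - σ) + σ| + |a * I| := abs_sub _ _
        _ ≤ |a * I + a' * J - σ| + |σ| + |a * I| := by
            have := abs_add_le (a * I + a' * J - σ) σ
            linarith
        _ = _ := by
            congr 2
            · congr 1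
              ring_nf
    have h3 : |a * I| ≤ a * (9 * a' / τ₁ + 6) := by
      rw [abs_mul, abs_of_pos ha]
      exact mul_le_mul_of_nonneg_left hi ha.le
    have h4 : |a' * J| = |J| * a' := by rw [abs_mul, abs_of_pos ha', mul_comm]
    linarith

end Pool.Agent.Helper112.CB.Kdn

namespace Pool.Agent.Helper112.CB

theorem dirichlet_density (a a' τ₁ : ℝ) (Q : ℕ) (ha : 0 < a) (ha' : 0 < a') (hτ : 0 < τ₁)
    (hτ' : τ₁ ≤ 1 / 400) (hQ : 200 * a' ≤ Q)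
    (hG : ∀ i : ℕ, 1 ≤ i → i ≤ Q → ∀ j : ℤ, τ₁ < |a * i - a' * j|) (σ : ℝ) :
    ∃ (i : ℕ) (j : ℤ), (i : ℝ) ≤ a' / τ₁ + 1 ∧ |a * i - a' * j - σ| ≤ 1 / 200 := by
  first
    | exact Kdn.dirichlet_density
    | (apply Kdn.dirichlet_density <;> assumption)

theorem density_mod3 (a a' τ₁ : ℝ) (Q : ℕ) (ha : 0 < a) (ha' : 0 < a') (hτ : 0 < τ₁)
    (hτ' : τ₁ ≤ 1 / 400) (hQ : 600 * a' ≤ Q)
    (hG : ∀ i : ℕ, 1 ≤ i → i ≤ Q → ∀ j : ℤ, τ₁ < |3 * a * i - 3 * a' * j|)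
    (c c' : ℤ) (σ : ℝ) :
    ∃ i j : ℤ, (3 : ℤ) ∣ i - c ∧ (3 : ℤ) ∣ j - c' ∧ |a * i + a' * j - σ| ≤ 1 / 200 ∧
      |(i : ℝ)| ≤ 9 * a' / τ₁ + 6 ∧ |(j : ℝ)| ≤ (a * (9 * a' / τ₁ + 6) + |σ| + 1) / a' := by
  first
    | exact Kdn.density_mod3
    | (apply Kdn.density_mod3 <;> assumption)

end Pool.Agent.Helper112.CB
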