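import Pool.Agent.Helper112.Cb.Defs

open Finset

namespace Pool.Agent.Helper112.CB.Krd

theorem rounding_near {x z e : ℝ} {T : ℤ} (hs : |x + z - T - 1| ≤ e)
    (hne : ⌊x⌋ + ⌊z⌋ ≠ T) : ∃ n : ℤ, |x - n| ≤ e := by
  have hf0 := Int.fract_nonneg x
  have hf1 := Int.fract_lt_one x
  have hx : x = ⌊x⌋ + Int.fract x := (Int.floor_add_fract x).symm
  rw [abs_le] at hs
  by_cases h1 : Int.fract x ≤ x + z - T - 1
  · exact ⟨⌊x⌋, by
      rw [abs_le]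
      constructor <;> linarith⟩
  push Not at h1
  by_cases h2 : x + z - T < Int.fract x
  · refine ⟨⌊x⌋ + 1, ?_⟩
    push_cast
    rw [abs_le]
    constructor <;> linarith
  push Not at h2
  exfalso
  apply hne
  have h3 : ⌊z⌋ = T - ⌊x⌋ := by
    rw [Int.floor_eq_iff]
    push_cast
    constructor <;> linarith
  omega

theorem rounding_top {x z e : ℝ} {T : ℤ} (he : e < 1 / 4) (hs : |x + z - T - 3 / 4| ≤ e)
    (hne : ⌊x⌋ + ⌊z⌋ ≠ T) : ∃ n : ℤ, (n : ℝ) - 1 / 4 - e < x ∧ x < n := by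
  have hf0 := Int.fract_nonneg x
  have hf1 := Int.fract_lt_one x
  have hx : x = ⌊x⌋ + Int.fract x := (Int.floor_add_fract x).symm
  rw [abs_le] at hs
  by_cases h2 : x + z - T < Int.fract x
  · refine ⟨⌊x⌋ + 1, ?_⟩
    push_cast
    constructor <;> linarith
  push Not at h2
  exfalso
  apply hne
  have h3 : ⌊z⌋ = T - ⌊x⌋ := by
    rw [Int.floor_eq_iff]
    push_cast
    constructor <;> linarith
  omega

/- TARGET -/
theorem rounding (X Z : ℤ → ℝ) (a a' I J : ℝ) (i₀ j₀ T : ℤ)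
    (hX : ∀ i : ℤ, |((i - i₀ : ℤ) : ℝ)| ≤ 7 * I → |X i - X i₀ - a * ((i - i₀ : ℤ) : ℝ)| ≤ 1 / 200)
    (hZ : ∀ j : ℤ, |((j - j₀ : ℤ) : ℝ)| ≤ 7 * J → |Z j - Z j₀ - a' * ((j - j₀ : ℤ) : ℝ)| ≤ 1 / 200)
    (hd : ∀ (c c' : ℤ) (σ : ℝ), |σ| ≤ |(T : ℝ) + 1 - X i₀ - Z j₀| + 1 →
      ∃ i j : ℤ, |(i : ℝ)| ≤ I ∧ |(j : ℝ)| ≤ J ∧ (3 : ℤ) ∣ i - c ∧ (3 : ℤ) ∣ j - c' ∧
        |a * i + a' * j - σ| ≤ 1 / 200) :
    ∃ i j : ℤ, |((i - i₀ : ℤ) : ℝ)| ≤ 7 * I ∧ |((j - j₀ : ℤ) : ℝ)| ≤ 7 * J ∧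
      ⌊X i + rho i⌋ + ⌊Z j + rho j⌋ = T := by
  by_contra hcon
  push Not at hcon
  obtain ⟨p1, p2, hp1, hp2, hp3, hp4, hp5⟩ := hd (-i₀) (-j₀) (T + 1 - X i₀ - Z j₀) (by linarith)
  obtain ⟨w1, w2, hw1, hw2, hw3, hw4, hw5⟩ := hd 1 0 (-1 / 4) (by
    have := abs_nonneg ((T : ℝ) + 1 - X i₀ - Z j₀)
    rw [abs_le]; constructor <;> linarith)
  obtain ⟨v1, v2, hv1, hv2, hv3, hv4, hv5⟩ := hd 0 1 (-1 / 4) (by
    have := abs_nonneg ((T : ℝ) + 1 - X i₀ - Z j₀)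
    rw [abs_le]; constructor <;> linarith)
  rw [abs_le] at hp1 hp2 hp5 hw1 hw2 hw5 hv1 hv2 hv5
  -- first coordinates
  have hx0 : |X (i₀ + p1) - X i₀ - a * p1| ≤ 1 / 200 := by
    have h1 := hX (i₀ + p1) (by push_cast; rw [abs_le]; constructor <;> linarith)
    have e : ((i₀ + p1 - i₀ : ℤ) : ℝ) = p1 := by push_cast; ring
    rwa [e] at h1
  have hx1 : |X (i₀ + p1 + w1) - X i₀ - a * (p1 + w1)| ≤ 1 / 200 := by
    have h1 := hX (i₀ + p1 + w1) (by push_cast; rw [abs_le]; constructor <;> linarith)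
    have e : ((i₀ + p1 + w1 - i₀ : ℤ) : ℝ) = p1 + w1 := by push_cast; ring
    rwa [e] at h1
  have hx2 : |X (i₀ + p1 + 2 * w1) - X i₀ - a * (p1 + 2 * w1)| ≤ 1 / 200 := by
    have h1 := hX (i₀ + p1 + 2 * w1) (by push_cast; rw [abs_le]; constructor <;> linarith)
    have e : ((i₀ + p1 + 2 * w1 - i₀ : ℤ) : ℝ) = p1 + 2 * w1 := by push_cast; ring
    rwa [e] at h1
  have hx3 : |X (i₀ + p1 + v1) - X i₀ - a * (p1 + v1)| ≤ 1 / 200 := by
    have h1 := hX (i₀ + p1 + v1) (by push_cast; rw [abs_le]; constructor <;> linarith)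
    have e : ((i₀ + p1 + v1 - i₀ : ℤ) : ℝ) = p1 + v1 := by push_cast; ring
    rwa [e] at h1
  have hx4 : |X (i₀ + p1 + 2 * v1) - X i₀ - a * (p1 + 2 * v1)| ≤ 1 / 200 := by
    have h1 := hX (i₀ + p1 + 2 * v1) (by push_cast; rw [abs_le]; constructor <;> linarith)
    have e : ((i₀ + p1 + 2 * v1 - i₀ : ℤ) : ℝ) = p1 + 2 * v1 := by push_cast; ring
    rwa [e] at h1
  have hx5 : |X (i₀ + p1 + 3 * w1 - 3 * v1) - X i₀ - a * (p1 + 3 * w1 - 3 * v1)| ≤ 1 / 200 := by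
    have h1 := hX (i₀ + p1 + 3 * w1 - 3 * v1) (by push_cast; rw [abs_le]; constructor <;> linarith)
    have e : ((i₀ + p1 + 3 * w1 - 3 * v1 - i₀ : ℤ) : ℝ) = p1 + 3 * w1 - 3 * v1 := by push_cast; ring
    rwa [e] at h1
  -- second coordinates
  have hz0 : |Z (j₀ + p2) - Z j₀ - a' * p2| ≤ 1 / 200 := by
    have h1 := hZ (j₀ + p2) (by push_cast; rw [abs_le]; constructor <;> linarith)
    have e : ((j₀ + p2 - j₀ : ℤ) : ℝ) = p2 := by push_cast; ring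
    rwa [e] at h1
  have hz1 : |Z (j₀ + p2 + w2) - Z j₀ - a' * (p2 + w2)| ≤ 1 / 200 := by
    have h1 := hZ (j₀ + p2 + w2) (by push_cast; rw [abs_le]; constructor <;> linarith)
    have e : ((j₀ + p2 + w2 - j₀ : ℤ) : ℝ) = p2 + w2 := by push_cast; ring
    rwa [e] at h1
  have hz2 : |Z (j₀ + p2 + 2 * w2) - Z j₀ - a' * (p2 + 2 * w2)| ≤ 1 / 200 := by
    have h1 := hZ (j₀ + p2 + 2 * w2) (by push_cast; rw [abs_le]; constructor <;> linarith)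
    have e : ((j₀ + p2 + 2 * w2 - j₀ : ℤ) : ℝ) = p2 + 2 * w2 := by push_cast; ring
    rwa [e] at h1
  have hz3 : |Z (j₀ + p2 + v2) - Z j₀ - a' * (p2 + v2)| ≤ 1 / 200 := by
    have h1 := hZ (j₀ + p2 + v2) (by push_cast; rw [abs_le]; constructor <;> linarith)
    have e : ((j₀ + p2 + v2 - j₀ : ℤ) : ℝ) = p2 + v2 := by push_cast; ring
    rwa [e] at h1
  have hz4 : |Z (j₀ + p2 + 2 * v2) - Z j₀ - a' * (p2 + 2 * v2)| ≤ 1 / 200 := by
    have h1 := hZ (j₀ + p2 + 2 * v2) (by push_cast; rw [abs_le]; constructor <;> linarith)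
    have e : ((j₀ + p2 + 2 * v2 - j₀ : ℤ) : ℝ) = p2 + 2 * v2 := by push_cast; ring
    rwa [e] at h1
  have hz5 : |Z (j₀ + p2 + 3 * w2 - 3 * v2) - Z j₀ - a' * (p2 + 3 * w2 - 3 * v2)| ≤ 1 / 200 := by
    have h1 := hZ (j₀ + p2 + 3 * w2 - 3 * v2) (by push_cast; rw [abs_le]; constructor <;> linarith)
    have e : ((j₀ + p2 + 3 * w2 - 3 * v2 - j₀ : ℤ) : ℝ) = p2 + 3 * w2 - 3 * v2 := by push_cast; ring
    rwa [e] at h1
  -- no solutions at the six points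
  have c0 := hcon (i₀ + p1) (j₀ + p2)
    (by push_cast; rw [abs_le]; constructor <;> linarith)
    (by push_cast; rw [abs_le]; constructor <;> linarith)
  have c1 := hcon (i₀ + p1 + w1) (j₀ + p2 + w2)
    (by push_cast; rw [abs_le]; constructor <;> linarith)
    (by push_cast; rw [abs_le]; constructor <;> linarith)
  have c2 := hcon (i₀ + p1 + 2 * w1) (j₀ + p2 + 2 * w2)
    (by push_cast; rw [abs_le]; constructor <;> linarith)
    (by push_cast; rw [abs_le]; constructor <;> linarith)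
  have c3 := hcon (i₀ + p1 + v1) (j₀ + p2 + v2)
    (by push_cast; rw [abs_le]; constructor <;> linarith)
    (by push_cast; rw [abs_le]; constructor <;> linarith)
  have c4 := hcon (i₀ + p1 + 2 * v1) (j₀ + p2 + 2 * v2)
    (by push_cast; rw [abs_le]; constructor <;> linarith)
    (by push_cast; rw [abs_le]; constructor <;> linarith)
  have c5 := hcon (i₀ + p1 + 3 * w1 - 3 * v1) (j₀ + p2 + 3 * w2 - 3 * v2)
    (by push_cast; rw [abs_le]; constructor <;> linarith)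
    (by push_cast; rw [abs_le]; constructor <;> linarith)
  -- values of rho
  have r0 : rho (i₀ + p1) = 0 := by unfold rho; rw [if_neg (by omega)]
  have s0 : rho (j₀ + p2) = 0 := by unfold rho; rw [if_neg (by omega)]
  have r1 : rho (i₀ + p1 + w1) = 0 := by unfold rho; rw [if_neg (by omega)]
  have s1 : rho (j₀ + p2 + w2) = 0 := by unfold rho; rw [if_neg (by omega)]
  have r2 : rho (i₀ + p1 + 2 * w1) = 1 / 2 := by unfold rho; rw [if_pos (by omega)]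
  have s2 : rho (j₀ + p2 + 2 * w2) = 0 := by unfold rho; rw [if_neg (by omega)]
  have r3 : rho (i₀ + p1 + v1) = 0 := by unfold rho; rw [if_neg (by omega)]
  have s3 : rho (j₀ + p2 + v2) = 0 := by unfold rho; rw [if_neg (by omega)]
  have r4 : rho (i₀ + p1 + 2 * v1) = 0 := by unfold rho; rw [if_neg (by omega)]
  have s4 : rho (j₀ + p2 + 2 * v2) = 1 / 2 := by unfold rho; rw [if_pos (by omega)]
  have r5 : rho (i₀ + p1 + 3 * w1 - 3 * v1) = 0 := by unfold rho; rw [if_neg (by omega)]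
  have s5 : rho (j₀ + p2 + 3 * w2 - 3 * v2) = 0 := by unfold rho; rw [if_neg (by omega)]
  rw [r0, s0, add_zero, add_zero] at c0
  rw [r1, s1, add_zero, add_zero] at c1
  rw [r2, s2, add_zero] at c2
  rw [r3, s3, add_zero, add_zero] at c3
  rw [r4, s4, add_zero] at c4
  rw [r5, s5, add_zero, add_zero] at c5
  rw [abs_le] at hx0 hx1 hx2 hx3 hx4 hx5 hz0 hz1 hz2 hz3 hz4 hz5
  obtain ⟨n0, hn0⟩ := rounding_near (e := 3 / 200) (by
    rw [abs_le]; constructor <;> linarith) c0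
  obtain ⟨n1, hn1, hn1'⟩ := rounding_top (e := 4 / 200) (by norm_num) (by
    rw [abs_le]; constructor <;> linarith) c1
  obtain ⟨n2, hn2⟩ := rounding_near (e := 5 / 200) (by
    rw [abs_le]; constructor <;> linarith) c2
  obtain ⟨n3, hn3, hn3'⟩ := rounding_top (e := 4 / 200) (by norm_num) (by
    rw [abs_le]; constructor <;> linarith) c3
  obtain ⟨n4, hn4⟩ := rounding_near (e := 5 / 200) (by
    rw [abs_le]; constructor <;> linarith) c4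
  obtain ⟨n5, hn5⟩ := rounding_near (e := 9 / 200) (by
    rw [abs_le]; constructor <;> linarith) c5
  rw [abs_le] at hn0 hn2 hn4 hn5
  have k1 : n2 - n0 = 2 * (n1 - n0) := by
    have h1 : ((n2 - n0 : ℤ) : ℝ) < ((2 * (n1 - n0) + 1 : ℤ) : ℝ) := by push_cast; linarith
    have h2 : ((2 * (n1 - n0) - 1 : ℤ) : ℝ) < ((n2 - n0 : ℤ) : ℝ) := by push_cast; linarith
    have h1' : n2 - n0 < 2 * (n1 - n0) + 1 := by exact_mod_cast h1
    have h2' : 2 * (n1 - n0) - 1 < n2 - n0 := by exact_mod_cast h2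
    omega
  have k2 : n4 - n0 = 2 * (n3 - n0) := by
    have h1 : ((n4 - n0 : ℤ) : ℝ) < ((2 * (n3 - n0) + 1 : ℤ) : ℝ) := by push_cast; linarith
    have h2 : ((2 * (n3 - n0) - 1 : ℤ) : ℝ) < ((n4 - n0 : ℤ) : ℝ) := by push_cast; linarith
    have h1' : n4 - n0 < 2 * (n3 - n0) + 1 := by exact_mod_cast h1
    have h2' : 2 * (n3 - n0) - 1 < n4 - n0 := by exact_mod_cast h2
    omega
  have k1' : ((n2 : ℝ) - n0) = 2 * (n1 - n0) := by exact_mod_cast k1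
  have k2' : ((n4 : ℝ) - n0) = 2 * (n3 - n0) := by exact_mod_cast k2
  have h1 : ((n5 - n0 - 3 * (n1 - n3) : ℤ) : ℝ) < ((0 : ℤ) : ℝ) := by push_cast; linarith
  have h2 : (((-1 : ℤ)) : ℝ) < ((n5 - n0 - 3 * (n1 - n3) : ℤ) : ℝ) := by push_cast; linarith
  have h1' : n5 - n0 - 3 * (n1 - n3) < 0 := by exact_mod_cast h1
  have h2' : -1 < n5 - n0 - 3 * (n1 - n3) := by exact_mod_cast h2
  omega

end Pool.Agent.Helper112.CB.Krd

namespace Pool.Agent.Helper112.CB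

theorem rounding (X Z : ℤ → ℝ) (a a' I J : ℝ) (i₀ j₀ T : ℤ)
    (hX : ∀ i : ℤ, |((i - i₀ : ℤ) : ℝ)| ≤ 7 * I → |X i - X i₀ - a * ((i - i₀ : ℤ) : ℝ)| ≤ 1 / 200)
    (hZ : ∀ j : ℤ, |((j - j₀ : ℤ) : ℝ)| ≤ 7 * J → |Z j - Z j₀ - a' * ((j - j₀ : ℤ) : ℝ)| ≤ 1 / 200)
    (hd : ∀ (c c' : ℤ) (σ : ℝ), |σ| ≤ |(T : ℝ) + 1 - X i₀ - Z j₀| + 1 →
      ∃ i j : ℤ, |(i : ℝ)| ≤ I ∧ |(j : ℝ)| ≤ J ∧ (3 : ℤ) ∣ i - c ∧ (3 : ℤ) ∣ j - c' ∧
        |a * i + a' * j - σ| ≤ 1 / 200) :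
    ∃ i j : ℤ, |((i - i₀ : ℤ) : ℝ)| ≤ 7 * I ∧ |((j - j₀ : ℤ) : ℝ)| ≤ 7 * J ∧
      ⌊X i + rho i⌋ + ⌊Z j + rho j⌋ = T := by
  first
    | exact Krd.rounding
    | (apply Krd.rounding <;> assumption)

end Pool.Agent.Helper112.CB
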