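import Pool.Agent.Helper112.Cb.Defs
import Pool.Agent.Helper112.Cb.Kdn
import Pool.Agent.Helper112.Cb.Kfl
import Pool.Agent.Helper112.Cb.Krd

open Finset

namespace Pool.Agent.Helper112.CB.Ksc

theorem lin_bound (h : ℕ) (hh : 2 ≤ h) (η θ M mc L x y : ℝ) (hη : 1 ≤ η) (hM : 0 < M)
    (hθ : 0 < θ) (h2 : θ * M ^ (h - 1) ≤ 2 * η) (hm1 : 2 / 5 * M ≤ mc) (hm2 : mc ≤ 5 / 2 * M)
    (hL0 : 0 ≤ L) (hL1 : 100 * L ≤ M) (hL2 : 1600 * η * h ^ 2 * 3 ^ h * L ^ 2 ≤ M)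
    (hx : |x - mc| ≤ L) (hy : |y - mc| ≤ L) :
    |θ * x ^ h - θ * y ^ h - h * θ * mc ^ (h - 1) * (x - y)| ≤ 1 / 200 := by
  have hx' := abs_le.mp hx
  have hy' := abs_le.mp hy
  have h3 := pow_lin h hh (3 * M) x y mc (by linarith) (by linarith) (by linarith) (by linarith)
    (by linarith) (by linarith)
  have h4 : |x - y| ≤ 2 * L := by
    rw [abs_le]; constructor <;> linarith
  have h5 : |x - mc| + |y - mc| ≤ 2 * L := by linarith
  have e1 : θ * x ^ h - θ * y ^ h - h * θ * mc ^ (h - 1) * (x - y) =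
      θ * (x ^ h - y ^ h - h * mc ^ (h - 1) * (x - y)) := by ring
  rw [e1, abs_mul, abs_of_pos hθ]
  have h6 : θ * |x ^ h - y ^ h - h * mc ^ (h - 1) * (x - y)| ≤
      θ * (h ^ 2 * (3 * M) ^ (h - 2) * (2 * L) * (2 * L)) := by
    apply mul_le_mul_of_nonneg_left _ hθ.le
    refine h3.trans ?_
    gcongr
  refine h6.trans ?_
  obtain ⟨k, rfl⟩ : ∃ k, h = k + 2 := ⟨h - 2, by omega⟩
  have e2 : k + 2 - 2 = k := by omega
  have e3 : k + 2 - 1 = k + 1 := by omega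
  rw [e2, mul_pow]
  rw [e3, pow_succ] at h2
  have h7 : (3 : ℝ) ^ k ≤ 3 ^ (k + 2) := pow_le_pow_right₀ (by norm_num) (by omega)
  have h8 : θ * (((k + 2 : ℕ) : ℝ) ^ 2 * (3 ^ k * M ^ k) * (2 * L) * (2 * L)) * M ≤ M / 200 := by
    calc θ * (((k + 2 : ℕ) : ℝ) ^ 2 * (3 ^ k * M ^ k) * (2 * L) * (2 * L)) * M
        = (θ * (M ^ k * M)) * (4 * ((k + 2 : ℕ) : ℝ) ^ 2 * 3 ^ k * L ^ 2) := by ring
      _ ≤ (2 * η) * (4 * ((k + 2 : ℕ) : ℝ) ^ 2 * 3 ^ (k + 2) * L ^ 2) := by gcongr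
      _ = (1600 * η * ((k + 2 : ℕ) : ℝ) ^ 2 * 3 ^ (k + 2) * L ^ 2) / 200 := by ring
      _ ≤ M / 200 := by gcongr
  have h9 : θ * (((k + 2 : ℕ) : ℝ) ^ 2 * (3 ^ k * M ^ k) * (2 * L) * (2 * L)) * M ≤ 1 / 200 * M := by
    linarith
  exact le_of_mul_le_mul_right h9 hM

theorem round_near (β b : ℕ) (hβ : 1 ≤ β) (mc : ℝ) :
    ∃ i : ℤ, |(b : ℝ) + β * i - mc| ≤ β := by
  have hβ' : (1 : ℝ) ≤ β := by exact_mod_cast hβ
  refine ⟨round ((mc - b) / β), ?_⟩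
  have h1 := abs_sub_round ((mc - b) / (β : ℝ))
  have h2 : (b : ℝ) + β * (round ((mc - b) / (β : ℝ)) : ℤ) - mc =
      -(β * ((mc - b) / (β : ℝ) - (round ((mc - b) / (β : ℝ)) : ℤ))) := by
    field_simp
    ring
  rw [h2, abs_neg, abs_mul, abs_of_nonneg (by linarith : (0 : ℝ) ≤ β)]
  nlinarith

theorem exp_close (w z : ℝ) (hz : z ≤ 1) (hw : |w| ≤ z) : |Real.exp w - 1| ≤ 2 * z := by
  have h1 := Real.abs_exp_sub_one_sub_id_le (hw.trans hz)
  have h0 := abs_nonneg w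
  have h2 : |Real.exp w - 1| ≤ |Real.exp w - 1 - w| + |w| := by
    have := abs_add_le (Real.exp w - 1 - w) w
    rwa [sub_add_cancel] at this
  have h3 : w ^ 2 ≤ |w| := by
    rw [← sq_abs]; nlinarith
  linarith

theorem ratio_eq (h : ℕ) (hh : 2 ≤ h) (mc nc y : ℝ) (hm : 0 < mc) (hn : 0 < nc) :
    mc ^ (h - 1) = nc ^ (h - 1) * (Real.exp (-((h : ℝ) - 1) * y) *
      Real.exp (-((h : ℝ) - 1) * (Real.log nc - Real.log mc - y))) := by
  rw [← Real.exp_add]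
  have h1 : -((h : ℝ) - 1) * y + -((h : ℝ) - 1) * (Real.log nc - Real.log mc - y) =
      ((h - 1 : ℕ) : ℝ) * Real.log mc - ((h - 1 : ℕ) : ℝ) * Real.log nc := by
    rw [Nat.cast_sub (by omega)]
    push_cast
    ring
  rw [h1, Real.exp_sub, ← Real.log_pow, ← Real.log_pow, Real.exp_log (by positivity),
    Real.exp_log (by positivity)]
  field_simp

/- TARGET -/
set_option maxHeartbeats 4000000 in
theorem system_core (h : ℕ) (hh : 2 ≤ h) (β γ : ℕ) (η θ Ω M mc nc y : ℝ) (b c : ℕ) (T : ℤ)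
    (hβ : 1 ≤ β) (hγ : 1 ≤ γ) (hη : 1 ≤ η) (hΩ : 100 * h ≤ Ω) (hM : 0 < M) (hθ : 0 < θ)
    (h1 : η ≤ θ * M ^ (h - 1)) (h2 : θ * M ^ (h - 1) ≤ 2 * η)
    (hm1 : 2 / 5 * M ≤ mc) (hm2 : mc ≤ 5 / 2 * M) (hn1 : 2 / 5 * M ≤ nc) (hn2 : nc ≤ 5 / 2 * M)
    (hT : θ * (mc ^ h + nc ^ h) = T) (hy : 0 ≤ y) (hlog : |Real.log nc - Real.log mc - y| ≤ 2 / Ω)
    (hG : Good h η β γ y)
    (hL1 : 100 * Lbox h η β γ ≤ M)
    (hL2 : 1600 * η * h ^ 2 * 3 ^ h * (Lbox h η β γ) ^ 2 ≤ M)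
    (hL3 : 4 * h * β * (1 + 200 * Amax h η γ) * Amin h η γ ≤ tau1 h * γ * Ω) :
    ∃ i j : ℤ, |(b : ℝ) + β * i - mc| ≤ Lbox h η β γ ∧ |(c : ℝ) + γ * j - nc| ≤ Lbox h η β γ ∧
      ⌊θ * ((b : ℝ) + β * i) ^ h + rho i⌋ + ⌊θ * ((c : ℝ) + γ * j) ^ h + rho j⌋ = T := by
  have hβ' : (1 : ℝ) ≤ β := by exact_mod_cast hβ
  have hγ' : (1 : ℝ) ≤ γ := by exact_mod_cast hγ
  have hh' : (2 : ℝ) ≤ h := by exact_mod_cast hh
  have hΩ0 : 0 < Ω := by linarith
  have hmc : 0 < mc := by linarith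
  have hnc : 0 < nc := by linarith
  obtain ⟨t1, ht1⟩ : ∃ t1, t1 = tau1 h := ⟨_, rfl⟩
  obtain ⟨A, hA⟩ : ∃ A, A = Amax h η γ := ⟨_, rfl⟩
  obtain ⟨Am, hAm⟩ : ∃ Am, Am = Amin h η γ := ⟨_, rfl⟩
  obtain ⟨L, hL⟩ : ∃ L, L = Lbox h η β γ := ⟨_, rfl⟩
  have hLe : L = 100 * β * A / t1 := by rw [hL, hA, ht1]; rfl
  have h12 : (144 : ℝ) ≤ 12 ^ h := by
    calc (144 : ℝ) = 12 ^ 2 := by norm_num
      _ ≤ 12 ^ h := pow_le_pow_right₀ (by norm_num) hh
  have ht1e : t1 = 1 / (4000000 * 12 ^ h) := by rw [ht1]; rfl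
  have ht10 : 0 < t1 := by rw [ht1e]; positivity
  have ht1s : t1 ≤ 1 / 400 := by
    rw [ht1e]
    apply one_div_le_one_div_of_le (by norm_num)
    nlinarith
  have hAe : A = 6 * h * η * 3 ^ (h - 1) * γ := by rw [hA]; rfl
  have hAme : Am = 3 * h * η * γ / 4 ^ (h - 1) := by rw [hAm]; rfl
  have h3h : (3 : ℝ) ≤ 3 ^ (h - 1) := by
    calc (3 : ℝ) = 3 ^ 1 := by norm_num
      _ ≤ 3 ^ (h - 1) := pow_le_pow_right₀ (by norm_num) (by omega)
  have hA36 : 36 * γ ≤ A := by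
    rw [hAe]
    calc (36 : ℝ) * γ = 6 * 2 * 1 * 3 * γ := by ring
      _ ≤ 6 * h * η * 3 ^ (h - 1) * γ := by gcongr
  have hA0 : 0 < A := by linarith
  have hAm0 : 0 < Am := by rw [hAme]; positivity
  obtain ⟨a, ha⟩ : ∃ a, a = β * h * θ * mc ^ (h - 1) := ⟨_, rfl⟩
  obtain ⟨a', ha'⟩ : ∃ a', a' = γ * h * θ * nc ^ (h - 1) := ⟨_, rfl⟩
  have ha0 : 0 < a := by rw [ha]; positivity
  have ha'0 : 0 < a' := by rw [ha']; positivity
  have h3a : 3 * a' ≤ A := by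
    rw [ha', hAe]
    calc 3 * (γ * h * θ * nc ^ (h - 1)) ≤ 3 * (γ * h * θ * (3 * M) ^ (h - 1)) := by
          gcongr
          linarith
      _ = 3 * γ * h * 3 ^ (h - 1) * (θ * M ^ (h - 1)) := by rw [mul_pow]; ring
      _ ≤ 3 * γ * h * 3 ^ (h - 1) * (2 * η) := by gcongr
      _ = 6 * h * η * 3 ^ (h - 1) * γ := by ring
  have h3am : Am ≤ 3 * a' := by
    rw [ha', hAme]
    calc 3 * h * η * γ / 4 ^ (h - 1) ≤ 3 * h * (θ * M ^ (h - 1)) * γ / 4 ^ (h - 1) := by gcongr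
      _ = 3 * (γ * h * θ * (M / 4) ^ (h - 1)) := by rw [div_pow]; ring
      _ ≤ 3 * (γ * h * θ * nc ^ (h - 1)) := by
          gcongr
          linarith
  -- ratio
  obtain ⟨w, hw⟩ : ∃ w, w = -((h : ℝ) - 1) * (Real.log nc - Real.log mc - y) := ⟨_, rfl⟩
  obtain ⟨th, hth⟩ : ∃ th, th = (β : ℝ) / γ * Real.exp (-((h : ℝ) - 1) * y) := ⟨_, rfl⟩
  have hrat : a = a' * (th * Real.exp w) := by
    rw [ha, ha', hth, hw, ratio_eq h hh mc nc y hmc hnc]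
    field_simp
  have hwz : |w| ≤ 2 * h / Ω := by
    rw [hw, abs_mul, abs_neg, abs_of_nonneg (by linarith : (0 : ℝ) ≤ h - 1)]
    calc ((h : ℝ) - 1) * |Real.log nc - Real.log mc - y| ≤ h * (2 / Ω) := by
          gcongr
          linarith
      _ = 2 * h / Ω := by ring
  have hz : 2 * h / Ω ≤ 1 / 50 := by
    rw [div_le_div_iff₀ hΩ0 (by norm_num)]
    linarith
  have hexp := exp_close w (2 * h / Ω) (by linarith) hwz
  have hth0 : 0 < th := by rw [hth]; positivity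
  have hthle : th ≤ (β : ℝ) / γ := by
    rw [hth]
    have : Real.exp (-((h : ℝ) - 1) * y) ≤ 1 := by
      rw [Real.exp_le_one_iff]
      exact mul_nonpos_of_nonpos_of_nonneg (by linarith only [hh']) hy
    calc (β : ℝ) / γ * Real.exp (-((h : ℝ) - 1) * y) ≤ (β : ℝ) / γ * 1 := by gcongr
      _ = _ := mul_one _
  have hexp2 : Real.exp w ≤ 2 := by
    have := (abs_le.mp hexp).2
    linarith
  have hgaa : γ * (a / a') ≤ 2 * β := by
    have : a / a' = th * Real.exp w := by rw [hrat]; field_simp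
    rw [this]
    calc γ * (th * Real.exp w) ≤ γ * ((β : ℝ) / γ * 2) := by gcongr
      _ = 2 * β := by field_simp
  have hga : γ / a' ≤ 12 ^ h := by
    have h5 : (γ : ℝ) / 4 ^ (h - 1) ≤ a' := by
      have h6 : 3 * ((γ : ℝ) / 4 ^ (h - 1)) ≤ Am := by
        rw [hAme]
        calc 3 * ((γ : ℝ) / 4 ^ (h - 1)) = 3 * 1 * 1 * γ / 4 ^ (h - 1) := by ring
          _ ≤ 3 * h * η * γ / 4 ^ (h - 1) := by
              gcongr
              linarith
      linarith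
    rw [div_le_iff₀ ha'0]
    have h7 : (4 : ℝ) ^ (h - 1) ≤ 12 ^ h := by
      calc (4 : ℝ) ^ (h - 1) ≤ 4 ^ h := pow_le_pow_right₀ (by norm_num) (by omega)
        _ ≤ 12 ^ h := pow_le_pow_left₀ (by norm_num) (by norm_num) _
    calc (γ : ℝ) = 4 ^ (h - 1) * (γ / 4 ^ (h - 1)) := by field_simp
      _ ≤ 12 ^ h * a' := by gcongr
  -- the box is large
  obtain ⟨I, hI⟩ : ∃ I, I = 9 * a' / t1 + 6 := ⟨_, rfl⟩
  have hAt : 36 * γ * (4000000 * 12 ^ h) ≤ A / t1 := by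
    rw [ht1e, div_div_eq_mul_div, div_one]
    gcongr
  have hat : 9 * a' / t1 ≤ 3 * (A / t1) := by
    rw [mul_div_assoc', div_le_div_iff_of_pos_right ht10]
    linarith
  have hI0 : 0 ≤ I := by rw [hI]; positivity
  have hIL : β * (7 * I) + β ≤ L := by
    rw [hLe]
    have e : 100 * β * A / t1 = β * (100 * (A / t1)) := by ring
    have e2 : β * (7 * I) + β = β * (7 * I + 1) := by ring
    rw [e, e2]
    apply mul_le_mul_of_nonneg_left _ (by linarith)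
    nlinarith
  have hL0 : 0 ≤ L := by rw [hLe]; positivity
  obtain ⟨i₀, hi₀⟩ := round_near β b hβ mc
  obtain ⟨j₀, hj₀⟩ := round_near γ c hγ nc
  have hβL : (β : ℝ) ≤ L := by nlinarith
  have hgL0 : 42 * (β * (A / t1)) + 98 * β + 8 * γ + 28 * 12 ^ h ≤ L := by
    rw [hLe]
    have e : 100 * β * A / t1 = 100 * (β * (A / t1)) := by ring
    rw [e]
    have k1 : (β : ℝ) * (36 * γ * (4000000 * 12 ^ h)) ≤ β * (A / t1) := by gcongr
    have k2 : (β : ℝ) ≤ β * γ * 12 ^ h := by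
      calc (β : ℝ) = β * 1 * 1 := by ring
        _ ≤ β * γ * 12 ^ h := by
          gcongr
          linarith
    have k3 : (γ : ℝ) ≤ β * γ * 12 ^ h := by
      calc (γ : ℝ) = 1 * γ * 1 := by ring
        _ ≤ β * γ * 12 ^ h := by
          gcongr
          linarith
    have k4 : (12 : ℝ) ^ h ≤ β * γ * 12 ^ h := by
      calc (12 : ℝ) ^ h = 1 * 1 * 12 ^ h := by ring
        _ ≤ β * γ * 12 ^ h := by gcongr
    have k5 : (β : ℝ) * (36 * γ * (4000000 * 12 ^ h)) = 144000000 * (β * γ * 12 ^ h) := by ring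
    rw [k5] at k1
    linarith
  have hγL : (γ : ℝ) ≤ L := by
    have : 0 ≤ β * (A / t1) := by positivity
    linarith
  have hX0 : |θ * ((b : ℝ) + β * i₀) ^ h - θ * mc ^ h| ≤ a + 1 / 200 := by
    have k1 := lin_bound h hh η θ M mc L ((b : ℝ) + β * i₀) mc hη hM hθ h2 hm1 hm2 hL0
      (hL ▸ hL1) (hL ▸ hL2) (hi₀.trans hβL) (by simpa using hL0)
    have k2 : |h * θ * mc ^ (h - 1) * ((b : ℝ) + β * i₀ - mc)| ≤ a := by
      rw [abs_mul, abs_of_pos (by positivity : 0 < h * θ * mc ^ (h - 1)), ha]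
      calc h * θ * mc ^ (h - 1) * |(b : ℝ) + β * i₀ - mc| ≤ h * θ * mc ^ (h - 1) * β := by gcongr
        _ = β * h * θ * mc ^ (h - 1) := by ring
    have k3 := abs_add_le (θ * ((b : ℝ) + β * i₀) ^ h - θ * mc ^ h -
      h * θ * mc ^ (h - 1) * ((b : ℝ) + β * i₀ - mc)) (h * θ * mc ^ (h - 1) * ((b : ℝ) + β * i₀ - mc))
    rw [sub_add_cancel] at k3
    linarith
  have hZ0 : |θ * ((c : ℝ) + γ * j₀) ^ h - θ * nc ^ h| ≤ a' + 1 / 200 := by
    have k1 := lin_bound h hh η θ M nc L ((c : ℝ) + γ * j₀) nc hη hM hθ h2 hn1 hn2 hL0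
      (hL ▸ hL1) (hL ▸ hL2) (hj₀.trans hγL) (by simpa using hL0)
    have k2 : |h * θ * nc ^ (h - 1) * ((c : ℝ) + γ * j₀ - nc)| ≤ a' := by
      rw [abs_mul, abs_of_pos (by positivity : 0 < h * θ * nc ^ (h - 1)), ha']
      calc h * θ * nc ^ (h - 1) * |(c : ℝ) + γ * j₀ - nc| ≤ h * θ * nc ^ (h - 1) * γ := by gcongr
        _ = γ * h * θ * nc ^ (h - 1) := by ring
    have k3 := abs_add_le (θ * ((c : ℝ) + γ * j₀) ^ h - θ * nc ^ h -
      h * θ * nc ^ (h - 1) * ((c : ℝ) + γ * j₀ - nc)) (h * θ * nc ^ (h - 1) * ((c : ℝ) + γ * j₀ - nc))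
    rw [sub_add_cancel] at k3
    linarith
  obtain ⟨S, hS⟩ : ∃ S : ℝ, S = |(T : ℝ) + 1 - θ * ((b : ℝ) + β * i₀) ^ h -
    θ * ((c : ℝ) + γ * j₀) ^ h| := ⟨_, rfl⟩
  have hSle : S ≤ a + a' + 2 := by
    rw [hS, ← hT, abs_le]
    rw [abs_le] at hX0 hZ0
    constructor <;> linarith [hX0.1, hX0.2, hZ0.1, hZ0.2]
  have hS0 : 0 ≤ S := by rw [hS]; exact abs_nonneg _
  obtain ⟨J, hJ⟩ : ∃ J, J = (a * I + S + 2) / a' := ⟨_, rfl⟩
  have hJL : γ * (7 * J) + γ ≤ L := by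
    have k1 : J ≤ a / a' * (I + 1) + 1 + 4 * (1 / a') := by
      rw [hJ, div_le_iff₀ ha'0]
      have : (a / a' * (I + 1) + 1 + 4 * (1 / a')) * a' = a * (I + 1) + a' + 4 := by
        field_simp
      rw [this]
      linarith
    have k2 : γ * J ≤ 2 * β * (I + 1) + γ + 4 * 12 ^ h := by
      calc γ * J ≤ γ * (a / a' * (I + 1) + 1 + 4 * (1 / a')) := by gcongr
        _ = γ * (a / a') * (I + 1) + γ + 4 * (γ / a') := by ring
        _ ≤ 2 * β * (I + 1) + γ + 4 * 12 ^ h := by gcongr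
    have k3 : 2 * β * (I + 1) ≤ 6 * (β * (A / t1)) + 14 * β := by
      rw [hI]
      have : β * (9 * a' / t1) ≤ β * (3 * (A / t1)) := by gcongr
      linarith
    linarith
  have key : ∃ i j : ℤ, |((i - i₀ : ℤ) : ℝ)| ≤ 7 * I ∧ |((j - j₀ : ℤ) : ℝ)| ≤ 7 * J ∧
      ⌊(fun i : ℤ => θ * ((b : ℝ) + β * i) ^ h) i + rho i⌋ +
      ⌊(fun j : ℤ => θ * ((c : ℝ) + γ * j) ^ h) j + rho j⌋ = T := by
    apply rounding (fun i : ℤ => θ * ((b : ℝ) + β * i) ^ h)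
      (fun j : ℤ => θ * ((c : ℝ) + γ * j) ^ h) a a' I J i₀ j₀ T
    · intro i hi
      have k1 : |(b : ℝ) + β * i - mc| ≤ L := by
        have e : (b : ℝ) + β * i - mc = β * ((i - i₀ : ℤ) : ℝ) + ((b : ℝ) + β * i₀ - mc) := by
          push_cast; ring
        rw [e]
        refine (abs_add_le _ _).trans ?_
        rw [abs_mul, abs_of_nonneg (by linarith : (0 : ℝ) ≤ β)]
        have : β * |((i - i₀ : ℤ) : ℝ)| ≤ β * (7 * I) := by gcongr
        linarith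
      have k2 := lin_bound h hh η θ M mc L ((b : ℝ) + β * i) ((b : ℝ) + β * i₀) hη hM hθ h2 hm1 hm2
        hL0 (hL ▸ hL1) (hL ▸ hL2) k1 (hi₀.trans hβL)
      have e : a * ((i - i₀ : ℤ) : ℝ) =
          h * θ * mc ^ (h - 1) * ((b : ℝ) + β * i - ((b : ℝ) + β * i₀)) := by
        rw [ha]; push_cast; ring
      rw [e]
      exact k2
    · intro j hj
      have k1 : |(c : ℝ) + γ * j - nc| ≤ L := by
        have e : (c : ℝ) + γ * j - nc = γ * ((j - j₀ : ℤ) : ℝ) + ((c : ℝ) + γ * j₀ - nc) := by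
          push_cast; ring
        rw [e]
        refine (abs_add_le _ _).trans ?_
        rw [abs_mul, abs_of_nonneg (by linarith : (0 : ℝ) ≤ γ)]
        have : γ * |((j - j₀ : ℤ) : ℝ)| ≤ γ * (7 * J) := by gcongr
        linarith
      have k2 := lin_bound h hh η θ M nc L ((c : ℝ) + γ * j) ((c : ℝ) + γ * j₀) hη hM hθ h2 hn1 hn2
        hL0 (hL ▸ hL1) (hL ▸ hL2) k1 (hj₀.trans hγL)
      have e : a' * ((j - j₀ : ℤ) : ℝ) =
          h * θ * nc ^ (h - 1) * ((c : ℝ) + γ * j - ((c : ℝ) + γ * j₀)) := by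
        rw [ha']; push_cast; ring
      rw [e]
      exact k2
    · intro p p' σ hσ
      have hdm := density_mod3 a a' t1 ⌊1 + 200 * A⌋₊ ha0 ha'0 ht10 ht1s (by
          have := Nat.lt_floor_add_one (1 + 200 * A)
          linarith) (by
          intro i hi1 hiQ j
          have hiQ' : (i : ℝ) ≤ 1 + 200 * A := by
            have k1 : (⌊1 + 200 * A⌋₊ : ℝ) ≤ 1 + 200 * A := Nat.floor_le (by linarith)
            have k2 : (i : ℝ) ≤ (⌊1 + 200 * A⌋₊ : ℝ) := by exact_mod_cast hiQ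
            linarith
          have hg := hG i hi1 (by rw [← hA]; exact hiQ') j
          rw [← ht1, ← hAm, ← hth] at hg
          have hi0 : (0 : ℝ) ≤ i := by positivity
          have hd1 : |(i : ℝ) * (th * Real.exp w) - i * th| ≤ t1 / Am := by
            have e : (i : ℝ) * (th * Real.exp w) - i * th = i * th * (Real.exp w - 1) := by ring
            rw [e, abs_mul, abs_of_nonneg (by positivity)]
            calc (i : ℝ) * th * |Real.exp w - 1|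
                ≤ (1 + 200 * A) * ((β : ℝ) / γ) * (2 * (2 * h / Ω)) := by gcongr
              _ = (4 * h * β * (1 + 200 * A) * Am) / (Am * γ * Ω) := by
                  field_simp
                  ring
              _ ≤ (t1 * γ * Ω) / (Am * γ * Ω) := by
                  rw [hA, hAm, ht1]
                  have : 0 < Amin h η γ * γ * Ω := by rw [← hAm]; positivity
                  gcongr
              _ = t1 / Am := by field_simp
          have hd2 : t1 / Am < |(i : ℝ) * (th * Real.exp w) - j| := by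
            have k1 : |(i : ℝ) * th - j| ≤ |(i : ℝ) * (th * Real.exp w) - j| +
                |(i : ℝ) * (th * Real.exp w) - i * th| := by
              have h01 := abs_sub_le ((i : ℝ) * th) ((i : ℝ) * (th * Real.exp w)) (j : ℝ)
              have h02 := abs_sub_comm ((i : ℝ) * th) ((i : ℝ) * (th * Real.exp w))
              linarith
            have k2 : 2 * t1 / Am = t1 / Am + t1 / Am := by ring
            rw [k2] at hg
            linarith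
          have e : 3 * a * i - 3 * a' * j = 3 * a' * ((i : ℝ) * (th * Real.exp w) - j) := by
            rw [hrat]; ring
          rw [e, abs_mul, abs_of_pos (by positivity)]
          calc t1 = Am * (t1 / Am) := by field_simp
            _ ≤ 3 * a' * (t1 / Am) := by gcongr
            _ < 3 * a' * |(i : ℝ) * (th * Real.exp w) - j| := by gcongr) p p' σ
      obtain ⟨i, j, q1, q2, q3, q4, q5⟩ := hdm
      refine ⟨i, j, ?_, ?_, q1, q2, q3⟩
      · rw [hI]; exact q4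
      · refine q5.trans ?_
        rw [hJ, ← hI]
        have : |σ| ≤ S + 1 := by rw [hS]; exact hσ
        rw [div_le_div_iff_of_pos_right ha'0]
        linarith
  obtain ⟨i, j, q1, q2, q3⟩ := key
  refine ⟨i, j, ?_, ?_, q3⟩
  · rw [← hL]
    have e : (b : ℝ) + β * i - mc = β * ((i - i₀ : ℤ) : ℝ) + ((b : ℝ) + β * i₀ - mc) := by
      push_cast; ring
    rw [e]
    refine (abs_add_le _ _).trans ?_
    rw [abs_mul, abs_of_nonneg (by linarith : (0 : ℝ) ≤ β)]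
    have : β * |((i - i₀ : ℤ) : ℝ)| ≤ β * (7 * I) := by gcongr
    linarith
  · rw [← hL]
    have e : (c : ℝ) + γ * j - nc = γ * ((j - j₀ : ℤ) : ℝ) + ((c : ℝ) + γ * j₀ - nc) := by
      push_cast; ring
    rw [e]
    refine (abs_add_le _ _).trans ?_
    rw [abs_mul, abs_of_nonneg (by linarith : (0 : ℝ) ≤ γ)]
    have : γ * |((j - j₀ : ℤ) : ℝ)| ≤ γ * (7 * J) := by gcongr
    linarith

end Pool.Agent.Helper112.CB.Ksc

namespace Pool.Agent.Helper112.CB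

theorem system_core (h : ℕ) (hh : 2 ≤ h) (β γ : ℕ) (η θ Ω M mc nc y : ℝ) (b c : ℕ) (T : ℤ)
    (hβ : 1 ≤ β) (hγ : 1 ≤ γ) (hη : 1 ≤ η) (hΩ : 100 * h ≤ Ω) (hM : 0 < M) (hθ : 0 < θ)
    (h1 : η ≤ θ * M ^ (h - 1)) (h2 : θ * M ^ (h - 1) ≤ 2 * η)
    (hm1 : 2 / 5 * M ≤ mc) (hm2 : mc ≤ 5 / 2 * M) (hn1 : 2 / 5 * M ≤ nc) (hn2 : nc ≤ 5 / 2 * M)
    (hT : θ * (mc ^ h + nc ^ h) = T) (hy : 0 ≤ y) (hlog : |Real.log nc - Real.log mc - y| ≤ 2 / Ω)
    (hG : Good h η β γ y)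
    (hL1 : 100 * Lbox h η β γ ≤ M)
    (hL2 : 1600 * η * h ^ 2 * 3 ^ h * (Lbox h η β γ) ^ 2 ≤ M)
    (hL3 : 4 * h * β * (1 + 200 * Amax h η γ) * Amin h η γ ≤ tau1 h * γ * Ω) :
    ∃ i j : ℤ, |(b : ℝ) + β * i - mc| ≤ Lbox h η β γ ∧ |(c : ℝ) + γ * j - nc| ≤ Lbox h η β γ ∧
      ⌊θ * ((b : ℝ) + β * i) ^ h + rho i⌋ + ⌊θ * ((c : ℝ) + γ * j) ^ h + rho j⌋ = T := by
  exact Ksc.system_core h hh β γ η θ Ω M mc nc y b c T hβ hγ hη hΩ hM hθ h1 h2 hm1 hm2 hn1 hn2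
    hT hy hlog hG hL1 hL2 hL3

end Pool.Agent.Helper112.CB
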