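import Pool.Agent.Helper112.Cb.Defs
import Pool.Agent.Helper112.Cb.Kce
import Pool.Agent.Helper112.Cb.Kfl
import Pool.Agent.Helper112.Cb.Ksc

open Finset

namespace Pool.Agent.Helper112.CB.Ksy

/- TARGET -/
set_option maxHeartbeats 4000000 in
theorem system (h : ℕ) (hh : 2 ≤ h) : ∃ c₅ : ℝ, 0 < c₅ ∧ ∀ (β γ : ℕ) (η ω : ℝ), 1 ≤ β → 1 ≤ γ →
    1 ≤ η → 0 < ω → ω * β * γ * η ≤ c₅ →
    ∃ M₀ : ℕ, ∀ M : ℕ, M₀ ≤ M → ∀ (θ Ω : ℝ), η ≤ θ * M ^ (h - 1) → θ * M ^ (h - 1) ≤ 2 * η →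
      ω * M / 2 ≤ Ω → Ω ≤ ω * M → ∀ (d T : ℤ) (b : ℕ) (c : ℕ → ℕ), b < β → (∀ v, c v < γ) →
      0 ≤ (d : ℝ) / Ω → (d : ℝ) / Ω ≤ 1 / (5 * h) → Good h η β γ (d / Ω) →
      θ * M ^ h / 2 ≤ T → (T : ℝ) ≤ 2 ^ h * (θ * M ^ h) →
      ∃ v i j : ℕ, v < 2 ∧ M ≤ 4 * (b + β * i) ∧ b + β * i ≤ 3 * M ∧
        M ≤ 4 * (c v + γ * j) ∧ c v + γ * j ≤ 3 * M ∧
        ⌊Ω * Real.log (((c v + γ * j : ℕ) : ℝ) / M)⌋ - ⌊Ω * Real.log (((b + β * i : ℕ) : ℝ) / M)⌋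
          = d - v ∧
        ⌊θ * ((b + β * i : ℕ) : ℝ) ^ h + rho i⌋ + ⌊θ * ((c v + γ * j : ℕ) : ℝ) ^ h + rho j⌋ = T := by
  have htau : 0 < tau1 h := by
    unfold tau1
    positivity
  have hh0 : (0 : ℝ) < h := by
    have : 0 < h := by omega
    exact_mod_cast this
  refine ⟨36 / 1000 * tau1 h / (600 * h * 3 ^ (h - 1)), by positivity, ?_⟩
  intro β γ η ω hβ hγ hη hω hωc
  have hβ0 : (0 : ℝ) < β := by exact_mod_cast hβ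
  have hγ0 : (0 : ℝ) < γ := by exact_mod_cast hγ
  have hη0 : (0 : ℝ) < η := by linarith
  have hAmax : 0 < Amax h η γ := by
    unfold Amax
    positivity
  have hAmin : 0 < Amin h η γ := by
    unfold Amin
    positivity
  have hL0 : 0 < Lbox h η β γ := by
    unfold Lbox
    positivity
  -- the bound for `L`
  have hLω : Lbox h η β γ * ω ≤ 36 / 1000 := by
    have e1 : Lbox h η β γ * ω = 600 * h * 3 ^ (h - 1) * (ω * β * γ * η) / tau1 h := by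
      unfold Lbox Amax
      ring
    rw [e1, div_le_iff₀ htau]
    have h3 : 0 < 600 * (h : ℝ) * 3 ^ (h - 1) := by positivity
    rw [le_div_iff₀ h3] at hωc
    linarith
  set L := Lbox h η β γ with hL
  set K : ℝ := 1 + 100 * L + 1600 * η * h ^ 2 * 3 ^ h * L ^ 2 + 200 * h / ω +
    8 * h * β * (1 + 200 * Amax h η γ) * Amin h η γ / (tau1 h * γ * ω) with hK
  have p1 : 0 ≤ 100 * L := by positivity
  have p2 : 0 ≤ 1600 * η * h ^ 2 * 3 ^ h * L ^ 2 := by positivity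
  have p3 : 0 ≤ 200 * h / ω := by positivity
  have p4 : 0 ≤ 8 * h * β * (1 + 200 * Amax h η γ) * Amin h η γ / (tau1 h * γ * ω) := by
    positivity
  refine ⟨⌈K⌉₊, ?_⟩
  intro M hM θ Ω hθ1 hθ2 hΩ1 hΩ2 d T b c hb hc hd0 hd1 hG hT1 hT2
  have hMK : K ≤ M := (Nat.le_ceil K).trans (by exact_mod_cast hM)
  have hM0 : (0 : ℝ) < M := by linarith
  have q1 : 100 * L ≤ M := by linarith
  have q2 : 1600 * η * h ^ 2 * 3 ^ h * L ^ 2 ≤ M := by linarith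
  have q3 : 200 * h / ω ≤ M := by linarith
  have q4 : 8 * h * β * (1 + 200 * Amax h η γ) * Amin h η γ / (tau1 h * γ * ω) ≤ M := by
    linarith
  have hΩ100 : 100 * (h : ℝ) ≤ Ω := by
    rw [div_le_iff₀ hω] at q3
    linarith
  have hh2 : (2 : ℝ) ≤ h := by exact_mod_cast hh
  have hΩ0 : 0 < Ω := by linarith
  have hΩ1' : 1 ≤ Ω := by linarith
  have q4' : 4 * h * β * (1 + 200 * Amax h η γ) * Amin h η γ ≤ tau1 h * γ * Ω := by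
    rw [div_le_iff₀ (by positivity)] at q4
    have : tau1 h * γ * (ω * M / 2) ≤ tau1 h * γ * Ω :=
      mul_le_mul_of_nonneg_left hΩ1 (by positivity)
    linarith
  have hMp : 0 < (M : ℝ) ^ (h - 1) := by positivity
  have hθ0 : 0 < θ := by
    by_contra hcon
    push Not at hcon
    have : θ * (M : ℝ) ^ (h - 1) ≤ 0 := mul_nonpos_of_nonpos_of_nonneg hcon hMp.le
    linarith
  have hR1 : (M : ℝ) ^ h / 2 ≤ T / θ := by
    rw [le_div_iff₀ hθ0]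
    linarith
  have hR2 : (T : ℝ) / θ ≤ 2 ^ h * (M : ℝ) ^ h := by
    rw [div_le_iff₀ hθ0]
    linarith
  obtain ⟨v, mc, nc, hv, hm1, hm2, hn1, hn2, hsum, f1, f2, f3, f4, hfl, hlog⟩ :=
    center h hh Ω M (T / θ) d hΩ100 hM0 hd0 hd1 hR1 hR2
  have hTT : θ * (mc ^ h + nc ^ h) = T := by
    rw [hsum]
    field_simp
  obtain ⟨i, j, hi, hj, hij⟩ := system_core h hh β γ η θ Ω M mc nc (d / Ω) b (c v) T hβ hγ hη
    hΩ100 hM0 hθ0 hθ1 hθ2 hm1 hm2 hn1 hn2 hTT hd0 hlog hG q1 q2 q4'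
  have hmc0 : 0 < mc := by linarith [mul_pos (by norm_num : (0:ℝ) < 2 / 5) hM0]
  have hnc0 : 0 < nc := by linarith [mul_pos (by norm_num : (0:ℝ) < 2 / 5) hM0]
  have hkey : ∀ z : ℝ, 2 / 5 * (M : ℝ) ≤ z → L ≤ 9 / 100 * z / Ω := by
    intro z hz
    rw [le_div_iff₀ hΩ0]
    have h1 : L * Ω ≤ L * (ω * M) := mul_le_mul_of_nonneg_left hΩ2 hL0.le
    have h2 : L * (ω * M) ≤ 36 / 1000 * M := by
      have := mul_le_mul_of_nonneg_right hLω hM0.le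
      linarith
    linarith
  obtain ⟨hm0, hmfl⟩ := floor_local Ω M mc (b + β * i) hΩ1' hM0 hmc0 (hi.trans (hkey mc hm1)) f1 f2
  obtain ⟨hn0, hnfl⟩ := floor_local Ω M nc (c v + γ * j) hΩ1' hM0 hnc0 (hj.trans (hkey nc hn1))
    f3 f4
  have hnonneg : ∀ (β' b' : ℕ) (i' : ℤ), b' < β' → (0 : ℝ) < b' + β' * i' → 0 ≤ i' := by
    intro β' b' i' hb' hpos
    by_contra hcon
    push Not at hcon
    have h1 : (0 : ℤ) < b' + β' * i' := by exact_mod_cast hpos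
    have h2 : (b' : ℤ) < β' := by exact_mod_cast hb'
    have h3 : i' ≤ -1 := by omega
    nlinarith
  have hi0 := hnonneg β b i hb hm0
  have hj0 := hnonneg γ (c v) j (hc v) hn0
  obtain ⟨i', rfl⟩ := Int.eq_ofNat_of_zero_le hi0
  obtain ⟨j', rfl⟩ := Int.eq_ofNat_of_zero_le hj0
  have e1 : ((b + β * i' : ℕ) : ℝ) = (b : ℝ) + β * ((i' : ℤ) : ℝ) := by push_cast; ring
  have e2 : ((c v + γ * j' : ℕ) : ℝ) = (c v : ℝ) + γ * ((j' : ℤ) : ℝ) := by push_cast; ring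
  have hi' := abs_le.1 hi
  have hj' := abs_le.1 hj
  refine ⟨v, i', j', hv, ?_, ?_, ?_, ?_, ?_, ?_⟩
  · have : (M : ℝ) ≤ 4 * ((b + β * i' : ℕ) : ℝ) := by
      rw [e1]
      linarith [hi'.1]
    exact_mod_cast this
  · have : ((b + β * i' : ℕ) : ℝ) ≤ 3 * (M : ℝ) := by
      rw [e1]
      linarith [hi'.2]
    exact_mod_cast this
  · have : (M : ℝ) ≤ 4 * ((c v + γ * j' : ℕ) : ℝ) := by
      rw [e2]
      linarith [hj'.1]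
    exact_mod_cast this
  · have : ((c v + γ * j' : ℕ) : ℝ) ≤ 3 * (M : ℝ) := by
      rw [e2]
      linarith [hj'.2]
    exact_mod_cast this
  · rw [e1, e2, hmfl, hnfl]
    exact hfl
  · rw [e1, e2]
    exact hij

end Pool.Agent.Helper112.CB.Ksy

namespace Pool.Agent.Helper112.CB

theorem system (h : ℕ) (hh : 2 ≤ h) : ∃ c₅ : ℝ, 0 < c₅ ∧ ∀ (β γ : ℕ) (η ω : ℝ), 1 ≤ β → 1 ≤ γ →
    1 ≤ η → 0 < ω → ω * β * γ * η ≤ c₅ →
    ∃ M₀ : ℕ, ∀ M : ℕ, M₀ ≤ M → ∀ (θ Ω : ℝ), η ≤ θ * M ^ (h - 1) → θ * M ^ (h - 1) ≤ 2 * η →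
      ω * M / 2 ≤ Ω → Ω ≤ ω * M → ∀ (d T : ℤ) (b : ℕ) (c : ℕ → ℕ), b < β → (∀ v, c v < γ) →
      0 ≤ (d : ℝ) / Ω → (d : ℝ) / Ω ≤ 1 / (5 * h) → Good h η β γ (d / Ω) →
      θ * M ^ h / 2 ≤ T → (T : ℝ) ≤ 2 ^ h * (θ * M ^ h) →
      ∃ v i j : ℕ, v < 2 ∧ M ≤ 4 * (b + β * i) ∧ b + β * i ≤ 3 * M ∧
        M ≤ 4 * (c v + γ * j) ∧ c v + γ * j ≤ 3 * M ∧
        ⌊Ω * Real.log (((c v + γ * j : ℕ) : ℝ) / M)⌋ - ⌊Ω * Real.log (((b + β * i : ℕ) : ℝ) / M)⌋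
          = d - v ∧
        ⌊θ * ((b + β * i : ℕ) : ℝ) ^ h + rho i⌋ + ⌊θ * ((c v + γ * j : ℕ) : ℝ) ^ h + rho j⌋ = T := by
  first
    | exact Ksy.system
    | (apply Ksy.system <;> assumption)

end Pool.Agent.Helper112.CB
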