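import Pool.Agent.Helper112.Cb.Defs
import Pool.Agent.Helper112.Cb.Kgo
import Pool.Agent.Helper112.Cb.Ksy

open Finset

namespace Pool.Agent.Helper112.CB.Ksg

open Classical in
theorem enum_exists (F : Finset ℕ) : ∃ t : ℕ → ℕ, (∀ k < F.card, t k ∈ F) ∧
    ∀ l ∈ F, ∃ k < F.card, t k = l := by
  refine ⟨fun k => if hk : k < F.card then (F.equivFin.symm ⟨k, hk⟩ : ℕ) else 0, ?_, ?_⟩
  · intro k hk
    simp only [hk, dif_pos]
    exact (F.equivFin.symm ⟨k, hk⟩).2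
  · intro l hl
    refine ⟨(F.equivFin ⟨l, hl⟩ : ℕ), (F.equivFin ⟨l, hl⟩).2, ?_⟩
    simp

lemma floor_aux (a r : ℝ) (h0 : 0 ≤ r) (h1 : r ≤ 1) : |(⌊a + r⌋ : ℝ) - a| ≤ 2 := by
  have h2 := Int.floor_le (a + r)
  have h3 := Int.lt_floor_add_one (a + r)
  rw [abs_le]; constructor <;> linarith

lemma rho_bd (i : ℤ) : 0 ≤ rho i ∧ rho i ≤ 1 := by
  unfold rho
  split_ifs <;> norm_num

lemma log_aux {M n : ℕ} (hM : 1 ≤ M) (h1 : M ≤ 4 * n) (h2 : n ≤ 3 * M) :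
    |Real.log ((n : ℝ) / M)| ≤ 3 := by
  have hM' : (0 : ℝ) < M := by exact_mod_cast hM
  have hn : 0 < n := by omega
  have hn' : (0 : ℝ) < n := by exact_mod_cast hn
  have h1' : (M : ℝ) ≤ 4 * n := by exact_mod_cast h1
  have h2' : (n : ℝ) ≤ 3 * M := by exact_mod_cast h2
  have hpos : (0 : ℝ) < n / M := by positivity
  rw [abs_le]
  constructor
  · have := Real.one_sub_inv_le_log_of_pos hpos
    have h3 : ((n : ℝ) / M)⁻¹ ≤ 4 := by
      rw [inv_div, div_le_iff₀ hn']; exact h1'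
    linarith
  · have := Real.log_le_sub_one_of_pos hpos
    have h3 : (n : ℝ) / M ≤ 3 := by rw [div_le_iff₀ hM']; exact h2'
    linarith

lemma floor_abs {Om L S : ℝ} (hOm : 0 ≤ Om) (hL : |L| ≤ 3) (hOS : Om ≤ S) (hS : 1 ≤ S) :
    |(⌊Om * L⌋ : ℝ)| ≤ 4 * S := by
  have h2 := Int.floor_le (Om * L)
  have h3 := Int.lt_floor_add_one (Om * L)
  have h4 : |Om * L| ≤ S * 3 := by
    rw [abs_mul, abs_of_nonneg hOm]
    exact mul_le_mul hOS hL (abs_nonneg _) (by linarith)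
  have h5 := abs_le.1 h4
  rw [abs_le]; constructor <;> linarith [h5.1, h5.2]

set_option maxHeartbeats 2000000 in
/- TARGET -/
theorem serve_golden (h : ℕ) (hh : 2 ≤ h) : ∃ C : ℝ, 0 < C ∧ ∀ (P η : ℝ) (q Z : ℕ) (F : Finset ℕ),
    0 < P → P ≤ 1 → 1 ≤ η → 1 ≤ q → 1 ≤ Z → F ⊆ range Z →
    C * (F.card : ℝ) ^ 2 * q ^ 4 * η ^ 2 ≤ Z → Serve h P η q Z F := by
  obtain ⟨c5, hc5, hsys⟩ := system h hh
  obtain ⟨c, hc, hc1, hgold⟩ := golden h hh
  refine ⟨1280 ^ 2 / (c * c5) + 1280 / c, by positivity, fun P η q Z F hP hP1 hη hq hZ hFZ hC => ?_⟩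
  have hη0 : 0 < η := by linarith
  have hqR : (1 : ℝ) ≤ q := by exact_mod_cast hq
  have hZR : (1 : ℝ) ≤ Z := by exact_mod_cast hZ
  rcases F.eq_empty_or_nonempty with hF | hF
  · subst hF
    refine ⟨Z, hZ, dvd_rfl, 0, fun M _ s _ _ _ θ _ _ ρ _ => ⟨fun n => ⌊θ * n ^ h + 0⌋, fun _ => 0, ?_, ?_⟩⟩
    · intro n _ _
      refine ⟨floor_aux _ 0 le_rfl zero_le_one, ?_⟩
      simp; positivity
    · intro l hl; simp at hl
  obtain ⟨K, hK⟩ : ∃ K, K = F.card := ⟨_, rfl⟩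
  have hK1 : 1 ≤ K := by rw [hK]; exact Finset.card_pos.2 hF
  have hKR : (1 : ℝ) ≤ K := by exact_mod_cast hK1
  rw [← hK] at hC
  obtain ⟨t, ht1, ht2⟩ := enum_exists F
  rw [← hK] at ht1 ht2
  obtain ⟨β, hβ⟩ : ∃ β : ℕ, β = 4 * q := ⟨_, rfl⟩
  obtain ⟨γ, hγ⟩ : ∃ γ : ℕ, γ = 320 * q * K := ⟨_, rfl⟩
  have hβ1 : 1 ≤ β := by omega
  have hqK : q ≤ q * K := Nat.le_mul_of_pos_right q hK1
  have hβγ : 40 * β ≤ γ := by
    rw [hβ, hγ, mul_assoc]; omega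
  have hβR : (β : ℝ) = 4 * q := by rw [hβ]; push_cast; ring
  have hγR : (γ : ℝ) = 320 * q * K := by rw [hγ]; push_cast; ring
  have hβpos : (0 : ℝ) < β := by rw [hβR]; linarith
  have hγpos : (0 : ℝ) < γ := by rw [hγR]; positivity
  obtain ⟨y₀, hy0, hy1, hgood⟩ := hgold β γ η hβ1 hβγ hη
  obtain ⟨κ, hκ⟩ : ∃ κ : ℝ, κ = c / (β * γ * η ^ 2) := ⟨_, rfl⟩
  rw [← hκ] at hy1 hgood
  have hκpos : 0 < κ := by rw [hκ]; positivity
  obtain ⟨ω, hω⟩ : ∃ ω : ℝ, ω = P / (η * Z * κ) := ⟨_, rfl⟩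
  have hωpos : 0 < ω := by rw [hω]; positivity
  have hβγR : (β : ℝ) * γ = 1280 * q ^ 2 * K := by rw [hβR, hγR]; ring
  have hKq : (K : ℝ) * q ^ 2 ≤ K ^ 2 * q ^ 4 := by
    have h1 : (1 : ℝ) ≤ K * q ^ 2 := by nlinarith [mul_le_mul hqR hqR zero_le_one (by linarith)]
    have h2 : (K : ℝ) ^ 2 * q ^ 4 = (K * q ^ 2) * (K * q ^ 2) := by ring
    rw [h2]; nlinarith
  have hCa : 1280 ^ 2 / (c * c5) * ((K : ℝ) ^ 2 * q ^ 4 * η ^ 2) ≤ Z := by
    have h1 : 0 ≤ 1280 / c * ((K : ℝ) ^ 2 * q ^ 4 * η ^ 2) := by positivity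
    nlinarith
  have hCb : 1280 / c * ((K : ℝ) ^ 2 * q ^ 4 * η ^ 2) ≤ Z := by
    have h1 : 0 ≤ 1280 ^ 2 / (c * c5) * ((K : ℝ) ^ 2 * q ^ 4 * η ^ 2) := by positivity
    nlinarith
  have hωc : ω * β * γ * η ≤ c5 := by
    have h1 : ω * β * γ * η = P * ((β * γ) ^ 2 * η ^ 2) / (c * Z) := by
      rw [hω, hκ]; field_simp
    rw [h1, hβγR, div_le_iff₀ (by positivity)]
    have h2 : 1280 ^ 2 * ((K : ℝ) ^ 2 * q ^ 4 * η ^ 2) ≤ c5 * (c * Z) := by
      have h3 := mul_le_mul_of_nonneg_left hCa (show 0 ≤ c * c5 by positivity)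
      have h4 : c * c5 * (1280 ^ 2 / (c * c5) * ((K : ℝ) ^ 2 * q ^ 4 * η ^ 2)) =
        1280 ^ 2 * ((K : ℝ) ^ 2 * q ^ 4 * η ^ 2) := by field_simp
      rw [h4] at h3
      linarith
    calc P * ((1280 * (q : ℝ) ^ 2 * K) ^ 2 * η ^ 2) ≤ 1 * ((1280 * (q : ℝ) ^ 2 * K) ^ 2 * η ^ 2) := by gcongr
      _ = 1280 ^ 2 * ((K : ℝ) ^ 2 * q ^ 4 * η ^ 2) := by ring
      _ ≤ _ := h2
  obtain ⟨M₀', hM₀'⟩ := hsys β γ η ω hβ1 (by omega) hη hωpos hωc
  refine ⟨Z, hZ, dvd_rfl, max M₀' (⌈2 * η / P⌉₊ + 1), fun M hM s hZs hs1 hs2 θ hθ1 hθ2 ρ₀ hρ₀ => ?_⟩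
  have hM1 : M₀' ≤ M := (le_max_left _ _).trans hM
  have hM2 : ⌈2 * η / P⌉₊ + 1 ≤ M := (le_max_right _ _).trans hM
  have hMpos : 1 ≤ M := by omega
  have hMR : (0 : ℝ) < M := by exact_mod_cast hMpos
  have hsR : (1 : ℝ) ≤ s := by
    refine le_trans ?_ hs1
    rw [le_div_iff₀ (by positivity)]
    have h1 : 2 * η / P ≤ M := (Nat.le_ceil _).trans (by
      have : ⌈2 * η / P⌉₊ ≤ M := by omega
      exact_mod_cast this)
    rw [div_le_iff₀ hP] at h1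
    linarith
  obtain ⟨s', hs'⟩ := hZs
  have hsdiv : s / Z = s' := by rw [hs', Nat.mul_div_cancel_left _ (by omega)]
  have hs'1 : 1 ≤ s' := by
    rcases Nat.eq_zero_or_pos s' with h0 | h0
    · rw [h0, mul_zero] at hs'
      rw [hs'] at hsR
      norm_num at hsR
    · exact h0
  have hs'R : (1 : ℝ) ≤ s' := by exact_mod_cast hs'1
  have hsZ : (s : ℝ) = Z * s' := by rw [hs']; push_cast; ring
  obtain ⟨Om, hOm⟩ : ∃ Om : ℝ, Om = s' / κ := ⟨_, rfl⟩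
  have hOmpos : 0 < Om := by rw [hOm]; positivity
  have hOms : Om = s / (Z * κ) := by rw [hOm, hsZ]; field_simp
  have hOm1 : ω * M / 2 ≤ Om := by
    rw [hOms, hω]
    calc P / (η * Z * κ) * M / 2 = (P * M / (2 * η)) / (Z * κ) := by field_simp
      _ ≤ s / (Z * κ) := by gcongr
  have hOm2 : Om ≤ ω * M := by
    rw [hOms, hω]
    calc s / (Z * κ) ≤ (P * M / η) / (Z * κ) := by gcongr
      _ = P / (η * Z * κ) * M := by field_simp
  have hOmS : Om ≤ s := by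
    have h1 : Om = s' * (1280 / c * (K * q ^ 2 * η ^ 2)) := by
      rw [hOm, hκ, hβγR]; field_simp
    have h2 : 1280 / c * (K * q ^ 2 * η ^ 2) ≤ (Z : ℝ) := by
      refine le_trans ?_ hCb
      gcongr
    rw [h1, hsZ, mul_comm (Z : ℝ)]
    exact mul_le_mul_of_nonneg_left h2 (by linarith)
  obtain ⟨dg, hdg⟩ : ∃ dg : ℤ, dg = ⌈Om * y₀⌉ := ⟨_, rfl⟩
  have hdg1 : Om * y₀ ≤ dg := by rw [hdg]; exact Int.le_ceil _
  have hdg2 : (dg : ℝ) < Om * y₀ + 1 := by rw [hdg]; exact Int.ceil_lt_add_one _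
  have hy01 : y₀ ≤ 1 := by
    have h1 : 1 / (5 * (h : ℝ)) ≤ 1 := by
      have : (2 : ℝ) ≤ h := by exact_mod_cast hh
      rw [div_le_one (by positivity)]; linarith
    linarith
  have hOmy : Om * y₀ ≤ Om := mul_le_of_le_one_right hOmpos.le hy01
  have hOmy0 : 0 ≤ Om * y₀ := by positivity
  -- definitions
  refine ⟨fun n => if n % (4 * q) = ρ₀ then ⌊θ * n ^ h + rho ((n / (4 * q) : ℕ) : ℤ)⌋
      else if n % (4 * q) = ρ₀ + q ∧ (n % γ) / (4 * q) < 2 * K then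
        ⌊θ * n ^ h + rho ((n / γ : ℕ) : ℤ)⌋ else ⌊θ * n ^ h + 0⌋,
    fun n => if n % (4 * q) = ρ₀ then -⌊Om * Real.log ((n : ℝ) / M)⌋
      else if n % (4 * q) = ρ₀ + q ∧ (n % γ) / (4 * q) < 2 * K then
        (t ((n % γ) / (4 * q) / 2) * s' : ℕ) - dg + (((n % γ) / (4 * q) % 2 : ℕ) : ℤ) +
          ⌊Om * Real.log ((n : ℝ) / M)⌋ else 0, ?_, ?_⟩
  · intro n hn1 hn2
    have hfl := floor_abs hOmpos.le (log_aux hMpos hn1 hn2) hOmS hsR
    have hfl' := abs_le.1 hfl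
    have hhR : (1 : ℝ) ≤ h := by
      have : (2 : ℝ) ≤ h := by exact_mod_cast hh
      linarith
    have hbig : 8 * (s : ℝ) ≤ 100 * h * s := mul_le_mul_of_nonneg_right (by linarith) (by linarith)
    constructor
    · dsimp only
      split_ifs
      · exact floor_aux _ _ (rho_bd _).1 (rho_bd _).2
      · exact floor_aux _ _ (rho_bd _).1 (rho_bd _).2
      · exact floor_aux _ 0 le_rfl zero_le_one
    · dsimp only
      split_ifs with h1 h2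
      · push_cast
        rw [abs_neg]
        linarith
      · have hk : (n % γ) / (4 * q) / 2 < K := by omega
        have htk := ht1 _ hk
        have htZ : t ((n % γ) / (4 * q) / 2) < Z := Finset.mem_range.1 (hFZ htk)
        have e1 : ((t ((n % γ) / (4 * q) / 2) * s' : ℕ) : ℝ) ≤ s := by
          rw [hs']
          exact_mod_cast Nat.mul_le_mul_right s' htZ.le
        have e2 : (0 : ℝ) ≤ ((t ((n % γ) / (4 * q) / 2) * s' : ℕ) : ℝ) := Nat.cast_nonneg _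
        have e3 : (((n % γ) / (4 * q) % 2 : ℕ) : ℝ) ≤ 1 := by
          have : (n % γ) / (4 * q) % 2 ≤ 1 := by omega
          exact_mod_cast this
        have e4 : (0 : ℝ) ≤ (((n % γ) / (4 * q) % 2 : ℕ) : ℝ) := Nat.cast_nonneg _
        rw [Int.cast_add, Int.cast_add, Int.cast_sub, Int.cast_natCast, Int.cast_natCast, abs_le]
        constructor <;> linarith [hfl'.1, hfl'.2]
      · simp
        positivity
  · intro l hl r hr1 hr2 T hT1 hT2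
    rw [hsdiv] at hr1 hr2
    obtain ⟨k, hkK, hkl⟩ := ht2 l hl
    obtain ⟨r', hr'⟩ := Nat.exists_eq_add_of_le hr1
    have hr'lt : r' < s' := by
      rw [hr', add_mul, one_mul] at hr2
      omega
    have hr'R : (r' : ℝ) + 1 ≤ s' := by exact_mod_cast hr'lt
    obtain ⟨d, hd⟩ : ∃ d : ℤ, d = dg + r' := ⟨_, rfl⟩
    have hdR : (d : ℝ) = dg + r' := by rw [hd]; push_cast; ring
    have hr'0 : (0 : ℝ) ≤ r' := Nat.cast_nonneg _
    have hd1 : y₀ ≤ (d : ℝ) / Om := by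
      rw [le_div_iff₀ hOmpos, hdR]; linarith
    have hd2 : (d : ℝ) / Om ≤ y₀ + κ := by
      rw [div_le_iff₀ hOmpos, hdR]
      have : κ * Om = s' := by rw [hOm]; field_simp
      linarith
    have hcv : ∀ v, (fun v : ℕ => ρ₀ + q + 4 * q * (2 * k + v % 2)) v < γ := by
      intro v
      simp only
      have h1 : 2 * k + v % 2 + 1 ≤ 2 * K := by omega
      have h2 : 4 * q * (2 * k + v % 2 + 1) ≤ 4 * q * (2 * K) := Nat.mul_le_mul_left _ h1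
      have h3 : 4 * q * (2 * k + v % 2 + 1) = 4 * q * (2 * k + v % 2) + 4 * q := by ring
      have h4 : 4 * q * (2 * K) = 8 * (q * K) := by ring
      have h5 : γ = 320 * (q * K) := by rw [hγ]; ring
      omega
    obtain ⟨v, i, j, hv, k1, k2, k3, k4, k5, k6⟩ := hM₀' M hM1 θ Om hθ1 hθ2 hOm1 hOm2 d T ρ₀
      (fun v : ℕ => ρ₀ + q + 4 * q * (2 * k + v % 2)) (by omega) hcv (hy0.trans hd1) (hd2.trans hy1)
      (hgood _ hd1 hd2) hT1 hT2
    have hv2 : v % 2 = v := Nat.mod_eq_of_lt hv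
    rw [hv2] at k3 k4 k5 k6
    obtain ⟨m, hm⟩ : ∃ m, m = ρ₀ + β * i := ⟨_, rfl⟩
    obtain ⟨n, hn⟩ : ∃ n, n = ρ₀ + q + 4 * q * (2 * k + v) + γ * j := ⟨_, rfl⟩
    rw [← hm] at k1 k2 k5 k6
    rw [← hn] at k3 k4 k5 k6
    have hq0 : 0 < 4 * q := by omega
    have m1 : m % (4 * q) = ρ₀ := by
      rw [hm, hβ, Nat.add_mul_mod_self_left, Nat.mod_eq_of_lt (by omega)]
    have m2 : m / (4 * q) = i := by
      rw [hm, hβ, Nat.add_mul_div_left _ _ hq0, Nat.div_eq_of_lt (by omega), zero_add]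
    have m3 : m % q = ρ₀ := by
      rw [hm, hβ]
      have : ρ₀ + 4 * q * i = ρ₀ + q * (4 * i) := by ring
      rw [this, Nat.add_mul_mod_self_left, Nat.mod_eq_of_lt hρ₀]
    have hcv' := hcv v
    simp only at hcv'
    rw [hv2] at hcv'
    have n1 : n % γ = ρ₀ + q + 4 * q * (2 * k + v) := by
      rw [hn, Nat.add_mul_mod_self_left, Nat.mod_eq_of_lt hcv']
    have n2 : n / γ = j := by
      rw [hn, Nat.add_mul_div_left _ _ (by omega), Nat.div_eq_of_lt hcv', zero_add]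
    have n3 : n % (4 * q) = ρ₀ + q := by
      have : n = ρ₀ + q + 4 * q * (2 * k + v + 80 * K * j) := by rw [hn, hγ]; ring
      rw [this, Nat.add_mul_mod_self_left, Nat.mod_eq_of_lt (by omega)]
    have n4 : n % q = ρ₀ := by
      have : n = ρ₀ + q * (1 + 4 * (2 * k + v + 80 * K * j)) := by rw [hn, hγ]; ring
      rw [this, Nat.add_mul_mod_self_left, Nat.mod_eq_of_lt hρ₀]
    have n5 : (n % γ) / (4 * q) = 2 * k + v := by
      rw [n1, Nat.add_mul_div_left _ _ hq0, Nat.div_eq_of_lt (by omega), zero_add]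
    have n6 : (2 * k + v) / 2 = k := by omega
    have n7 : (2 * k + v) % 2 = v := by omega
    have hne : ¬ (ρ₀ + q = ρ₀) := by omega
    have hcond : ρ₀ + q = ρ₀ + q ∧ 2 * k + v < 2 * K := ⟨rfl, by omega⟩
    refine ⟨m, n, k1, k2, k3, k4, m3, n4, ?_, ?_⟩
    · simp only [m1, m2, n3, n5, n2, hne, hcond, and_self, if_true, if_false]
      exact k6
    · simp only [m1, n3, n5, n6, n7, hne, hcond, hkl, and_self, if_true, if_false]
      rw [hr']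
      push_cast
      linarith

end Pool.Agent.Helper112.CB.Ksg

namespace Pool.Agent.Helper112.CB

theorem serve_golden (h : ℕ) (hh : 2 ≤ h) : ∃ C : ℝ, 0 < C ∧ ∀ (P η : ℝ) (q Z : ℕ) (F : Finset ℕ),
    0 < P → P ≤ 1 → 1 ≤ η → 1 ≤ q → 1 ≤ Z → F ⊆ range Z →
    C * (F.card : ℝ) ^ 2 * q ^ 4 * η ^ 2 ≤ Z → Serve h P η q Z F := by
  first
    | exact Ksg.serve_golden
    | (apply Ksg.serve_golden <;> assumption)

end Pool.Agent.Helper112.CB
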