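import Pool.Agent.Helper112.Cb.Defs

open Finset

namespace Pool.Agent.Helper112.CB.Ksh

/- TARGET -/
theorem shifts (D : ℕ) (hD : 1 ≤ D) (bad : Finset ℕ) (hbad : 16 * bad.card ≤ D) (R : ℕ) :
    ∃ υ : ℕ → ℕ, (∀ j, υ j < D) ∧
      16 ^ R * ((range D).filter (fun l => ∀ j < R, l + υ j ∈ bad)).card ≤ D := by
  induction R with
  | zero =>
    refine ⟨fun _ => 0, fun _ => (by omega : 0 < D), ?_⟩
    rw [pow_zero, one_mul]
    exact (card_filter_le _ _).trans (by rw [card_range])
  | succ R ih =>
    obtain ⟨v, hv, hF⟩ := ih
    set F := (range D).filter (fun l => ∀ j < R, l + v j ∈ bad) with hFdef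
    -- averaging
    have hsum : ∑ u ∈ range D, (F.filter (fun l => l + u ∈ bad)).card ≤ F.card * bad.card := by
      have h1 : ∑ u ∈ range D, (F.filter (fun l => l + u ∈ bad)).card
          = ∑ l ∈ F, ((range D).filter (fun u => l + u ∈ bad)).card := by
        simp only [card_filter]
        exact sum_comm
      rw [h1, ← smul_eq_mul, ← sum_const]
      refine sum_le_sum fun l _ => ?_
      refine card_le_card_of_injOn (fun u => l + u) ?_ ?_
      · intro u hu
        simp only [coe_filter, Set.mem_ofPred_eq] at hu
        exact hu.2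
      · intro a _ b _ hab
        simpa using hab
    have hex : ∃ u ∈ range D, D * (F.filter (fun l => l + u ∈ bad)).card ≤ F.card * bad.card := by
      by_contra hcon
      push Not at hcon
      have hne : (range D).Nonempty := ⟨0, mem_range.2 (by omega)⟩
      have h2 : ∑ u ∈ range D, (F.card * bad.card) <
          ∑ u ∈ range D, D * (F.filter (fun l => l + u ∈ bad)).card := sum_lt_sum_of_nonempty hne hcon
      rw [sum_const, card_range, smul_eq_mul, ← mul_sum] at h2
      have h3 := Nat.mul_le_mul_left D hsum
      omega
    obtain ⟨u, hu, hle⟩ := hex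
    refine ⟨Function.update v R u, ?_, ?_⟩
    · intro j
      by_cases hj : j = R
      · subst hj; rw [Function.update_self]; exact mem_range.1 hu
      · rw [Function.update_of_ne hj]; exact hv j
    · have hsub : (range D).filter (fun l => ∀ j < R + 1, l + Function.update v R u j ∈ bad)
          ⊆ F.filter (fun l => l + u ∈ bad) := by
        intro l hl
        rw [mem_filter] at hl
        rw [mem_filter, hFdef, mem_filter]
        refine ⟨⟨hl.1, fun j hj => ?_⟩, ?_⟩
        · have := hl.2 j (by omega)
          rwa [Function.update_of_ne (by omega)] at this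
        · have := hl.2 R (by omega)
          rwa [Function.update_self] at this
      have h4 : 16 * (F.filter (fun l => l + u ∈ bad)).card ≤ F.card := by
        have h5 : D * (16 * (F.filter (fun l => l + u ∈ bad)).card) ≤ D * F.card := by
          calc D * (16 * (F.filter (fun l => l + u ∈ bad)).card)
              = 16 * (D * (F.filter (fun l => l + u ∈ bad)).card) := by ring
            _ ≤ 16 * (F.card * bad.card) := Nat.mul_le_mul_left _ hle
            _ = F.card * (16 * bad.card) := by ring
            _ ≤ F.card * D := Nat.mul_le_mul_left _ hbad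
            _ = D * F.card := by ring
        exact Nat.le_of_mul_le_mul_left h5 hD
      calc 16 ^ (R + 1) * ((range D).filter (fun l => ∀ j < R + 1, l + Function.update v R u j ∈ bad)).card
          ≤ 16 ^ (R + 1) * (F.filter (fun l => l + u ∈ bad)).card :=
            Nat.mul_le_mul_left _ (card_le_card hsub)
        _ = 16 ^ R * (16 * (F.filter (fun l => l + u ∈ bad)).card) := by ring
        _ ≤ 16 ^ R * F.card := Nat.mul_le_mul_left _ h4
        _ ≤ D := hF

end Pool.Agent.Helper112.CB.Ksh

namespace Pool.Agent.Helper112.CB

theorem shifts (D : ℕ) (hD : 1 ≤ D) (bad : Finset ℕ) (hbad : 16 * bad.card ≤ D) (R : ℕ) :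
    ∃ υ : ℕ → ℕ, (∀ j, υ j < D) ∧
      16 ^ R * ((range D).filter (fun l => ∀ j < R, l + υ j ∈ bad)).card ≤ D := by
  first
    | exact Ksh.shifts
    | (apply Ksh.shifts <;> assumption)

end Pool.Agent.Helper112.CB
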