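import Pool.Agent.Helper112.Cb.Defs
import Pool.Agent.Helper112.Cb.Kbc
import Pool.Agent.Helper112.Cb.Ksh
import Pool.Agent.Helper112.Cb.Ksy

open Finset

namespace Pool.Agent.Helper112.CB.Kss

theorem ss_c_lt {q K R ρ k j v : ℕ} (hρ : ρ < q) (hk : k < K) (hj : j < R) (hv : v < 2) :
    ρ + q + 4 * q * (2 * (R * k + j) + v) < 8 * q * K * R := by
  have h1 : R * k + j + 1 ≤ K * R := by
    have : (k + 1) * R ≤ K * R := Nat.mul_le_mul_right _ hk
    calc R * k + j + 1 ≤ R * k + R := by omega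
      _ = (k + 1) * R := by ring
      _ ≤ K * R := this
  have h2 : 2 * (R * k + j) + v + 1 ≤ 2 * (K * R) := by omega
  have h3 : 4 * q * (2 * (R * k + j) + v + 1) ≤ 4 * q * (2 * (K * R)) := Nat.mul_le_mul_left _ h2
  have h4 : 4 * q * (2 * (K * R)) = 8 * q * K * R := by ring
  have h5 : 4 * q * (2 * (R * k + j) + v + 1) = 4 * q * (2 * (R * k + j) + v) + 4 * q := by ring
  omega

theorem ss_mod4 {q K R ρ k j v i : ℕ} (hρ : ρ < q) :
    (ρ + q + 4 * q * (2 * (R * k + j) + v) + 8 * q * K * R * i) % (4 * q) = ρ + q := by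
  have h1 : ρ + q + 4 * q * (2 * (R * k + j) + v) + 8 * q * K * R * i =
      (ρ + q) + (4 * q) * ((2 * (R * k + j) + v) + 2 * K * R * i) := by ring
  rw [h1, Nat.add_mul_mod_self_left, Nat.mod_eq_of_lt (by omega)]

theorem ss_modg {q K R ρ k j v i : ℕ} (hρ : ρ < q) (hk : k < K) (hj : j < R) (hv : v < 2) :
    ((ρ + q + 4 * q * (2 * (R * k + j) + v) + 8 * q * K * R * i) % (8 * q * K * R)) / (4 * q) =
      2 * (R * k + j) + v := by
  rw [Nat.add_mul_mod_self_left, Nat.mod_eq_of_lt (ss_c_lt hρ hk hj hv)]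
  rw [Nat.add_mul_div_left _ _ (by omega), Nat.div_eq_of_lt (by omega)]
  omega

theorem ss_divg {q K R ρ k j v i : ℕ} (hρ : ρ < q) (hk : k < K) (hj : j < R) (hv : v < 2) :
    (ρ + q + 4 * q * (2 * (R * k + j) + v) + 8 * q * K * R * i) / (8 * q * K * R) = i := by
  have h1 := ss_c_lt hρ hk hj hv
  rw [Nat.add_mul_div_left _ _ (by omega), Nat.div_eq_of_lt h1]
  omega

theorem ss_dec {R k j v : ℕ} (hj : j < R) (hv : v < 2) :
    (2 * (R * k + j) + v) % 2 = v ∧ ((2 * (R * k + j) + v) / 2) % R = j ∧ ((2 * (R * k + j) + v) / 2) / R = k := by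
  have h1 : (2 * (R * k + j) + v) / 2 = R * k + j := by omega
  refine ⟨by omega, ?_, ?_⟩
  · rw [h1, Nat.mul_add_mod, Nat.mod_eq_of_lt hj]
  · rw [h1, Nat.mul_add_div (by omega), Nat.div_eq_of_lt hj, add_zero]

theorem ss_modq {q ρ m e : ℕ} (hρ : ρ < q) (hm : m % (4 * q) = ρ + e * q) : m % q = ρ := by
  have h1 : m % (4 * q) % q = m % q := Nat.mod_mul_left_mod m 4 q
  rw [← h1, hm, Nat.add_mul_mod_self_right, Nat.mod_eq_of_lt hρ]

theorem ss_rho_bd (i : ℤ) : 0 ≤ rho i ∧ rho i ≤ 1 / 2 := by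
  unfold rho
  split_ifs <;> norm_num

theorem ss_floor_bd (y : ℝ) (i : ℤ) : |((⌊y + rho i⌋ : ℤ) : ℝ) - y| ≤ 2 := by
  have h1 := Int.floor_le (y + rho i)
  have h2 := Int.lt_floor_add_one (y + rho i)
  have h3 := ss_rho_bd i
  rw [abs_le]
  constructor <;> linarith [h3.1, h3.2]

theorem ss_floor_bd' (y : ℝ) : |((⌊y⌋ : ℤ) : ℝ) - y| ≤ 2 := by
  have h1 := Int.floor_le y
  have h2 := Int.lt_floor_add_one y
  rw [abs_le]
  constructor <;> linarith

theorem ss_log_bd {M n : ℕ} (hM : 1 ≤ M) (h1 : M ≤ 4 * n) (h2 : n ≤ 3 * M) :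
    |Real.log ((n : ℝ) / M)| ≤ 7 / 5 := by
  have hM' : (0 : ℝ) < M := by exact_mod_cast hM
  have h1' : (M : ℝ) ≤ 4 * n := by exact_mod_cast h1
  have h2' : (n : ℝ) ≤ 3 * M := by exact_mod_cast h2
  have hn : (0 : ℝ) < n := by linarith
  have hl2 := Real.log_two_lt_d9
  have hlog4 : Real.log 4 ≤ 7 / 5 := by
    have : (4 : ℝ) = 2 ^ 2 := by norm_num
    rw [this, Real.log_pow]
    push_cast
    linarith
  have hup : Real.log ((n : ℝ) / M) ≤ Real.log 4 := by
    apply Real.log_le_log (by positivity)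
    rw [div_le_iff₀ hM']
    linarith
  have hlow : -Real.log 4 ≤ Real.log ((n : ℝ) / M) := by
    rw [← Real.log_inv]
    apply Real.log_le_log (by norm_num)
    rw [le_div_iff₀ hM']
    linarith
  rw [abs_le]
  constructor <;> linarith

theorem ss_fl_log {M n h s : ℕ} {Ω : ℝ} (hh : 2 ≤ h) (hs : 1 ≤ s) (hΩ0 : 0 ≤ Ω) (hΩ : Ω ≤ 10 * h * s)
    (hM : 1 ≤ M) (h1 : M ≤ 4 * n) (h2 : n ≤ 3 * M) :
    |((⌊Ω * Real.log ((n : ℝ) / M)⌋ : ℤ) : ℝ)| ≤ 15 * h * s := by
  have hb := abs_le.mp (ss_log_bd hM h1 h2)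
  have hh' : (2 : ℝ) ≤ h := by exact_mod_cast hh
  have hs' : (1 : ℝ) ≤ s := by exact_mod_cast hs
  have hhs : (1 : ℝ) ≤ h * s := by nlinarith
  have h3 := Int.floor_le (Ω * Real.log ((n : ℝ) / M))
  have h4 := Int.lt_floor_add_one (Ω * Real.log ((n : ℝ) / M))
  have h5 : Ω * Real.log ((n : ℝ) / M) ≤ Ω * (7 / 5) := mul_le_mul_of_nonneg_left hb.2 hΩ0
  have h6 : Ω * (-(7 / 5)) ≤ Ω * Real.log ((n : ℝ) / M) := mul_le_mul_of_nonneg_left hb.1 hΩ0
  rw [abs_le]
  constructor <;> nlinarith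

set_option maxHeartbeats 4000000 in
/- TARGET -/
theorem serve_stage (h : ℕ) (hh : 2 ≤ h) : ∃ c C : ℝ, 0 < c ∧ 0 < C ∧
    ∀ (P η : ℝ) (q Z R : ℕ) (F : Finset ℕ), 0 < P → P ≤ 1 → 1 ≤ η → 1 ≤ q → 1 ≤ Z → 1 ≤ R →
    F ⊆ range Z → F.Nonempty → P * F.card * q ^ 2 * R ≤ c * Z →
    ∀ D : ℕ, C * q ^ 2 * F.card * R * η ^ 2 ≤ D →
    (∀ F' : Finset ℕ, F' ⊆ range (Z * D) → 16 ^ R * F'.card ≤ F.card * D →
      Serve h P η (4 * q) (Z * D) F') → Serve h P η q Z F := by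
  obtain ⟨c₅, hc₅, hsys⟩ := system h hh
  obtain ⟨Cb, hCb, hbadc⟩ := bad_cells h hh
  have hh' : (2 : ℝ) ≤ h := by exact_mod_cast hh
  refine ⟨c₅ / (320 * h), 32 * Cb, by positivity, by positivity, ?_⟩
  intro P η q Z R F hP hP1 hη hq hZ hR hFZ hFne hPc D hD hrec
  set K := F.card with hK
  have hK1 : 1 ≤ K := Finset.card_pos.mpr hFne
  have hKr : (1 : ℝ) ≤ K := by exact_mod_cast hK1
  have hqr : (1 : ℝ) ≤ q := by exact_mod_cast hq
  have hRr : (1 : ℝ) ≤ R := by exact_mod_cast hR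
  have hZr : (1 : ℝ) ≤ Z := by exact_mod_cast hZ
  have hDpos : 1 ≤ D := by
    have h1 : (0 : ℝ) < 32 * Cb * q ^ 2 * K * R * η ^ 2 := by positivity
    have h2 : (0 : ℝ) < D := lt_of_lt_of_le h1 hD
    exact_mod_cast h2
  have hDr : (1 : ℝ) ≤ D := by exact_mod_cast hDpos
  -- bad cells
  have hβγ : 4 * q ≤ 8 * q * K * R := by
    have h1 : 1 ≤ K * R := Nat.mul_pos hK1 hR
    calc 4 * q ≤ 8 * q * 1 := by omega
      _ ≤ 8 * q * (K * R) := Nat.mul_le_mul_left _ h1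
      _ = 8 * q * K * R := by ring
  obtain ⟨bad, hbad1, hbad2, hbad3⟩ := hbadc (4 * q) (8 * q * K * R) η (by omega) hβγ hη D (by
    refine le_trans (le_of_eq ?_) hD
    push_cast
    ring)
  obtain ⟨υ, hυ, hfail⟩ := shifts D hDpos bad hbad2 R
  set Fail := (range D).filter (fun l => ∀ j < R, l + υ j ∈ bad) with hFail
  set F' := (F ×ˢ Fail).image (fun p => p.1 * D + p.2) with hF'
  have hF'sub : F' ⊆ range (Z * D) := by
    intro a ha
    rw [hF', mem_image] at ha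
    obtain ⟨⟨l, l'⟩, hp, rfl⟩ := ha
    rw [mem_product] at hp
    have hl := mem_range.mp (hFZ hp.1)
    have hl' := mem_range.mp (mem_filter.mp hp.2).1
    rw [mem_range]
    simp only at hl hl' ⊢
    calc l * D + l' < l * D + D := by omega
      _ = (l + 1) * D := by ring
      _ ≤ Z * D := Nat.mul_le_mul_right _ hl
  have hF'card : 16 ^ R * F'.card ≤ K * D := by
    have h1 : F'.card ≤ K * Fail.card := by
      refine Finset.card_image_le.trans ?_
      rw [card_product]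
    calc 16 ^ R * F'.card ≤ 16 ^ R * (K * Fail.card) := Nat.mul_le_mul_left _ h1
      _ = K * (16 ^ R * Fail.card) := by ring
      _ ≤ K * D := Nat.mul_le_mul_left _ hfail
  obtain ⟨Zs, hZs1, hZs2, M0', hin⟩ := hrec F' hF'sub hF'card
  -- the system
  set ω : ℝ := 10 * h * P / (η * Z) with hω
  have hωpos : 0 < ω := by positivity
  have hωc : ω * ((4 * q : ℕ) : ℝ) * ((8 * q * K * R : ℕ) : ℝ) * η ≤ c₅ := by
    have h1 : ω * ((4 * q : ℕ) : ℝ) * ((8 * q * K * R : ℕ) : ℝ) * η = 320 * h * (P * K * q ^ 2 * R) / Z := by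
      rw [hω]
      push_cast
      field_simp
      ring
    rw [h1, div_le_iff₀ (by positivity)]
    have h2 : 320 * (h : ℝ) * (P * K * q ^ 2 * R) ≤ 320 * h * (c₅ / (320 * h) * Z) := by gcongr
    have h3 : 320 * (h : ℝ) * (c₅ / (320 * h) * Z) = c₅ * Z := by field_simp
    linarith
  obtain ⟨M0s, hsysM⟩ := hsys (4 * q) (8 * q * K * R) η ω (by omega) (by omega) hη hωpos hωc
  have hZZs : Z ∣ Zs := (Dvd.intro _ rfl).trans hZs2
  -- enumeration of F
  obtain ⟨t, htZ, htF⟩ : ∃ t : ℕ → ℕ, (∀ k, t k < Z) ∧ ∀ l ∈ F, ∃ k < K, t k = l := by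
    refine ⟨fun k => if hk : k < K then (F.equivFin.symm ⟨k, hk⟩ : ℕ) else 0, ?_, ?_⟩
    · intro k
      by_cases hk : k < K
      · simp only [hk, dif_pos]
        exact mem_range.mp (hFZ (F.equivFin.symm ⟨k, hk⟩).2)
      · simp only [hk, dif_neg, not_false_eq_true]
        omega
    · intro l hl
      refine ⟨(F.equivFin ⟨l, hl⟩ : ℕ), (F.equivFin ⟨l, hl⟩).2, ?_⟩
      show (if hk : ((F.equivFin ⟨l, hl⟩ : Fin _) : ℕ) < K then (F.equivFin.symm ⟨_, hk⟩ : ℕ) else 0) = l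
      rw [dif_pos (F.equivFin ⟨l, hl⟩).2]
      simp only [Fin.eta, Equiv.symm_apply_apply]
  refine ⟨Zs, hZs1, hZZs, max (max M0' M0s) 1, ?_⟩
  intro M hM s hZss hs1 hs2 θ hθ1 hθ2 ρ hρ
  have hM1 : M0' ≤ M := (le_max_left _ _).trans ((le_max_left _ _).trans hM)
  have hM2 : M0s ≤ M := (le_max_right _ _).trans ((le_max_left _ _).trans hM)
  have hM3 : 1 ≤ M := (le_max_right _ _).trans hM
  have hMr : (1 : ℝ) ≤ M := by exact_mod_cast hM3
  have hspos : 1 ≤ s := by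
    have h1 : (0 : ℝ) < P * M / (2 * η) := by positivity
    have h2 : (0 : ℝ) < s := lt_of_lt_of_le h1 hs1
    exact_mod_cast h2
  have hsr : (1 : ℝ) ≤ s := by exact_mod_cast hspos
  obtain ⟨x', lab', hx', hserve'⟩ := hin M hM1 s hZss hs1 hs2 θ hθ1 hθ2 (ρ + 2 * q) (by omega)
  obtain ⟨s'', hs''⟩ : Z * D ∣ s := hZs2.trans hZss
  have hs''pos : 1 ≤ s'' := by
    rcases Nat.eq_zero_or_pos s'' with h0 | h0
    · rw [h0] at hs''
      omega
    · exact h0
  have hZpos : 0 < Z := hZ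
  have hsZ : s / Z = D * s'' := by
    rw [hs'', mul_assoc, Nat.mul_div_cancel_left _ hZpos]
  have hsZD : s / (Z * D) = s'' := by
    rw [hs'', Nat.mul_div_cancel_left _ (Nat.mul_pos hZpos hDpos)]
  set Ω : ℝ := 10 * h * (D * s'') with hΩ
  have hs''r : (1 : ℝ) ≤ s'' := by exact_mod_cast hs''pos
  have hΩpos : 0 < Ω := by positivity
  have hsreal : (s : ℝ) = Z * D * s'' := by rw [hs'']; push_cast; ring
  have hΩeq : Ω = 10 * h * s / Z := by
    rw [hsreal, hΩ]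
    field_simp
  have hΩ1 : ω * M / 2 ≤ Ω := by
    have h1 : ω * M / 2 = 10 * h * (P * M / (2 * η)) / Z := by
      rw [hω]
      field_simp
    rw [h1, hΩeq]
    gcongr
  have hΩ2 : Ω ≤ ω * M := by
    have h1 : ω * M = 10 * h * (P * M / η) / Z := by
      rw [hω]
      field_simp
    rw [h1, hΩeq]
    gcongr
  have hDs : (D : ℝ) * s'' ≤ s := by
    rw [hsreal]
    have : (0 : ℝ) ≤ D * s'' := by positivity
    nlinarith
  have hΩs : Ω ≤ 10 * h * s := by
    rw [hΩ]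
    gcongr
  set ν : ℕ → ℕ := fun n => (n % (8 * q * K * R)) / (4 * q) with hν
  set x : ℕ → ℤ := fun n => if n % (4 * q) = ρ then ⌊θ * (n : ℝ) ^ h + rho ((n / (4 * q) : ℕ) : ℤ)⌋
    else if n % (4 * q) = ρ + q then ⌊θ * (n : ℝ) ^ h + rho ((n / (8 * q * K * R) : ℕ) : ℤ)⌋
    else if n % (4 * q) = ρ + 2 * q then x' n else ⌊θ * (n : ℝ) ^ h⌋ with hx
  set lab : ℕ → ℤ := fun n => if n % (4 * q) = ρ then -⌊Ω * Real.log ((n : ℝ) / M)⌋
    else if n % (4 * q) = ρ + q then (t (ν n / 2 / R) : ℤ) * (D * s'' : ℕ) - (υ (ν n / 2 % R) * s'' : ℕ)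
      + (ν n % 2 : ℕ) + ⌊Ω * Real.log ((n : ℝ) / M)⌋
    else if n % (4 * q) = ρ + 2 * q then lab' n else 0 with hlab
  refine ⟨x, lab, ?_, ?_⟩
  · intro n hn1 hn2
    have hfl := ss_fl_log hh hspos hΩpos.le hΩs hM3 hn1 hn2
    have hhs : (1 : ℝ) ≤ h * s := by nlinarith
    rw [hx, hlab]
    simp only
    split_ifs with h1 h2 h3
    · refine ⟨ss_floor_bd _ _, ?_⟩
      push_cast
      rw [abs_neg]
      nlinarith
    · refine ⟨ss_floor_bd _ _, ?_⟩
      have h4 : (t (ν n / 2 / R) : ℝ) * (D * s'') ≤ s := by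
        have h5 : (t (ν n / 2 / R) : ℝ) ≤ Z := by exact_mod_cast (htZ (ν n / 2 / R)).le
        calc (t (ν n / 2 / R) : ℝ) * (D * s'') ≤ Z * (D * s'') := by gcongr
          _ = s := by rw [hsreal]; ring
      have h4' : 0 ≤ (t (ν n / 2 / R) : ℝ) * (D * s'') := by positivity
      have h6 : (υ (ν n / 2 % R) : ℝ) * s'' ≤ s := by
        have h5 : (υ (ν n / 2 % R) : ℝ) ≤ D := by exact_mod_cast (hυ (ν n / 2 % R)).le
        calc (υ (ν n / 2 % R) : ℝ) * s'' ≤ D * s'' := by gcongr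
          _ ≤ s := hDs
      have h6' : 0 ≤ (υ (ν n / 2 % R) : ℝ) * s'' := by positivity
      have h7 : ((ν n % 2 : ℕ) : ℝ) ≤ 1 := by
        have : ν n % 2 ≤ 1 := by omega
        exact_mod_cast this
      have h7' : 0 ≤ ((ν n % 2 : ℕ) : ℝ) := Nat.cast_nonneg _
      have h8 := abs_le.mp hfl
      have h9 : (s : ℝ) ≤ h * s := by nlinarith
      have h10 : ∀ (a u e : ℕ) (f : ℤ), (((a : ℤ) * (D * s'' : ℕ) - (u * s'' : ℕ) + (e : ℕ) + f : ℤ) : ℝ) =
        (a : ℝ) * (D * s'') - (u : ℝ) * s'' + (e : ℝ) + (f : ℝ) := by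
        intro a u e f
        push_cast
        ring
      rw [h10, abs_le]
      constructor <;> linarith [h8.1, h8.2]
    · exact hx' n hn1 hn2
    · refine ⟨ss_floor_bd' _, ?_⟩
      rw [Int.cast_zero, abs_zero]
      positivity
  · intro l hl r hr1 hr2 T hT1 hT2
    rw [hsZ] at hr1 hr2
    obtain ⟨k, hkK, htk⟩ := htF l hl
    obtain ⟨r', hr'⟩ : ∃ r', r = l * (D * s'') + r' := ⟨r - l * (D * s''), by omega⟩
    have hr'lt : r' < D * s'' := by
      have : (l + 1) * (D * s'') = l * (D * s'') + D * s'' := by ring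
      omega
    set l' := r' / s'' with hl'
    have hl'D : l' < D := Nat.div_lt_of_lt_mul (by rw [mul_comm]; exact hr'lt)
    have hl'1 : l' * s'' ≤ r' := Nat.div_mul_le_self _ _
    have hl'2 : r' < (l' + 1) * s'' := by
      have h1 := Nat.div_add_mod r' s''
      have h2 := Nat.mod_lt r' hs''pos
      have h3 : (l' + 1) * s'' = s'' * (r' / s'') + s'' := by rw [← hl']; ring
      omega
    by_cases hlF : l' ∈ Fail
    · -- recursion
      have hmem : l * D + l' ∈ F' := by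
        rw [hF', mem_image]
        exact ⟨(l, l'), mem_product.mpr ⟨hl, hlF⟩, rfl⟩
      obtain ⟨m, n, h1, h2, h3, h4, h5, h6, h7, h8⟩ := hserve' (l * D + l') hmem r
        (by rw [hsZD, hr']; nlinarith) (by rw [hsZD, hr']; nlinarith) T hT1 hT2
      have hne1 : ρ + 2 * q ≠ ρ := by omega
      have hne2 : ρ + 2 * q ≠ ρ + q := by omega
      refine ⟨m, n, h1, h2, h3, h4, ss_modq (e := 2) hρ h5, ss_modq (e := 2) hρ h6, ?_, ?_⟩
      · rw [hx]
        simp only [h5, h6, hne1, hne2, if_false, if_true]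
        exact h7
      · rw [hlab]
        simp only [h5, h6, hne1, hne2, if_false, if_true]
        exact h8
    · -- direct service
      obtain ⟨j, hjR, hjbad⟩ : ∃ j < R, l' + υ j ∉ bad := by
        by_contra hcon
        push Not at hcon
        exact hlF (mem_filter.mpr ⟨mem_range.mpr hl'D, hcon⟩)
      set d : ℤ := (r' : ℤ) + υ j * s'' with hd
      have hdr : (d : ℝ) = r' + υ j * s'' := by rw [hd]; push_cast; ring
      have hυD := hυ j
      have hl'1r : (l' : ℝ) * s'' ≤ r' := by exact_mod_cast hl'1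
      have hl'2r : (r' : ℝ) ≤ (l' + 1) * s'' := by exact_mod_cast hl'2.le
      have hr'r : (r' : ℝ) ≤ D * s'' := by exact_mod_cast hr'lt.le
      have hυr : (υ j : ℝ) * s'' ≤ D * s'' := by
        have : (υ j : ℝ) ≤ D := by exact_mod_cast hυD.le
        gcongr
      have hgood : Good h η (4 * q) (8 * q * K * R) ((d : ℝ) / Ω) := by
        refine hbad3 (l' + υ j) (by omega) hjbad _ ?_ ?_
        · rw [hdr, hΩ, div_le_div_iff₀ (by positivity) (by positivity)]
          push_cast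
          have : ((l' : ℝ) + υ j) * (10 * h * (D * s'')) = (l' * s'' + υ j * s'') * (10 * h * D) := by ring
          rw [this]
          gcongr
        · rw [hdr, hΩ, div_le_div_iff₀ (by positivity) (by positivity)]
          push_cast
          have : ((l' : ℝ) + υ j + 1) * (10 * h * (D * s'')) = ((l' + 1) * s'' + υ j * s'') * (10 * h * D) := by ring
          rw [this]
          gcongr
      have hd0 : 0 ≤ (d : ℝ) / Ω := by
        rw [hdr]
        positivity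
      have hd1 : (d : ℝ) / Ω ≤ 1 / (5 * h) := by
        rw [hdr, hΩ, div_le_div_iff₀ (by positivity) (by positivity)]
        have h1 : (r' : ℝ) + υ j * s'' ≤ 2 * (D * s'') := by linarith
        calc ((r' : ℝ) + υ j * s'') * (5 * h) ≤ (2 * (D * s'')) * (5 * h) := by gcongr
          _ = 1 * (10 * h * (D * s'')) := by ring
      obtain ⟨v, i, i', hv, e1, e2, e3, e4, e5, e6⟩ := hsysM M hM2 θ Ω hθ1 hθ2 hΩ1 hΩ2 d T ρ
        (fun v => ρ + q + 4 * q * (2 * (R * k + j) + v % 2)) (by omega)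
        (fun v => ss_c_lt hρ hkK hjR (Nat.mod_lt _ (by norm_num))) hd0 hd1 hgood hT1 hT2
      have hv2 : v % 2 = v := Nat.mod_eq_of_lt hv
      simp only [hv2] at e3 e4 e5 e6
      set m := ρ + 4 * q * i with hm
      set n := ρ + q + 4 * q * (2 * (R * k + j) + v) + 8 * q * K * R * i' with hn
      have hm4 : m % (4 * q) = ρ := by
        rw [hm, Nat.add_mul_mod_self_left, Nat.mod_eq_of_lt (by omega)]
      have hmd : m / (4 * q) = i := by
        rw [hm, Nat.add_mul_div_left _ _ (by omega), Nat.div_eq_of_lt (by omega)]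
        omega
      have hn4 : n % (4 * q) = ρ + q := ss_mod4 hρ
      have hnd : n / (8 * q * K * R) = i' := ss_divg hρ hkK hjR hv
      have hnν : ν n = 2 * (R * k + j) + v := ss_modg hρ hkK hjR hv
      obtain ⟨d1, d2, d3⟩ := ss_dec (k := k) hjR hv
      have hne : ρ + q ≠ ρ := by omega
      refine ⟨m, n, e1, e2, e3, e4, ss_modq (e := 0) hρ (by rw [hm4]; ring), ss_modq (e := 1) hρ (by rw [hn4]; ring), ?_, ?_⟩
      · rw [hx]
        simp only [hm4, hn4, hne, if_false, if_true, hmd, hnd]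
        exact e6
      · rw [hlab]
        simp only [hm4, hn4, hne, if_false, if_true, hnν, d1, d2, d3, htk]
        rw [hr']
        push_cast
        have e5' : ⌊Ω * Real.log ((n : ℝ) / M)⌋ - ⌊Ω * Real.log ((m : ℝ) / M)⌋ = d - v := e5
        rw [hd] at e5'
        linarith

end Pool.Agent.Helper112.CB.Kss

namespace Pool.Agent.Helper112.CB

theorem serve_stage (h : ℕ) (hh : 2 ≤ h) : ∃ c C : ℝ, 0 < c ∧ 0 < C ∧
    ∀ (P η : ℝ) (q Z R : ℕ) (F : Finset ℕ), 0 < P → P ≤ 1 → 1 ≤ η → 1 ≤ q → 1 ≤ Z → 1 ≤ R →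
    F ⊆ range Z → F.Nonempty → P * F.card * q ^ 2 * R ≤ c * Z →
    ∀ D : ℕ, C * q ^ 2 * F.card * R * η ^ 2 ≤ D →
    (∀ F' : Finset ℕ, F' ⊆ range (Z * D) → 16 ^ R * F'.card ≤ F.card * D →
      Serve h P η (4 * q) (Z * D) F') → Serve h P η q Z F := by
  first
    | exact Kss.serve_stage
    | (apply Kss.serve_stage <;> assumption)

end Pool.Agent.Helper112.CB
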