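import Pool.Agent.Helper112.Cb.Defs
import Pool.Agent.Helper112.Cb.Ksg
import Pool.Agent.Helper112.Cb.Kss

open Finset

namespace Pool.Agent.Helper112.CB.Knu

/- TARGET -/
theorem serve_main (h : ℕ) (hh : 2 ≤ h) (q₀ : ℕ) (hq : 1 ≤ q₀) : ∃ P : ℝ, 0 < P ∧ P ≤ 1 ∧
    ∀ η : ℝ, 1 ≤ η → Serve h P η q₀ 1 {0} := by
  obtain ⟨Cg, hCg, hG⟩ := serve_golden h hh
  obtain ⟨c, C, hc, hC, hSt⟩ := serve_stage h hh
  set x0 : ℝ := (q₀ : ℝ) ^ 2 with hx0
  have hq1 : (1 : ℝ) ≤ q₀ := by exact_mod_cast hq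
  have hx01 : 1 ≤ x0 := by rw [hx0]; nlinarith
  have hx0p : 0 < x0 := by linarith
  set P : ℝ := min 1 (c / (2 * x0)) with hPdef
  have hP0 : 0 < P := by
    rw [hPdef]
    exact lt_min one_pos (by positivity)
  have hP1 : P ≤ 1 := min_le_left _ _
  have hPx : P * x0 * 2 ≤ c := by
    have h1 : P ≤ c / (2 * x0) := min_le_right _ _
    rw [le_div_iff₀ (by positivity)] at h1
    linarith
  refine ⟨P, hP0, hP1, fun η hη => ?_⟩
  have hη2 : 1 ≤ η ^ 2 := by nlinarith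
  let S : ℝ → ℝ → Prop := fun x Zb => ∀ (q Z : ℕ) (F : Finset ℕ), 1 ≤ q → 1 ≤ Z → F ⊆ range Z →
    (F.card : ℝ) * q ^ 2 ≤ x * Z → (Z : ℝ) ≤ Zb → Serve h P η q Z F
  have hSG : ∀ x Zb : ℝ, Cg * x ^ 2 * Zb * η ^ 2 ≤ 1 → S x Zb := by
    intro x Zb h1 q Z F hq hZ hF h2 h3
    apply hG P η q Z F hP0 hP1 hη hq hZ hF
    have hZ1 : (1 : ℝ) ≤ Z := by exact_mod_cast hZ
    have h4 : ((F.card : ℝ) * q ^ 2) ^ 2 ≤ (x * Z) ^ 2 :=
      pow_le_pow_left₀ (by positivity) h2 2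
    calc Cg * (F.card : ℝ) ^ 2 * q ^ 4 * η ^ 2 = Cg * η ^ 2 * ((F.card : ℝ) * q ^ 2) ^ 2 := by ring
      _ ≤ Cg * η ^ 2 * (x * Z) ^ 2 := by
        apply mul_le_mul_of_nonneg_left h4 (by positivity)
      _ = (Cg * x ^ 2 * Z * η ^ 2) * Z := by ring
      _ ≤ (Cg * x ^ 2 * Zb * η ^ 2) * Z := by
        apply mul_le_mul_of_nonneg_right _ (by linarith)
        apply mul_le_mul_of_nonneg_right _ (by positivity)
        exact mul_le_mul_of_nonneg_left h3 (by positivity)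
      _ ≤ 1 * Z := mul_le_mul_of_nonneg_right h1 (by linarith)
      _ = Z := one_mul _
  have hmono : ∀ x x' Zb Zb' : ℝ, x ≤ x' → Zb ≤ Zb' → S x' Zb' → S x Zb := by
    intro x x' Zb Zb' h1 h2 h3 q Z F hq hZ hF h4 h5
    apply h3 q Z F hq hZ hF _ (le_trans h5 h2)
    exact le_trans h4 (mul_le_mul_of_nonneg_right h1 (Nat.cast_nonneg _))
  have hSS : ∀ (x Zb : ℝ) (R : ℕ), 0 ≤ x → 1 ≤ R → P * x * R ≤ c →
      S (16 * x / 16 ^ R) ((C * x * R + 1) * η ^ 2 * Zb ^ 2) → S x Zb := by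
    intro x Zb R hx hR hPR hS q Z F hq hZ hF h2 h3
    have hZ1 : (1 : ℝ) ≤ Z := by exact_mod_cast hZ
    rcases F.eq_empty_or_nonempty with rfl | hFne
    · apply hG P η q Z ∅ hP0 hP1 hη hq hZ hF
      simp
    · have hR1 : (1 : ℝ) ≤ R := by exact_mod_cast hR
      have hqr : (1 : ℝ) ≤ q := by exact_mod_cast hq
      have hK : (1 : ℝ) ≤ F.card := by exact_mod_cast hFne.card_pos
      set D : ℕ := ⌈C * q ^ 2 * F.card * R * η ^ 2⌉₊ with hD
      have hpos : 0 < C * q ^ 2 * F.card * R * η ^ 2 := by positivity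
      have hDpos : 0 < D := Nat.ceil_pos.mpr hpos
      have hDle : C * q ^ 2 * F.card * R * η ^ 2 ≤ D := Nat.le_ceil _
      have hDlt : (D : ℝ) < C * q ^ 2 * F.card * R * η ^ 2 + 1 := Nat.ceil_lt_add_one hpos.le
      apply hSt P η q Z R F hP0 hP1 hη hq hZ hR hF hFne _ D hDle
      · intro F' hF' hcard
        apply hS (4 * q) (Z * D) F' (by omega) (Nat.mul_pos hZ hDpos) hF'
        · have h5 : (16 : ℝ) ^ R * F'.card ≤ F.card * D := by exact_mod_cast hcard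
          push_cast
          have h16 : (0 : ℝ) < 16 ^ R := by positivity
          rw [div_mul_eq_mul_div, le_div_iff₀ h16]
          calc (F'.card : ℝ) * (4 * (q : ℝ)) ^ 2 * 16 ^ R
              = 16 * (q : ℝ) ^ 2 * (16 ^ R * (F'.card : ℝ)) := by ring
            _ ≤ 16 * (q : ℝ) ^ 2 * ((F.card : ℝ) * (D : ℝ)) :=
              mul_le_mul_of_nonneg_left h5 (by positivity)
            _ = 16 * (D : ℝ) * ((F.card : ℝ) * (q : ℝ) ^ 2) := by ring
            _ ≤ 16 * (D : ℝ) * (x * Z) := mul_le_mul_of_nonneg_left h2 (by positivity)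
            _ = 16 * x * ((Z : ℝ) * (D : ℝ)) := by ring
        · push_cast
          have h6 : (D : ℝ) ≤ (C * x * R + 1) * η ^ 2 * Z := by
            have h7 : C * q ^ 2 * F.card * R * η ^ 2 ≤ C * x * R * η ^ 2 * Z := by
              calc C * q ^ 2 * F.card * R * η ^ 2 = C * R * η ^ 2 * (F.card * q ^ 2) := by ring
                _ ≤ C * R * η ^ 2 * (x * Z) := mul_le_mul_of_nonneg_left h2 (by positivity)
                _ = C * x * R * η ^ 2 * Z := by ring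
            have h8 : 1 ≤ η ^ 2 * Z := by nlinarith
            calc (D : ℝ) ≤ C * x * R * η ^ 2 * Z + η ^ 2 * Z := by linarith
              _ = (C * x * R + 1) * η ^ 2 * Z := by ring
          have h9 : (Z : ℝ) ^ 2 ≤ Zb ^ 2 := pow_le_pow_left₀ (by linarith) h3 2
          calc (Z : ℝ) * D ≤ Z * ((C * x * R + 1) * η ^ 2 * Z) :=
                mul_le_mul_of_nonneg_left h6 (by linarith)
            _ = (C * x * R + 1) * η ^ 2 * Z ^ 2 := by ring
            _ ≤ (C * x * R + 1) * η ^ 2 * Zb ^ 2 :=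
                mul_le_mul_of_nonneg_left h9 (by positivity)
      · calc P * F.card * q ^ 2 * R = P * R * (F.card * q ^ 2) := by ring
          _ ≤ P * R * (x * Z) := mul_le_mul_of_nonneg_left h2 (by positivity)
          _ = (P * x * R) * Z := by ring
          _ ≤ c * Z := mul_le_mul_of_nonneg_right hPR (by linarith)
  set B : ℝ := (C * c / P + 1) * η ^ 2 + 1 with hB
  have hB1 : 1 ≤ B := by
    rw [hB]
    have : 0 ≤ (C * c / P + 1) * η ^ 2 := by positivity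
    linarith
  have hBle : ∀ (x : ℝ) (R : ℕ), P * x * R ≤ c → (C * x * R + 1) * η ^ 2 ≤ B := by
    intro x R h1
    have h2 : C * x * R ≤ C * c / P := by
      rw [le_div_iff₀ hP0]
      calc C * x * R * P = C * (P * x * R) := by ring
        _ ≤ C * c := mul_le_mul_of_nonneg_left h1 hC.le
    have h3 : (C * x * R + 1) * η ^ 2 ≤ (C * c / P + 1) * η ^ 2 :=
      mul_le_mul_of_nonneg_right (by linarith) (by positivity)
    rw [hB]
    linarith
  have hpowB : ∀ n : ℕ, B * (B ^ (2 ^ n - 1)) ^ 2 = B ^ (2 ^ (n + 1) - 1) := by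
    intro n
    rw [← pow_mul, ← pow_succ']
    congr 1
    have : 1 ≤ 2 ^ n := Nat.one_le_two_pow
    rw [pow_succ]
    omega
  have hx : ∀ n : ℕ, x0 / 16 ^ n ≤ x0 := by
    intro n
    apply div_le_self hx0p.le
    exact one_le_pow₀ (by norm_num)
  have hiter : ∀ n : ℕ, S (x0 / 16 ^ n) (B ^ (2 ^ n - 1)) → S x0 1 := by
    intro n
    induction n with
    | zero =>
      intro h1
      simpa using h1
    | succ n ih =>
      intro h1
      apply ih
      have hP2 : P * (x0 / 16 ^ n) * ((2 : ℕ) : ℝ) ≤ c := by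
        push_cast
        have := mul_le_mul_of_nonneg_left (hx n) hP0.le
        linarith
      apply hSS _ _ 2 (by positivity) (by norm_num) hP2
      refine hmono _ _ _ _ ?_ ?_ h1
      · apply le_of_eq
        rw [pow_succ (16 : ℝ) n]
        field_simp
      · rw [← hpowB]
        exact mul_le_mul_of_nonneg_right (hBle _ 2 hP2) (by positivity)
  obtain ⟨E0, hE0⟩ := pow_unbounded_of_one_lt (B + Cg * 256 * x0 ^ 2 * η ^ 2)
    (by norm_num : (1 : ℝ) < 16)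
  set E := E0 + 1 with hE
  have hE1 : B + Cg * 256 * x0 ^ 2 * η ^ 2 ≤ 16 ^ E := by
    rw [hE, pow_succ (16 : ℝ) E0]
    have : (0 : ℝ) < 16 ^ E0 := by positivity
    linarith
  have hEB : B ≤ 16 ^ E := by
    have : 0 ≤ Cg * 256 * x0 ^ 2 * η ^ 2 := by positivity
    linarith
  have hEC : Cg * 256 * x0 ^ 2 * η ^ 2 ≤ 16 ^ E := by linarith
  have hE8 : E ≤ 8 ^ E := (Nat.lt_pow_self (by norm_num : 1 < 8)).le
  have hmain : S x0 1 := by
    apply hiter E
    have hR1 : 1 ≤ 2 ^ (E + 1) * E := by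
      have h1 : 1 ≤ 2 ^ (E + 1) := Nat.one_le_two_pow
      have h2 : 1 ≤ E := by omega
      exact Nat.mul_le_mul h1 h2
    have hRle : (2 ^ (E + 1) * E : ℕ) ≤ 2 * 16 ^ E := by
      have h1 : (16 : ℕ) ^ E = 2 ^ E * 8 ^ E := by
        rw [← Nat.mul_pow]
      rw [h1, pow_succ]
      calc 2 ^ E * 2 * E ≤ 2 ^ E * 2 * 8 ^ E := Nat.mul_le_mul_left _ hE8
        _ = 2 * (2 ^ E * 8 ^ E) := by ring
    have hPR : P * (x0 / 16 ^ E) * ((2 ^ (E + 1) * E : ℕ) : ℝ) ≤ c := by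
      have h1 : ((2 ^ (E + 1) * E : ℕ) : ℝ) ≤ 2 * 16 ^ E := by exact_mod_cast hRle
      have h16 : (0 : ℝ) < 16 ^ E := by positivity
      calc P * (x0 / 16 ^ E) * ((2 ^ (E + 1) * E : ℕ) : ℝ)
          ≤ P * (x0 / 16 ^ E) * (2 * 16 ^ E) := mul_le_mul_of_nonneg_left h1 (by positivity)
        _ = P * x0 * 2 := by field_simp
        _ ≤ c := hPx
    apply hSS _ _ (2 ^ (E + 1) * E) (by positivity) hR1 hPR
    apply hSG
    set R := 2 ^ (E + 1) * E with hR
    have hZb : (C * (x0 / 16 ^ E) * (R : ℝ) + 1) * η ^ 2 * (B ^ (2 ^ E - 1)) ^ 2 ≤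
        B ^ (2 ^ (E + 1)) := by
      calc (C * (x0 / 16 ^ E) * (R : ℝ) + 1) * η ^ 2 * (B ^ (2 ^ E - 1)) ^ 2
          ≤ B * (B ^ (2 ^ E - 1)) ^ 2 :=
            mul_le_mul_of_nonneg_right (hBle _ R hPR) (by positivity)
        _ = B ^ (2 ^ (E + 1) - 1) := hpowB E
        _ ≤ B ^ (2 ^ (E + 1)) := pow_le_pow_right₀ hB1 (Nat.sub_le _ _)
    have h16R : (0 : ℝ) < 16 ^ R := by positivity
    have hsq : (16 * (x0 / 16 ^ E) / 16 ^ R) ^ 2 ≤ 256 * x0 ^ 2 / (16 ^ R) ^ 2 := by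
      rw [div_pow]
      apply div_le_div_of_nonneg_right _ (by positivity)
      have h1 : (16 * (x0 / 16 ^ E)) ^ 2 ≤ (16 * x0) ^ 2 := by
        apply pow_le_pow_left₀ (by positivity)
        exact mul_le_mul_of_nonneg_left (hx E) (by norm_num)
      calc (16 * (x0 / 16 ^ E)) ^ 2 ≤ (16 * x0) ^ 2 := h1
        _ = 256 * x0 ^ 2 := by ring
    have hfin : Cg * 256 * x0 ^ 2 * η ^ 2 * B ^ (2 ^ (E + 1)) ≤ (16 ^ R) ^ 2 := by
      have h1 : B ^ (2 ^ (E + 1)) ≤ 16 ^ R := by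
        rw [hR, mul_comm (2 ^ (E + 1)) E, pow_mul]
        exact pow_le_pow_left₀ (by linarith) hEB _
      have h2 : Cg * 256 * x0 ^ 2 * η ^ 2 ≤ 16 ^ R := by
        refine le_trans hEC ?_
        apply pow_le_pow_right₀ (by norm_num)
        rw [hR]
        exact Nat.le_mul_of_pos_left _ (by positivity)
      rw [pow_two ((16 : ℝ) ^ R)]
      exact mul_le_mul h2 h1 (by positivity) h16R.le
    calc Cg * (16 * (x0 / 16 ^ E) / 16 ^ R) ^ 2 *
          ((C * (x0 / 16 ^ E) * (R : ℝ) + 1) * η ^ 2 * (B ^ (2 ^ E - 1)) ^ 2) * η ^ 2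
        ≤ Cg * (256 * x0 ^ 2 / (16 ^ R) ^ 2) * (B ^ (2 ^ (E + 1))) * η ^ 2 := by
          apply mul_le_mul_of_nonneg_right _ (by positivity)
          apply mul_le_mul (mul_le_mul_of_nonneg_left hsq hCg.le) hZb (by positivity)
            (by positivity)
      _ = (Cg * 256 * x0 ^ 2 * η ^ 2 * B ^ (2 ^ (E + 1))) / (16 ^ R) ^ 2 := by ring
      _ ≤ 1 := by
          rw [div_le_one (by positivity)]
          exact hfin
  apply hmain q₀ 1 {0} hq le_rfl
  · simp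
  · simp [hx0]
  · simp

end Pool.Agent.Helper112.CB.Knu

namespace Pool.Agent.Helper112.CB

theorem serve_main (h : ℕ) (hh : 2 ≤ h) (q₀ : ℕ) (hq : 1 ≤ q₀) : ∃ P : ℝ, 0 < P ∧ P ≤ 1 ∧
    ∀ η : ℝ, 1 ≤ η → Serve h P η q₀ 1 {0} := by
  first
    | exact Knu.serve_main
    | (apply Knu.serve_main <;> assumption)

end Pool.Agent.Helper112.CB
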