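import Pool.Agent.Helper112.Cb.Defs
import Pool.Agent.Helper112.Cb.Knu

open Finset

namespace Pool.Agent.Helper112.CB.Ksl

/-! helper lemmas for `scale` -/

theorem digits_h (U : ℕ) (hU : 1 ≤ U) (k : ℕ) : ∀ w : ℕ, w < U ^ k →
    w = ∑ e ∈ range k, ((w / U ^ e) % U) * U ^ e := by
  induction k with
  | zero => intro w hw; simpa using hw
  | succ k ih =>
    intro w hw
    rw [Finset.sum_range_succ']
    have h1 : w / U < U ^ k := by
      rw [Nat.div_lt_iff_lt_mul hU, ← pow_succ]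
      exact hw
    have h2 := ih (w / U) h1
    have h3 : ∑ e ∈ range k, ((w / U ^ (e + 1)) % U) * U ^ (e + 1) =
        U * ∑ e ∈ range k, ((w / U / U ^ e) % U) * U ^ e := by
      rw [Finset.mul_sum]
      refine Finset.sum_congr rfl fun e _ => ?_
      rw [Nat.div_div_eq_div_mul, pow_succ', mul_comm U (U ^ e)]
      ring
    rw [h3, ← h2]
    simp
    exact (Nat.div_add_mod w U).symm

/-- the two parameters `s₁` and `U` -/
theorem params_h (k : ℕ) (P η D : ℝ) (hP : 0 < P) (hη : 1 ≤ η) (q : ℕ) (hq : 1 ≤ q)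
    (hD : D = q) (Zs : ℕ) (hZ : 1 ≤ Zs) : ∃ M₀ : ℕ, ∀ M : ℕ, M₀ ≤ M →
    ∃ s1 U : ℕ, Zs ∣ s1 ∧ 1 ≤ s1 ∧ 1 ≤ U ∧ U = M / q ∧ (s1 : ℝ) ≤ P * M / η ∧
      P * M / (2 * η) ≤ s1 ∧ (U : ℝ) ≤ M / D ∧
      (5 / 8) * ((P * M / η) * (M / D) ^ k) ≤ s1 * (U : ℝ) ^ k := by
  set δ : ℝ := 3 / (8 * (k + 1)) with hδ
  have hk : (0:ℝ) ≤ k := Nat.cast_nonneg k
  have hδ0 : 0 < δ := by positivity
  have hδ1 : δ ≤ 3 / 8 := by
    rw [hδ]
    apply div_le_div_of_nonneg_left (by norm_num) (by norm_num)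
    linarith
  have hδk : (k + 1) * δ = 3 / 8 := by rw [hδ]; field_simp
  have hη0 : 0 < η := by linarith
  have hq0 : (0:ℝ) < q := by exact_mod_cast hq
  have hD0 : 0 < D := by rw [hD]; exact hq0
  obtain ⟨M₀, hM₀⟩ := exists_nat_ge (max (Zs * η / (δ * P)) (D / δ))
  refine ⟨M₀ + 1, fun M hM => ?_⟩
  have hMM : (M₀ : ℝ) ≤ M := by exact_mod_cast (Nat.le_succ _).trans hM
  have hM0 : (0:ℝ) < M := by
    have : 0 < M := by omega
    exact_mod_cast this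
  have hm1 : Zs * η / (δ * P) ≤ M := (le_max_left _ _).trans (hM₀.trans hMM)
  have hm2 : D / δ ≤ M := (le_max_right _ _).trans (hM₀.trans hMM)
  set A : ℝ := P * M / η with hA
  set B : ℝ := M / D with hB
  have hA0 : 0 < A := by positivity
  have hB0 : 0 < B := by positivity
  have hZ0 : (0:ℝ) < Zs := by exact_mod_cast hZ
  have hZA : (Zs : ℝ) ≤ δ * A := by
    rw [div_le_iff₀ (by positivity)] at hm1
    rw [hA, ← mul_div_assoc, le_div_iff₀ hη0]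
    linarith
  have h1B : 1 ≤ δ * B := by
    rw [div_le_iff₀ hδ0] at hm2
    rw [hB, ← mul_div_assoc, le_div_iff₀ hD0]
    linarith
  set s1 : ℕ := Zs * ⌊A / Zs⌋₊ with hs1
  set U : ℕ := M / q with hU
  have hs1le : (s1 : ℝ) ≤ A := by
    rw [hs1]; push_cast
    have := Nat.floor_le (show 0 ≤ A / Zs by positivity)
    calc (Zs : ℝ) * ⌊A / Zs⌋₊ ≤ Zs * (A / Zs) := mul_le_mul_of_nonneg_left this hZ0.le
      _ = A := by field_simp
  have hs1ge : A * (1 - δ) ≤ s1 := by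
    rw [hs1]; push_cast
    have := Nat.lt_floor_add_one (A / Zs)
    have h2 : A / Zs - 1 ≤ ⌊A / Zs⌋₊ := by linarith
    calc A * (1 - δ) ≤ A - Zs := by linarith
      _ = Zs * (A / Zs - 1) := by field_simp
      _ ≤ Zs * ⌊A / Zs⌋₊ := mul_le_mul_of_nonneg_left h2 hZ0.le
  have hUle : (U : ℝ) ≤ B := by
    rw [hU, hB, hD]
    exact Nat.cast_div_le
  have hUge : B * (1 - δ) ≤ U := by
    have h2 : B - 1 ≤ U := by
      rw [hU, hB, hD, sub_le_iff_le_add, div_le_iff₀ hq0]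
      have h3 := Nat.div_add_mod M q
      have h4 := Nat.mod_lt M (show q > 0 by omega)
      have h5 : M ≤ (M / q + 1) * q := by nlinarith
      exact_mod_cast h5
    linarith
  have h1δ : 0 < 1 - δ := by linarith
  have hs1pos : 1 ≤ s1 := by
    have : (0:ℝ) < s1 := lt_of_lt_of_le (by positivity) hs1ge
    exact_mod_cast this
  have hUpos : 1 ≤ U := by
    have : (0:ℝ) < U := lt_of_lt_of_le (by positivity) hUge
    exact_mod_cast this
  refine ⟨s1, U, ⟨_, rfl⟩, hs1pos, hUpos, rfl, hs1le, ?_, hUle, ?_⟩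
  · have : P * M / (2 * η) = A * (1 / 2) := by rw [hA]; field_simp
    rw [this]
    refine le_trans ?_ hs1ge
    apply mul_le_mul_of_nonneg_left _ hA0.le
    linarith
  · have hbern : 1 - (k + 1) * δ ≤ (1 - δ) ^ (k + 1) := by
      have := one_add_mul_le_pow (show (-2 : ℝ) ≤ -δ by linarith) (k + 1)
      push_cast at this
      calc 1 - (k + 1) * δ = 1 + (k + 1) * (-δ) := by ring
        _ ≤ (1 + -δ) ^ (k + 1) := this
        _ = _ := by ring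
    rw [hδk] at hbern
    calc (5 / 8) * (A * B ^ k) ≤ (1 - δ) ^ (k + 1) * (A * B ^ k) := by
          apply mul_le_mul_of_nonneg_right _ (by positivity)
          linarith
      _ = (A * (1 - δ)) * (B * (1 - δ)) ^ k := by rw [mul_pow, pow_succ]; ring
      _ ≤ s1 * (U : ℝ) ^ k := by
          apply mul_le_mul hs1ge _ (by positivity) (by positivity)
          exact pow_le_pow_left₀ (by positivity) hUge k

/-- the auxiliary classes -/
def nnh (k M q ρ e u : ℕ) : ℕ :=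
  q * (M / (4 * (k + 2) * q) + 1) + ρ + 12 * (k + 2) * (e + 1) + q * u

theorem nnh_mod_q (k M q ρ e u : ℕ) (hq : q = 12 * (k + 2) * (k + 1)) (hρ : ρ < 12 * (k + 2))
    (he : e < k) : nnh k M q ρ e u % q = ρ + 12 * (k + 2) * (e + 1) := by
  unfold nnh
  have h1 : q * (M / (4 * (k + 2) * q) + 1) + ρ + 12 * (k + 2) * (e + 1) + q * u =
      (ρ + 12 * (k + 2) * (e + 1)) + q * ((M / (4 * (k + 2) * q) + 1) + u) := by ring
  rw [h1, Nat.add_mul_mod_self_left]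
  apply Nat.mod_eq_of_lt
  rw [hq]
  have h2 : e + 2 ≤ k + 1 := by omega
  calc ρ + 12 * (k + 2) * (e + 1) < 12 * (k + 2) + 12 * (k + 2) * (e + 1) := by omega
    _ = 12 * (k + 2) * (e + 2) := by ring
    _ ≤ 12 * (k + 2) * (k + 1) := Nat.mul_le_mul_left _ h2

theorem nnh_mod (k M q ρ e u : ℕ) (hq : q = 12 * (k + 2) * (k + 1)) (hρ : ρ < 12 * (k + 2)) :
    nnh k M q ρ e u % (12 * (k + 2)) = ρ := by
  unfold nnh
  have h1 : q * (M / (4 * (k + 2) * q) + 1) + ρ + 12 * (k + 2) * (e + 1) + q * u =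
      ρ + (12 * (k + 2)) * ((k + 1) * (M / (4 * (k + 2) * q) + 1) + (e + 1) + (k + 1) * u) := by
    generalize M / (4 * (k + 2) * q) = a
    rw [hq]
    ring
  rw [h1, Nat.add_mul_mod_self_left]
  exact Nat.mod_eq_of_lt hρ

theorem nnh_inj (k M q ρ e u e' u' : ℕ) (hq : q = 12 * (k + 2) * (k + 1))
    (hρ : ρ < 12 * (k + 2)) (he : e < k) (he' : e' < k)
    (h : nnh k M q ρ e u = nnh k M q ρ e' u') : e = e' ∧ u = u' := by
  have h1 := nnh_mod_q k M q ρ e u hq hρ he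
  have h2 := nnh_mod_q k M q ρ e' u' hq hρ he'
  rw [h, h2] at h1
  have h3 : 12 * (k + 2) * (e' + 1) = 12 * (k + 2) * (e + 1) := by omega
  have h4 : e' + 1 = e + 1 := Nat.eq_of_mul_eq_mul_left (by positivity) h3
  have h5 : e = e' := by omega
  subst h5
  refine ⟨rfl, ?_⟩
  unfold nnh at h
  have h6 : q * u = q * u' := by omega
  exact Nat.eq_of_mul_eq_mul_left (by rw [hq]; positivity) h6

theorem nnh_lower (k M q ρ e u : ℕ) (hq : 1 ≤ q) : M ≤ 4 * (k + 2) * nnh k M q ρ e u := by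
  have h1 := Nat.lt_mul_div_succ M (show 0 < 4 * (k + 2) * q by positivity)
  have h2 : q * (M / (4 * (k + 2) * q) + 1) ≤ nnh k M q ρ e u := by
    unfold nnh; omega
  calc M ≤ 4 * (k + 2) * q * (M / (4 * (k + 2) * q) + 1) := h1.le
    _ = 4 * (k + 2) * (q * (M / (4 * (k + 2) * q) + 1)) := by ring
    _ ≤ _ := Nat.mul_le_mul_left _ h2

theorem nnh_upper (k M q ρ e u : ℕ) (hq : q = 12 * (k + 2) * (k + 1)) (hρ : ρ < 12 * (k + 2))
    (he : e < k) (hM : 16 * (k + 2) * q ≤ M) (hu : u < M / (8 * (k + 2) * q)) :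
    2 * (k + 2) * nnh k M q ρ e u ≤ M := by
  have hq1 : 1 ≤ q := by rw [hq]; exact Nat.succ_le_of_lt (by positivity)
  have h1 : ρ + 12 * (k + 2) * (e + 1) ≤ q := by
    rw [hq]
    calc ρ + 12 * (k + 2) * (e + 1) ≤ 12 * (k + 2) + 12 * (k + 2) * (e + 1) := by omega
      _ = 12 * (k + 2) * (e + 2) := by ring
      _ ≤ 12 * (k + 2) * (k + 1) := Nat.mul_le_mul_left _ (by omega)
  have h2 := Nat.div_mul_le_self M (4 * (k + 2) * q)
  have h3 := Nat.div_mul_le_self M (8 * (k + 2) * q)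
  set a := M / (4 * (k + 2) * q) with ha
  set U := M / (8 * (k + 2) * q) with hU
  have h4 : nnh k M q ρ e u ≤ q * a + q + q + q * U := by
    unfold nnh
    have : q * u ≤ q * U := Nat.mul_le_mul_left _ hu.le
    rw [← ha]
    have e1 : q * (a + 1) = q * a + q := by ring
    omega
  have h5 : 4 * (2 * (k + 2) * nnh k M q ρ e u) ≤ 4 * M := by
    calc 4 * (2 * (k + 2) * nnh k M q ρ e u) = 8 * (k + 2) * nnh k M q ρ e u := by ring
      _ ≤ 8 * (k + 2) * (q * a + q + q + q * U) := Nat.mul_le_mul_left _ h4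
      _ = 2 * (a * (4 * (k + 2) * q)) + 16 * (k + 2) * q + U * (8 * (k + 2) * q) := by ring
      _ ≤ 2 * M + M + M := by omega
      _ = 4 * M := by ring
  omega

open Classical in
/-- the sequence on one scale -/
noncomputable def bseq (k M q ρ s1 U : ℕ) (θ lam : ℝ) (x lab : ℕ → ℤ) (n : ℕ) : ℤ :=
  if n % q = ρ ∧ M ≤ 4 * n ∧ n ≤ 3 * M then ((s1 * U ^ k : ℕ) : ℤ) * x n + lab n
  else if H : ∃ p : ℕ × ℕ, p.1 < k ∧ p.2 < U ∧ n = nnh k M q ρ p.1 p.2 then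
    ((s1 * U ^ k : ℕ) : ℤ) * ⌊θ * (n : ℝ) ^ (k + 2)⌋ +
      ((s1 * U ^ H.choose.1 * H.choose.2 : ℕ) : ℤ)
  else ⌊lam * (n : ℝ) ^ (k + 2)⌋

theorem bseq_first {k M q ρ s1 U : ℕ} {θ lam : ℝ} {x lab : ℕ → ℤ} {n : ℕ}
    (h : n % q = ρ ∧ M ≤ 4 * n ∧ n ≤ 3 * M) :
    bseq k M q ρ s1 U θ lam x lab n = ((s1 * U ^ k : ℕ) : ℤ) * x n + lab n := by
  unfold bseq; rw [if_pos h]

theorem bseq_second {k M q ρ s1 U : ℕ} {θ lam : ℝ} {x lab : ℕ → ℤ} {e u : ℕ}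
    (hq : q = 12 * (k + 2) * (k + 1)) (hρ : ρ < 12 * (k + 2)) (he : e < k) (hu : u < U) :
    bseq k M q ρ s1 U θ lam x lab (nnh k M q ρ e u) = ((s1 * U ^ k : ℕ) : ℤ) *
      ⌊θ * (nnh k M q ρ e u : ℝ) ^ (k + 2)⌋ + ((s1 * U ^ e * u : ℕ) : ℤ) := by
  unfold bseq
  have h1 : ¬ (nnh k M q ρ e u % q = ρ ∧ M ≤ 4 * nnh k M q ρ e u ∧ nnh k M q ρ e u ≤ 3 * M) := by
    rintro ⟨h, _⟩
    rw [nnh_mod_q k M q ρ e u hq hρ he] at h
    have : 0 < 12 * (k + 2) * (e + 1) := by positivity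
    omega
  have H : ∃ p : ℕ × ℕ, p.1 < k ∧ p.2 < U ∧ nnh k M q ρ e u = nnh k M q ρ p.1 p.2 :=
    ⟨(e, u), he, hu, rfl⟩
  rw [if_neg h1, dif_pos H]
  obtain ⟨h2, h3, h4⟩ := H.choose_spec
  obtain ⟨h5, h6⟩ := nnh_inj k M q ρ _ _ _ _ hq hρ he h2 h4
  rw [← h5, ← h6]

theorem bseq_error {k M q ρ s1 U : ℕ} {θ lam : ℝ} {x lab : ℕ → ℤ}
    (hq : q = 12 * (k + 2) * (k + 1)) (hρ : ρ < 12 * (k + 2)) (hs1 : 1 ≤ s1) (hU : 1 ≤ U)
    (hθ : ((s1 * U ^ k : ℕ) : ℝ) * θ = lam)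
    (hx : ∀ n : ℕ, M ≤ 4 * n → n ≤ 3 * M →
        |(x n : ℝ) - θ * (n : ℝ) ^ (k + 2)| ≤ 2 ∧ |(lab n : ℝ)| ≤ 100 * ((k + 2 : ℕ) : ℝ) * s1)
    (n : ℕ) : |(bseq k M q ρ s1 U θ lam x lab n : ℝ) - lam * (n : ℝ) ^ (k + 2)| ≤
      (100 * ((k + 2 : ℕ) : ℝ) + 2) * ((s1 * U ^ k : ℕ) : ℝ) := by
  set s : ℕ := s1 * U ^ k with hs
  have hUk : 1 ≤ U ^ k := Nat.one_le_pow _ _ hU
  have hs1s : s1 ≤ s := by rw [hs]; exact Nat.le_mul_of_pos_right _ hUk
  have hs1sR : (s1 : ℝ) ≤ s := by exact_mod_cast hs1s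
  have hsR : (1:ℝ) ≤ s := by exact_mod_cast hs1.trans hs1s
  have hk0 : (0:ℝ) ≤ ((k + 2 : ℕ) : ℝ) := Nat.cast_nonneg _
  by_cases h1 : n % q = ρ ∧ M ≤ 4 * n ∧ n ≤ 3 * M
  · rw [bseq_first h1]
    obtain ⟨ha, hb⟩ := hx n h1.2.1 h1.2.2
    have e1 : (((s : ℤ) * x n + lab n : ℤ) : ℝ) - lam * (n : ℝ) ^ (k + 2) =
        s * ((x n : ℝ) - θ * (n : ℝ) ^ (k + 2)) + lab n := by
      rw [← hθ]; push_cast; ring
    rw [e1]
    refine (abs_add_le _ _).trans ?_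
    rw [abs_mul, abs_of_nonneg (show (0:ℝ) ≤ s by positivity)]
    have h2 : (s : ℝ) * |(x n : ℝ) - θ * (n : ℝ) ^ (k + 2)| ≤ s * 2 :=
      mul_le_mul_of_nonneg_left ha (by positivity)
    have h3 : 100 * ((k + 2 : ℕ) : ℝ) * s1 ≤ 100 * ((k + 2 : ℕ) : ℝ) * s :=
      mul_le_mul_of_nonneg_left hs1sR (by positivity)
    linarith
  · by_cases H : ∃ p : ℕ × ℕ, p.1 < k ∧ p.2 < U ∧ n = nnh k M q ρ p.1 p.2
    · obtain ⟨⟨e, u⟩, he, hu, rfl⟩ := H
      simp only at he hu h1 ⊢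
      rw [bseq_second hq hρ he hu]
      set y : ℝ := θ * (nnh k M q ρ e u : ℝ) ^ (k + 2) with hy
      have e1 : (((s : ℤ) * ⌊y⌋ + ((s1 * U ^ e * u : ℕ) : ℤ) : ℤ) : ℝ) -
          lam * (nnh k M q ρ e u : ℝ) ^ (k + 2) =
          s * ((⌊y⌋ : ℝ) - y) + ((s1 * U ^ e * u : ℕ) : ℝ) := by
        rw [← hθ, hy]; push_cast; ring
      rw [e1]
      refine (abs_add_le _ _).trans ?_
      have h2 : |(s : ℝ) * ((⌊y⌋ : ℝ) - y)| ≤ s := by
        rw [abs_mul, abs_of_nonneg (show (0:ℝ) ≤ s by positivity)]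
        have h3 : |(⌊y⌋ : ℝ) - y| ≤ 1 := by
          rw [abs_le]
          constructor <;> linarith [Int.floor_le y, Int.lt_floor_add_one y]
        calc (s : ℝ) * |(⌊y⌋ : ℝ) - y| ≤ s * 1 := mul_le_mul_of_nonneg_left h3 (by positivity)
          _ = s := mul_one _
      have h4 : s1 * U ^ e * u ≤ s := by
        rw [hs]
        calc s1 * U ^ e * u ≤ s1 * U ^ e * U := Nat.mul_le_mul_left _ hu.le
          _ = s1 * U ^ (e + 1) := by rw [pow_succ]; ring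
          _ ≤ s1 * U ^ k := Nat.mul_le_mul_left _ (Nat.pow_le_pow_right hU he)
      have h5 : |((s1 * U ^ e * u : ℕ) : ℝ)| ≤ s := by
        rw [abs_of_nonneg (Nat.cast_nonneg _)]
        exact_mod_cast h4
      nlinarith
    · unfold bseq
      rw [if_neg h1, dif_neg H]
      have h3 : |(⌊lam * (n : ℝ) ^ (k + 2)⌋ : ℝ) - lam * (n : ℝ) ^ (k + 2)| ≤ 1 := by
        rw [abs_le]
        constructor <;> linarith [Int.floor_le (lam * (n : ℝ) ^ (k + 2)),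
          Int.lt_floor_add_one (lam * (n : ℝ) ^ (k + 2))]
      nlinarith

set_option maxHeartbeats 1600000 in
theorem bseq_rep {k M q ρ s1 U : ℕ} {θ lam : ℝ} {x lab : ℕ → ℤ}
    (hq : q = 12 * (k + 2) * (k + 1)) (hρ : ρ < 12 * (k + 2)) (hs1 : 1 ≤ s1) (hU : 1 ≤ U)
    (hUM : U = M / (8 * (k + 2) * q)) (hM : 16 * (k + 2) * q ≤ M) (hM3 : 3 ≤ M)
    (hθ : ((s1 * U ^ k : ℕ) : ℝ) * θ = lam) (hθ1 : 1 ≤ θ * (M : ℝ) ^ (k + 1))
    (hrep : ∀ r : ℕ, r < s1 → ∀ T : ℤ, θ * (M : ℝ) ^ (k + 2) / 2 ≤ T →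
        (T : ℝ) ≤ 2 ^ (k + 2) * (θ * (M : ℝ) ^ (k + 2)) →
        ∃ m n : ℕ, M ≤ 4 * m ∧ m ≤ 3 * M ∧ M ≤ 4 * n ∧ n ≤ 3 * M ∧ m % q = ρ ∧ n % q = ρ ∧
          x m + x n = T ∧ lab m + lab n = r)
    (N : ℕ) (hN1 : lam * (M : ℝ) ^ (k + 2) ≤ N) (hN2 : (N : ℝ) ≤ 2 ^ (k + 2) * (lam * (M : ℝ) ^ (k + 2))) :
    ∃ f : Fin (k + 2) → ℕ,
      (∀ i, M ≤ 4 * (k + 2) * f i ∧ f i ≤ 3 * M ∧ f i % (12 * (k + 2)) = ρ) ∧
      ∑ i, bseq k M q ρ s1 U θ lam x lab (f i) = N := by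
  set s : ℕ := s1 * U ^ k with hs
  have hUk : 1 ≤ U ^ k := Nat.one_le_pow _ _ hU
  have hspos : 1 ≤ s := by rw [hs]; exact Nat.mul_pos hs1 hUk
  have hsR : (1:ℝ) ≤ s := by exact_mod_cast hspos
  have hM0 : (0:ℝ) < M := by exact_mod_cast (show 0 < M by omega)
  have hM3R : (3:ℝ) ≤ M := by exact_mod_cast hM3
  have hθ0 : 0 < θ := by
    by_contra hcon
    push Not at hcon
    have : θ * (M : ℝ) ^ (k + 1) ≤ 0 := mul_nonpos_of_nonpos_of_nonneg hcon (by positivity)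
    linarith
  have hq1 : 1 ≤ q := by rw [hq]; exact Nat.succ_le_of_lt (by positivity)
  set T0 := N / s with hT0
  set r := N % s with hr
  set r1 := r % s1 with hr1
  set w := r / s1 with hw
  have hrs : r < s1 * U ^ k := Nat.mod_lt _ hspos
  have hwU : w < U ^ k := by
    rw [hw, Nat.div_lt_iff_lt_mul hs1, mul_comm]; exact hrs
  have hr1s : r1 < s1 := Nat.mod_lt _ hs1
  have hdig := digits_h U hU k w hwU
  set u : ℕ → ℕ := fun e => (w / U ^ e) % U with hu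
  have huU : ∀ e, u e < U := fun e => Nat.mod_lt _ hU
  set T : ℤ := (T0 : ℤ) - ∑ e ∈ range k, ⌊θ * (nnh k M q ρ e (u e) : ℝ) ^ (k + 2)⌋ with hT
  have hNs : N = s * T0 + r := (Nat.div_add_mod N s).symm
  have hlamM : (s : ℝ) * (θ * (M : ℝ) ^ (k + 2)) = lam * (M : ℝ) ^ (k + 2) := by
    rw [← hθ]; ring
  have hfl0 : ∀ e ∈ range k, (0:ℝ) ≤ (⌊θ * (nnh k M q ρ e (u e) : ℝ) ^ (k + 2)⌋ : ℝ) := by
    intro e _
    have : (0:ℤ) ≤ ⌊θ * (nnh k M q ρ e (u e) : ℝ) ^ (k + 2)⌋ := Int.floor_nonneg.2 (by positivity)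
    exact_mod_cast this
  have hTR : (T : ℝ) = (T0 : ℝ) -
      ∑ e ∈ range k, (⌊θ * (nnh k M q ρ e (u e) : ℝ) ^ (k + 2)⌋ : ℝ) := by
    rw [hT]; push_cast; rfl
  have hup : (T : ℝ) ≤ 2 ^ (k + 2) * (θ * (M : ℝ) ^ (k + 2)) := by
    rw [hTR]
    have h1 := Finset.sum_nonneg hfl0
    have h2 : (T0 : ℝ) ≤ 2 ^ (k + 2) * (θ * (M : ℝ) ^ (k + 2)) := by
      have h3 : (s : ℝ) * T0 ≤ N := by
        have : s * T0 ≤ N := Nat.mul_div_le N s
        exact_mod_cast this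
      have h4 : (s : ℝ) * T0 ≤ s * (2 ^ (k + 2) * (θ * (M : ℝ) ^ (k + 2))) := by
        calc (s : ℝ) * T0 ≤ N := h3
          _ ≤ 2 ^ (k + 2) * (lam * (M : ℝ) ^ (k + 2)) := hN2
          _ = s * (2 ^ (k + 2) * (θ * (M : ℝ) ^ (k + 2))) := by rw [← hlamM]; ring
      exact le_of_mul_le_mul_left h4 (by linarith)
    linarith
  have hlo : θ * (M : ℝ) ^ (k + 2) / 2 ≤ T := by
    rw [hTR]
    have h1 : θ * (M : ℝ) ^ (k + 2) - 1 ≤ T0 := by
      have h3 : (N : ℝ) < s * (T0 + 1) := by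
        have : N < s * (T0 + 1) := by
          have h5 : r < s := Nat.mod_lt N hspos
          calc N = s * T0 + r := hNs
            _ < s * T0 + s := Nat.add_lt_add_left h5 _
            _ = s * (T0 + 1) := by ring
        exact_mod_cast this
      have h4 : (s : ℝ) * (θ * (M : ℝ) ^ (k + 2)) ≤ s * (T0 + 1) := by
        rw [hlamM]; linarith
      have := le_of_mul_le_mul_left h4 (by linarith)
      linarith
    have h2 : ∀ e ∈ range k, (⌊θ * (nnh k M q ρ e (u e) : ℝ) ^ (k + 2)⌋ : ℝ) ≤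
        θ * (M : ℝ) ^ (k + 2) / (8 * (k + 1)) := by
      intro e he
      rw [Finset.mem_range] at he
      refine (Int.floor_le _).trans ?_
      have h3 := nnh_upper k M q ρ e (u e) hq hρ he hM (hUM ▸ huU e)
      have h4 : (nnh k M q ρ e (u e) : ℝ) ≤ M / (2 * (k + 2)) := by
        rw [le_div_iff₀ (by positivity)]
        have : ((2 * (k + 2) * nnh k M q ρ e (u e) : ℕ) : ℝ) ≤ M := by exact_mod_cast h3
        push_cast at this
        linarith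
      have h5 : (nnh k M q ρ e (u e) : ℝ) ^ (k + 2) ≤ (M : ℝ) ^ (k + 2) / (8 * (k + 1)) := by
        calc (nnh k M q ρ e (u e) : ℝ) ^ (k + 2) ≤ (M / (2 * (k + 2))) ^ (k + 2) :=
              pow_le_pow_left₀ (Nat.cast_nonneg _) h4 _
          _ = (M : ℝ) ^ (k + 2) / (2 * (k + 2)) ^ (k + 2) := div_pow _ _ _
          _ ≤ (M : ℝ) ^ (k + 2) / (8 * (k + 1)) := by
              apply div_le_div_of_nonneg_left (by positivity) (by positivity)
              have h6 : (1:ℝ) ≤ 2 * (k + 2) := by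
                have : (0:ℝ) ≤ k := Nat.cast_nonneg k
                linarith
              calc (8:ℝ) * (k + 1) ≤ (2 * (k + 2)) ^ 2 := by
                    have : (0:ℝ) ≤ k := Nat.cast_nonneg k
                    nlinarith
                _ ≤ (2 * (k + 2)) ^ (k + 2) := pow_le_pow_right₀ h6 (by omega)
      calc θ * (nnh k M q ρ e (u e) : ℝ) ^ (k + 2) ≤ θ * ((M : ℝ) ^ (k + 2) / (8 * (k + 1))) :=
            mul_le_mul_of_nonneg_left h5 hθ0.le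
        _ = _ := by ring
    have h3 := Finset.sum_le_card_nsmul (range k) _ _ h2
    rw [Finset.card_range, nsmul_eq_mul] at h3
    have h4 : (k : ℝ) * (θ * (M : ℝ) ^ (k + 2) / (8 * (k + 1))) ≤ θ * (M : ℝ) ^ (k + 2) / 8 := by
      have h5 : (k : ℝ) / (k + 1) ≤ 1 := by
        rw [div_le_one (by positivity)]; linarith
      have h6 : (0:ℝ) ≤ θ * (M : ℝ) ^ (k + 2) / 8 := by positivity
      calc (k : ℝ) * (θ * (M : ℝ) ^ (k + 2) / (8 * (k + 1))) =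
            (k / (k + 1)) * (θ * (M : ℝ) ^ (k + 2) / 8) := by field_simp
        _ ≤ 1 * (θ * (M : ℝ) ^ (k + 2) / 8) := mul_le_mul_of_nonneg_right h5 h6
        _ = _ := one_mul _
    have h5 : 3 ≤ θ * (M : ℝ) ^ (k + 2) := by
      calc (3:ℝ) ≤ 1 * M := by linarith
        _ ≤ (θ * (M : ℝ) ^ (k + 1)) * M := mul_le_mul_of_nonneg_right hθ1 hM0.le
        _ = θ * (M : ℝ) ^ (k + 2) := by rw [pow_succ (M : ℝ) (k + 1)]; ring
    linarith
  obtain ⟨m, n, hm1, hm2, hn1, hn2, hmq, hnq, hxT, hlab⟩ := hrep r1 hr1s T hlo hup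
  have hmod : ∀ a : ℕ, a % q = ρ → a % (12 * (k + 2)) = ρ := by
    intro a ha
    have : 12 * (k + 2) ∣ q := ⟨k + 1, hq⟩
    rw [← Nat.mod_mod_of_dvd a this, ha]
    exact Nat.mod_eq_of_lt hρ
  refine ⟨Fin.cons m (Fin.cons n fun e : Fin k => nnh k M q ρ e (u e)), ?_, ?_⟩
  · intro i
    refine Fin.cases ?_ (fun i => ?_) i
    · rw [Fin.cons_zero]
      refine ⟨?_, hm2, hmod m hmq⟩
      exact hm1.trans (Nat.mul_le_mul_right m (by omega))
    · rw [Fin.cons_succ]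
      refine Fin.cases ?_ (fun e => ?_) i
      · rw [Fin.cons_zero]
        refine ⟨?_, hn2, hmod n hnq⟩
        exact hn1.trans (Nat.mul_le_mul_right n (by omega))
      · rw [Fin.cons_succ]
        refine ⟨nnh_lower k M q ρ e (u e) hq1, ?_, nnh_mod k M q ρ e (u e) hq hρ⟩
        have h3 := nnh_upper k M q ρ e (u e) hq hρ e.2 hM (hUM ▸ huU e)
        have h4 : nnh k M q ρ e (u e) ≤ 2 * (k + 2) * nnh k M q ρ e (u e) :=
          Nat.le_mul_of_pos_left _ (by omega)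
        exact h4.trans (h3.trans (Nat.le_mul_of_pos_left _ (by norm_num)))
  · rw [Fin.sum_univ_succ, Fin.sum_univ_succ]
    simp only [Fin.cons_zero, Fin.cons_succ]
    rw [bseq_first ⟨hmq, hm1, hm2⟩, bseq_first ⟨hnq, hn1, hn2⟩]
    have h1 : ∑ e : Fin k, bseq k M q ρ s1 U θ lam x lab (nnh k M q ρ e (u e)) =
        ∑ e ∈ range k, ((s : ℤ) * ⌊θ * (nnh k M q ρ e (u e) : ℝ) ^ (k + 2)⌋ +
          ((s1 * U ^ e * u e : ℕ) : ℤ)) := by
      rw [Finset.sum_range]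
      refine Finset.sum_congr rfl fun e _ => ?_
      exact bseq_second hq hρ e.2 (huU e)
    rw [h1, Finset.sum_add_distrib, ← Finset.mul_sum]
    have h2 : ∑ e ∈ range k, ((s1 * U ^ e * u e : ℕ) : ℤ) = (s1 : ℤ) * w := by
      have : ∑ e ∈ range k, s1 * U ^ e * u e = s1 * w := by
        conv_rhs => rw [hdig]
        rw [Finset.mul_sum]
        refine Finset.sum_congr rfl fun e _ => ?_
        simp only [hu]
        ring
      exact_mod_cast this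
    rw [h2]
    have h3 : (r : ℤ) = r1 + s1 * w := by
      have : r = r1 + s1 * w := (Nat.mod_add_div r s1).symm
      exact_mod_cast this
    have h4 : (N : ℤ) = s * T0 + r := by exact_mod_cast hNs
    rw [h4, h3]
    have h5 : (T0 : ℤ) = T + ∑ e ∈ range k, ⌊θ * (nnh k M q ρ e (u e) : ℝ) ^ (k + 2)⌋ := by
      rw [hT]; ring
    rw [h5, ← hxT]
    linear_combination hlab


/- TARGET -/
theorem scale (h : ℕ) (hh : 2 ≤ h) : ∃ lam : ℝ, 0 < lam ∧ ∀ ε : ℝ, 0 < ε → ∃ M₀ : ℕ,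
    ∀ M : ℕ, M₀ ≤ M → ∀ ρ : ℕ, ρ < 12 * h →
    ∃ b : ℕ → ℤ, (∀ n : ℕ, M ≤ 4 * h * n → n ≤ 3 * M →
        |(b n : ℝ) - lam * n ^ h| ≤ ε * M ^ (h - 1)) ∧
      ∀ N : ℕ, lam * M ^ h ≤ N → (N : ℝ) ≤ 2 ^ h * (lam * M ^ h) →
        ∃ f : Fin h → ℕ, (∀ i, M ≤ 4 * h * f i ∧ f i ≤ 3 * M ∧ f i % (12 * h) = ρ) ∧
          ∑ i, b (f i) = N := by
  obtain ⟨k, rfl⟩ : ∃ k, h = k + 2 := ⟨h - 2, by omega⟩
  set q : ℕ := 12 * (k + 2) * (k + 1) with hqdef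
  have hq1 : 1 ≤ q := Nat.succ_le_of_lt (by positivity)
  obtain ⟨P, hP0, hP1, hserve⟩ := serve_main (k + 2) hh q hq1
  set D : ℝ := ((8 * (k + 2) * q : ℕ) : ℝ) with hD
  have hDpos : 0 < D := by
    rw [hD]; exact_mod_cast (show 0 < 8 * (k + 2) * q by positivity)
  set lam : ℝ := (5 / 4) * P / D ^ k with hlam
  have hlam0 : 0 < lam := by positivity
  refine ⟨lam, hlam0, fun ε hε => ?_⟩
  set η : ℝ := max 1 ((100 * ((k + 2 : ℕ) : ℝ) + 2) * P / (ε * D ^ k)) with hη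
  have hη1 : 1 ≤ η := le_max_left _ _
  have hη0 : 0 < η := by linarith
  have hηε : (100 * ((k + 2 : ℕ) : ℝ) + 2) * (P / (η * D ^ k)) ≤ ε := by
    have h1 : (100 * ((k + 2 : ℕ) : ℝ) + 2) * P / (ε * D ^ k) ≤ η := le_max_right _ _
    rw [div_le_iff₀ (by positivity)] at h1
    rw [← mul_div_assoc, div_le_iff₀ (by positivity)]
    linarith
  obtain ⟨Zs, hZs, _, M₁, hM₁⟩ := hserve η hη1
  obtain ⟨M₂, hM₂⟩ := params_h k P η D hP0 hη1 (8 * (k + 2) * q)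
    (Nat.succ_le_of_lt (by positivity)) hD Zs hZs
  refine ⟨max (max M₁ M₂) (max (16 * (k + 2) * q) 3), fun M hM ρ hρ => ?_⟩
  have hMM₁ : M₁ ≤ M := (le_max_left _ _).trans ((le_max_left _ _).trans hM)
  have hMM₂ : M₂ ≤ M := (le_max_right _ _).trans ((le_max_left _ _).trans hM)
  have hM16 : 16 * (k + 2) * q ≤ M := (le_max_left _ _).trans ((le_max_right _ _).trans hM)
  have hM3 : 3 ≤ M := (le_max_right _ _).trans ((le_max_right _ _).trans hM)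
  have hM0 : (0:ℝ) < M := by exact_mod_cast (show 0 < M by omega)
  obtain ⟨s1, U, hZs1, hs1, hU, hUM, hs1u, hs1l, hUB, hprod⟩ := hM₂ M hMM₂
  set s : ℕ := s1 * U ^ k with hs
  have hspos : 0 < s := Nat.mul_pos hs1 (Nat.one_le_pow _ _ hU)
  have hsR : (0:ℝ) < s := by exact_mod_cast hspos
  have hscast : (s : ℝ) = s1 * (U : ℝ) ^ k := by rw [hs]; push_cast; rfl
  set θ : ℝ := lam / s with hθ
  have hθs : (s : ℝ) * θ = lam := by rw [hθ]; field_simp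
  have hsup : (s : ℝ) ≤ (P * M / η) * (M / D) ^ k := by
    rw [hscast]
    exact mul_le_mul hs1u (pow_le_pow_left₀ (Nat.cast_nonneg _) hUB k) (by positivity)
      (by positivity)
  have hlamM : lam * (M : ℝ) ^ (k + 1) = (5 / 4) * η * ((P * M / η) * (M / D) ^ k) := by
    rw [hlam, div_pow, pow_succ]
    field_simp
  have hθlo : η ≤ θ * (M : ℝ) ^ (k + 1) := by
    rw [hθ, div_mul_eq_mul_div, le_div_iff₀ hsR, hlamM]
    have : 0 < (P * M / η) * (M / D) ^ k := by positivity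
    nlinarith
  have hθhi : θ * (M : ℝ) ^ (k + 1) ≤ 2 * η := by
    rw [hθ, div_mul_eq_mul_div, div_le_iff₀ hsR, hlamM, hscast]
    nlinarith
  have hρq : ρ < q := by
    rw [hqdef]
    calc ρ < 12 * (k + 2) := hρ
      _ ≤ 12 * (k + 2) * (k + 1) := Nat.le_mul_of_pos_right _ (by omega)
  obtain ⟨x, lab, hx, hrep⟩ := hM₁ M hMM₁ s1 hZs1 hs1l hs1u θ hθlo hθhi ρ hρq
  refine ⟨bseq k M q ρ s1 U θ lam x lab, ?_, ?_⟩
  · intro n _ _
    refine (bseq_error hqdef hρ hs1 hU hθs hx n).trans ?_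
    calc (100 * ((k + 2 : ℕ) : ℝ) + 2) * (s : ℝ) ≤
          (100 * ((k + 2 : ℕ) : ℝ) + 2) * ((P * M / η) * (M / D) ^ k) :=
          mul_le_mul_of_nonneg_left hsup (by positivity)
      _ = ((100 * ((k + 2 : ℕ) : ℝ) + 2) * (P / (η * D ^ k))) * (M : ℝ) ^ (k + 1) := by
          rw [div_pow, pow_succ]
          field_simp
      _ ≤ ε * (M : ℝ) ^ (k + 1) := mul_le_mul_of_nonneg_right hηε (by positivity)
  · intro N hN1 hN2
    apply bseq_rep hqdef hρ hs1 hU hUM hM16 hM3 hθs (hη1.trans hθlo) ?_ N hN1 hN2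
    intro r hr T hT1 hT2
    exact hrep 0 (by simp) r (by simp) (by simpa using hr) T hT1 hT2

end Pool.Agent.Helper112.CB.Ksl

namespace Pool.Agent.Helper112.CB

theorem scale (h : ℕ) (hh : 2 ≤ h) : ∃ lam : ℝ, 0 < lam ∧ ∀ ε : ℝ, 0 < ε → ∃ M₀ : ℕ,
    ∀ M : ℕ, M₀ ≤ M → ∀ ρ : ℕ, ρ < 12 * h →
    ∃ b : ℕ → ℤ, (∀ n : ℕ, M ≤ 4 * h * n → n ≤ 3 * M →
        |(b n : ℝ) - lam * n ^ h| ≤ ε * M ^ (h - 1)) ∧
      ∀ N : ℕ, lam * M ^ h ≤ N → (N : ℝ) ≤ 2 ^ h * (lam * M ^ h) →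
        ∃ f : Fin h → ℕ, (∀ i, M ≤ 4 * h * f i ∧ f i ≤ 3 * M ∧ f i % (12 * h) = ρ) ∧
          ∑ i, b (f i) = N := by
  first
    | exact Ksl.scale
    | (apply Ksl.scale <;> assumption)

end Pool.Agent.Helper112.CB
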