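import Pool.Agent.Helper112.Cb.Defs
import Pool.Agent.Helper112.Cb.Ksl

open Finset

namespace Pool.Agent.Helper112.CB.Kca

/- TARGET -/
theorem cassels (h : ℕ) (hh : 2 ≤ h) : ∃ (a : ℕ → ℕ) (lam : ℝ), 0 < lam ∧ StrictMono a ∧
    (∃ N₀ : ℕ, ∀ N : ℕ, N₀ ≤ N → ∃ f : Fin h → ℕ, (∀ i, 1 ≤ f i) ∧ ∑ i, a (f i) = N) ∧
    (fun n : ℕ => (a n : ℝ) - lam * (n : ℝ) ^ h) =o[Filter.atTop]
      (fun n : ℕ => (n : ℝ) ^ (h - 1)) := by

  obtain ⟨lam, hlam, H⟩ := scale h hh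
  have hk : ∀ k : ℕ, (0 : ℝ) < 1 / ((k : ℝ) + 1) := fun k => by positivity
  choose M0 hM0 using fun k : ℕ => H (1 / ((k : ℝ) + 1)) (hk k)
  have hh0 : 0 < h := by omega
  have hq : 0 < 12 * h := by omega
  -- the accuracy index
  obtain ⟨κ, hκ⟩ : ∃ κ : ℕ → ℕ, κ = fun j => Nat.findGreatest (fun k => M0 k ≤ 2 ^ j) j :=
    ⟨_, rfl⟩
  have hκlow : ∀ k j : ℕ, k ≤ j → M0 k ≤ j → k ≤ κ j := by
    intro k j h1 h2
    rw [hκ]
    exact Nat.le_findGreatest h1 (h2.trans (Nat.lt_two_pow_self).le)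
  obtain ⟨j0, hj0⟩ : ∃ j0 : ℕ, j0 = M0 0 := ⟨_, rfl⟩
  have hκM : ∀ j : ℕ, j0 ≤ j → M0 (κ j) ≤ 2 ^ j := by
    intro j hj
    rw [hκ]
    have : M0 0 ≤ 2 ^ j := by
      rw [← hj0]
      exact hj.trans (Nat.lt_two_pow_self).le
    exact Nat.findGreatest_spec (P := fun k => M0 k ≤ 2 ^ j) (Nat.zero_le j) this
  have hb : ∀ j : ℕ, ∃ b : ℕ → ℤ, j0 ≤ j →
      (∀ n : ℕ, 2 ^ j ≤ 4 * h * n → n ≤ 3 * 2 ^ j →
        |(b n : ℝ) - lam * n ^ h| ≤ 1 / ((κ j : ℝ) + 1) * (2 ^ j) ^ (h - 1)) ∧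
      ∀ N : ℕ, lam * (2 ^ j) ^ h ≤ N → (N : ℝ) ≤ 2 ^ h * (lam * (2 ^ j) ^ h) →
        ∃ f : Fin h → ℕ, (∀ i, 2 ^ j ≤ 4 * h * f i ∧ f i ≤ 3 * 2 ^ j ∧
          f i % (12 * h) = j % (12 * h)) ∧ ∑ i, b (f i) = N := by
    intro j
    by_cases hj : j0 ≤ j
    · obtain ⟨b, hb1, hb2⟩ := hM0 (κ j) (2 ^ j) (hκM j hj) (j % (12 * h)) (Nat.mod_lt _ hq)
      refine ⟨b, fun _ => ⟨?_, ?_⟩⟩
      · intro n h1 h2
        have := hb1 n h1 h2
        push_cast at this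
        exact this
      · intro N h1 h2
        have := hb2 N (by push_cast; exact h1) (by push_cast; exact h2)
        exact this
    · exact ⟨fun _ => 0, fun h => absurd h hj⟩
  choose b hb using hb
  -- windows
  obtain ⟨Win, hWin⟩ : ∃ Win : ℕ → ℕ → Prop, Win = fun n j => j0 ≤ j ∧ 2 ^ j ≤ 4 * h * n ∧
      n ≤ 3 * 2 ^ j ∧ n % (12 * h) = j % (12 * h) := ⟨_, rfl⟩
  have huniq : ∀ n j j', Win n j → Win n j' → j < j' → False := by
    intro n j j' h1 h2 hlt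
    rw [hWin] at h1 h2
    obtain ⟨_, _, h1c, h1d⟩ := h1
    obtain ⟨_, h2b, _, h2d⟩ := h2
    have hmod : j % (12 * h) = j' % (12 * h) := h1d.symm.trans h2d
    have hge : j + 12 * h ≤ j' := by
      have h3 : (12 * h) ∣ j' - j := (Nat.modEq_iff_dvd' hlt.le).1 hmod
      have := Nat.le_of_dvd (by omega) h3
      omega
    have h4 : 2 ^ j * 2 ^ (12 * h) ≤ 2 ^ j' := by
      rw [← pow_add]
      exact Nat.pow_le_pow_right (by norm_num) hge
    have h5 : 2 ^ j' ≤ 2 ^ j * (12 * h) := by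
      calc 2 ^ j' ≤ 4 * h * n := h2b
        _ ≤ 4 * h * (3 * 2 ^ j) := Nat.mul_le_mul_left _ h1c
        _ = 2 ^ j * (12 * h) := by ring
    have h6 : 2 ^ (12 * h) ≤ 12 * h := Nat.le_of_mul_le_mul_left (h4.trans h5) (by positivity)
    exact absurd h6 (not_le.2 Nat.lt_two_pow_self)
  have huniq' : ∀ n j j', Win n j → Win n j' → j = j' := by
    intro n j j' h1 h2
    rcases lt_trichotomy j j' with h3 | h3 | h3
    · exact (huniq n j j' h1 h2 h3).elim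
    · exact h3
    · exact (huniq n j' j h2 h1 h3).elim
  have ha' : ∀ n : ℕ, ∃ v : ℤ, (∀ j, Win n j → v = b j n) ∧
      ((¬ ∃ j, Win n j) → v = ⌊lam * (n : ℝ) ^ h⌋) := by
    intro n
    by_cases hex : ∃ j, Win n j
    · obtain ⟨j, hj⟩ := hex
      refine ⟨b j n, fun j' hj' => by rw [huniq' n j j' hj hj'], fun h => absurd ⟨j, hj⟩ h⟩
    · exact ⟨⌊lam * (n : ℝ) ^ h⌋, fun j hj => absurd ⟨j, hj⟩ hex, fun _ => rfl⟩
  choose a' ha1 ha2 using ha'
  -- error bound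
  have herr : ∀ ε : ℝ, 0 < ε → ∃ n1 : ℕ, ∀ n : ℕ, n1 ≤ n →
      |(a' n : ℝ) - lam * (n : ℝ) ^ h| ≤ ε * (n : ℝ) ^ (h - 1) := by
    intro ε hε
    obtain ⟨k, hkk⟩ : ∃ k : ℕ, (4 * (h : ℝ)) ^ (h - 1) / ε ≤ k := exists_nat_ge _
    obtain ⟨n2, hn2⟩ : ∃ n2 : ℕ, 1 / ε ≤ n2 := exists_nat_ge _
    refine ⟨max (3 * 2 ^ (max k (M0 k)) + 1) (max n2 1), ?_⟩
    intro n hn
    have hn3 : 3 * 2 ^ (max k (M0 k)) + 1 ≤ n := (le_max_left _ _).trans hn
    have hn4 : n2 ≤ n := ((le_max_left _ _).trans (le_max_right _ _)).trans hn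
    have hn5 : 1 ≤ n := ((le_max_right _ _).trans (le_max_right _ _)).trans hn
    have hnR : (1 : ℝ) ≤ n := by exact_mod_cast hn5
    by_cases hex : ∃ j, Win n j
    · obtain ⟨j, hj⟩ := hex
      rw [ha1 n j hj]
      have hj' := hj
      rw [hWin] at hj'
      obtain ⟨w1, w2, w3, w4⟩ := hj'
      have h1 := (hb j w1).1 n w2 w3
      refine h1.trans ?_
      have hjk : max k (M0 k) ≤ j := by
        by_contra hcon
        push Not at hcon
        have : 3 * 2 ^ j ≤ 3 * 2 ^ (max k (M0 k)) :=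
          Nat.mul_le_mul_left _ (Nat.pow_le_pow_right (by norm_num) hcon.le)
        omega
      have hkj : k ≤ κ j := hκlow k j ((le_max_left _ _).trans hjk) ((le_max_right _ _).trans hjk)
      have hkjR : (k : ℝ) ≤ κ j := by exact_mod_cast hkj
      have h2 : ((2 : ℝ) ^ j) ^ (h - 1) ≤ (4 * (h : ℝ)) ^ (h - 1) * (n : ℝ) ^ (h - 1) := by
        rw [← mul_pow]
        apply pow_le_pow_left₀ (by positivity)
        exact_mod_cast w2
      have h3 : (4 * (h : ℝ)) ^ (h - 1) ≤ ε * ((κ j : ℝ) + 1) := by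
        rw [div_le_iff₀ hε] at hkk
        nlinarith
      rw [one_div, inv_mul_le_iff₀ (by positivity)]
      calc ((2 : ℝ) ^ j) ^ (h - 1) ≤ (4 * (h : ℝ)) ^ (h - 1) * (n : ℝ) ^ (h - 1) := h2
        _ ≤ (ε * ((κ j : ℝ) + 1)) * (n : ℝ) ^ (h - 1) :=
            mul_le_mul_of_nonneg_right h3 (by positivity)
        _ = _ := by ring
    · rw [ha2 n hex]
      have h1 : |((⌊lam * (n : ℝ) ^ h⌋ : ℤ) : ℝ) - lam * (n : ℝ) ^ h| ≤ 1 := by
        rw [abs_le]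
        have h1 := Int.floor_le (lam * (n : ℝ) ^ h)
        have h2 := Int.lt_floor_add_one (lam * (n : ℝ) ^ h)
        constructor <;> linarith
      refine h1.trans ?_
      have h2 : (1 : ℝ) ≤ ε * n := by
        have h3 : 1 / ε ≤ (n : ℝ) := hn2.trans (by exact_mod_cast hn4)
        rw [div_le_iff₀ hε] at h3
        linarith
      have h3 : (n : ℝ) ^ 1 ≤ (n : ℝ) ^ (h - 1) := pow_le_pow_right₀ hnR (by omega)
      rw [pow_one] at h3
      nlinarith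
  -- growth
  obtain ⟨n1, hn1⟩ := herr (lam / 2 ^ (h + 1)) (by positivity)
  obtain ⟨n2, hn2⟩ : ∃ n2 : ℕ, 2 / lam < n2 := exists_nat_gt _
  obtain ⟨n0, hn0⟩ : ∃ n0 : ℕ, n0 = max n1 (max n2 1) := ⟨_, rfl⟩
  have hn01 : n1 ≤ n0 := by rw [hn0]; exact le_max_left _ _
  have hn02 : n2 ≤ n0 := by rw [hn0]; exact (le_max_left _ _).trans (le_max_right _ _)
  have hn03 : 1 ≤ n0 := by rw [hn0]; exact (le_max_right _ _).trans (le_max_right _ _)
  have hhs : h = (h - 1) + 1 := by omega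
  have hstep : ∀ n : ℕ, n0 ≤ n → a' n < a' (n + 1) := by
    intro n hn
    have h1 := hn1 n (hn01.trans hn)
    have h2 := hn1 (n + 1) (by omega)
    have hnR : (1 : ℝ) ≤ n := by exact_mod_cast hn03.trans hn
    have hP : (0 : ℝ) < (n : ℝ) ^ (h - 1) := by positivity
    have h3 : ((n : ℝ) + 1) ^ (h - 1) ≤ 2 ^ (h - 1) * (n : ℝ) ^ (h - 1) := by
      rw [← mul_pow]
      apply pow_le_pow_left₀ (by positivity)
      linarith
    have h4 : (n : ℝ) ^ h + (n : ℝ) ^ (h - 1) ≤ ((n : ℝ) + 1) ^ h := by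
      have e1 : (n : ℝ) ^ h = n * (n : ℝ) ^ (h - 1) := by
        conv_lhs => rw [hhs]
        rw [pow_succ]; ring
      have e2 : ((n : ℝ) + 1) ^ h = (n + 1) * ((n : ℝ) + 1) ^ (h - 1) := by
        conv_lhs => rw [hhs]
        rw [pow_succ]; ring
      have e3 : (n : ℝ) ^ (h - 1) ≤ ((n : ℝ) + 1) ^ (h - 1) :=
        pow_le_pow_left₀ (by positivity) (by linarith) _
      rw [e1, e2]
      nlinarith
    push_cast at h2
    rw [abs_le] at h1 h2
    have h5 : lam / 2 ^ (h + 1) * (n : ℝ) ^ (h - 1) ≤ lam / 4 * (n : ℝ) ^ (h - 1) := by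
      apply mul_le_mul_of_nonneg_right _ hP.le
      apply div_le_div_of_nonneg_left hlam.le (by norm_num)
      calc (4 : ℝ) = 2 ^ 2 := by norm_num
        _ ≤ 2 ^ (h + 1) := pow_le_pow_right₀ (by norm_num) (by omega)
    have h6 : lam / 2 ^ (h + 1) * ((n : ℝ) + 1) ^ (h - 1) ≤ lam / 4 * (n : ℝ) ^ (h - 1) := by
      calc lam / 2 ^ (h + 1) * ((n : ℝ) + 1) ^ (h - 1)
          ≤ lam / 2 ^ (h + 1) * (2 ^ (h - 1) * (n : ℝ) ^ (h - 1)) :=
            mul_le_mul_of_nonneg_left h3 (by positivity)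
        _ = lam / 4 * (n : ℝ) ^ (h - 1) := by
            have : (2 : ℝ) ^ (h + 1) = 4 * 2 ^ (h - 1) := by
              have e : h + 1 = (h - 1) + 2 := by omega
              rw [e, pow_add]; norm_num; ring
            rw [this]
            field_simp
    have h7 : lam * ((n : ℝ) ^ h + (n : ℝ) ^ (h - 1)) ≤ lam * ((n : ℝ) + 1) ^ h :=
      mul_le_mul_of_nonneg_left h4 hlam.le
    have h8 : 0 < lam * (n : ℝ) ^ (h - 1) := by positivity
    have h9 : (a' n : ℝ) < (a' (n + 1) : ℝ) := by nlinarith [h1.2, h2.1]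
    exact_mod_cast h9
  have hbig : ∀ n : ℕ, n0 ≤ n → (n : ℤ) < a' n := by
    intro n hn
    have h1 := hn1 n (hn01.trans hn)
    have hnR : (1 : ℝ) ≤ n := by exact_mod_cast hn03.trans hn
    have hP : (0 : ℝ) < (n : ℝ) ^ (h - 1) := by positivity
    rw [abs_le] at h1
    have e1 : (n : ℝ) ^ h = n * (n : ℝ) ^ (h - 1) := by
      conv_lhs => rw [hhs]
      rw [pow_succ]; ring
    have h5 : lam / 2 ^ (h + 1) * (n : ℝ) ^ (h - 1) ≤ lam / 2 * (n : ℝ) ^ (h - 1) := by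
      apply mul_le_mul_of_nonneg_right _ hP.le
      apply div_le_div_of_nonneg_left hlam.le (by norm_num)
      calc (2 : ℝ) = 2 ^ 1 := by norm_num
        _ ≤ 2 ^ (h + 1) := pow_le_pow_right₀ (by norm_num) (by omega)
    have h6 : (n : ℝ) ^ 1 ≤ (n : ℝ) ^ (h - 1) := pow_le_pow_right₀ hnR (by omega)
    rw [pow_one] at h6
    have h7 : 2 / lam < (n : ℝ) := lt_of_lt_of_le hn2 (by exact_mod_cast hn02.trans hn)
    rw [div_lt_iff₀ hlam] at h7
    have h8 : (n : ℝ) < (a' n : ℝ) := by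
      have h9 : lam * (n : ℝ) ^ h = lam * n * (n : ℝ) ^ (h - 1) := by rw [e1]; ring
      have h10 : lam / 2 * (n : ℝ) ^ (h - 1) ≤ lam / 2 * (n * (n : ℝ) ^ (h - 1)) := by
        apply mul_le_mul_of_nonneg_left _ (by positivity)
        nlinarith
      have h11 : (n : ℝ) < lam / 2 * n * (n : ℝ) ^ (h - 1) := by
        have : 1 < lam / 2 * n := by linarith
        nlinarith
      nlinarith [h1.1]
    exact_mod_cast h8
  obtain ⟨a, haa⟩ : ∃ a : ℕ → ℕ, a = fun n => if n < n0 then n else (a' n).toNat := ⟨_, rfl⟩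
  have ha_lt : ∀ n, n < n0 → a n = n := by
    intro n hn
    rw [haa]; simp [hn]
  have ha_ge : ∀ n, n0 ≤ n → (a n : ℤ) = a' n := by
    intro n hn
    rw [haa]
    have h1 : ¬ n < n0 := not_lt.2 hn
    simp only [h1, if_false]
    have h2 := hbig n hn
    rw [Int.toNat_of_nonneg (by omega)]
  refine ⟨a, lam, hlam, ?_, ?_, ?_⟩
  · apply strictMono_nat_of_lt_succ
    intro n
    by_cases h1 : n + 1 < n0
    · rw [ha_lt n (by omega), ha_lt (n + 1) h1]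
      omega
    · by_cases h2 : n < n0
      · have h3 := ha_ge (n + 1) (by omega)
        have h4 := hbig (n + 1) (by omega)
        have h5 := ha_lt n h2
        omega
      · have h3 := ha_ge (n + 1) (by omega)
        have h4 := ha_ge n (by omega)
        have h5 := hstep n (by omega)
        omega
  · -- basis
    obtain ⟨J, hJ⟩ : ∃ J : ℕ, J = max j0 (4 * h * n0) := ⟨_, rfl⟩
    obtain ⟨N0, hN0⟩ : ∃ N0 : ℕ, lam * (2 ^ h) ^ J < N0 := exists_nat_gt _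
    refine ⟨N0, ?_⟩
    intro N hN
    have hNR : lam * (2 ^ h) ^ J < (N : ℝ) := lt_of_lt_of_le hN0 (by exact_mod_cast hN)
    have h2h : (1 : ℝ) < 2 ^ h := one_lt_pow₀ (by norm_num) (by omega)
    have hx1 : (1 : ℝ) ≤ (N : ℝ) / lam := by
      rw [le_div_iff₀ hlam, one_mul]
      have : (1 : ℝ) ≤ (2 ^ h) ^ J := one_le_pow₀ h2h.le
      nlinarith
    obtain ⟨j, hj1, hj2⟩ := exists_nat_pow_near hx1 h2h
    have hJj : J ≤ j := by
      by_contra hcon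
      push Not at hcon
      have h1 : ((2 : ℝ) ^ h) ^ (j + 1) ≤ (2 ^ h) ^ J := pow_le_pow_right₀ h2h.le hcon
      have h2 : (N : ℝ) / lam < (2 ^ h) ^ J := lt_of_lt_of_le hj2 h1
      rw [div_lt_iff₀ hlam] at h2
      linarith
    have hj0j : j0 ≤ j := by
      have : j0 ≤ J := by rw [hJ]; exact le_max_left _ _
      omega
    have hjn0 : 4 * h * n0 ≤ j := by
      have : 4 * h * n0 ≤ J := by rw [hJ]; exact le_max_right _ _
      omega
    have e1 : ((2 : ℝ) ^ j) ^ h = (2 ^ h) ^ j := by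
      rw [← pow_mul, ← pow_mul, mul_comm]
    rw [le_div_iff₀ hlam] at hj1
    rw [div_lt_iff₀ hlam] at hj2
    obtain ⟨f, hf1, hf2⟩ := (hb j hj0j).2 N (by rw [e1]; linarith) (by
      rw [e1]
      have : ((2 : ℝ) ^ h) ^ (j + 1) = 2 ^ h * (2 ^ h) ^ j := by rw [pow_succ]; ring
      rw [this] at hj2
      linarith)
    have hfn : ∀ i, n0 ≤ f i := by
      intro i
      have h1 := (hf1 i).1
      have h2 : j < 2 ^ j := Nat.lt_two_pow_self
      have h3 : 4 * h * n0 ≤ 4 * h * f i := by omega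
      exact Nat.le_of_mul_le_mul_left h3 (by omega)
    refine ⟨f, fun i => hn03.trans (hfn i), ?_⟩
    have hsum : (∑ i, (a (f i) : ℤ)) = (N : ℤ) := by
      rw [← hf2]
      apply Finset.sum_congr rfl
      intro i _
      rw [ha_ge (f i) (hfn i)]
      apply ha1
      rw [hWin]
      exact ⟨hj0j, (hf1 i).1, (hf1 i).2.1, (hf1 i).2.2⟩
    exact_mod_cast hsum
  · rw [Asymptotics.isLittleO_iff]
    intro c hc
    obtain ⟨n3, hn3⟩ := herr c hc
    filter_upwards [Filter.eventually_ge_atTop (max n0 n3)] with n hn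
    have h1 := hn3 n ((le_max_right _ _).trans hn)
    have h2 := ha_ge n ((le_max_left _ _).trans hn)
    have h3 : (a n : ℝ) = (a' n : ℝ) := by exact_mod_cast congrArg (fun z : ℤ => (z : ℝ)) h2
    rw [h3, Real.norm_eq_abs, Real.norm_eq_abs, abs_of_nonneg (by positivity : (0:ℝ) ≤ (n : ℝ) ^ (h - 1))]
    exact h1

end Pool.Agent.Helper112.CB.Kca

namespace Pool.Agent.Helper112.CB

theorem cassels (h : ℕ) (hh : 2 ≤ h) : ∃ (a : ℕ → ℕ) (lam : ℝ), 0 < lam ∧ StrictMono a ∧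
    (∃ N₀ : ℕ, ∀ N : ℕ, N₀ ≤ N → ∃ f : Fin h → ℕ, (∀ i, 1 ≤ f i) ∧ ∑ i, a (f i) = N) ∧
    (fun n : ℕ => (a n : ℝ) - lam * (n : ℝ) ^ h) =o[Filter.atTop]
      (fun n : ℕ => (n : ℝ) ^ (h - 1)) := by
  first
    | exact Kca.cassels
    | (apply Kca.cassels <;> assumption)

end Pool.Agent.Helper112.CB
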